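import Pool.Graph.R_seed8.Helper873.Mean

set_option autoImplicit false
open MeasureTheory Metric Filter
open scoped ComplexConjugate ENNReal Topology

/-! The infinite torus, the Steinhaus function, the flow and the norms. -/

namespace Pool.Agent.H7.PM

open Pool.Agent.Helper873.OneVar Pool.Agent.Helper873.Product Pool.Agent.Helper873.Alg
  Pool.Agent.Helper873.Monomial Pool.Agent.Helper873.Embed Pool.Agent.Helper873.Mean

/-- the infinite torus -/
abbrev Tor := ℕ → UnitAddCircle

/-- the Steinhaus function -/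
noncomputable def stf (n : ℕ) (z : Tor) : ℂ := mon n (fun j => zet (z j))

lemma continuous_zz : Continuous fun z : Tor => (fun j => zet (z j) : ℕ → ℂ) :=
  continuous_pi fun j => continuous_zet.comp (continuous_apply j)

lemma continuous_stf (n : ℕ) : Continuous (stf n) := (continuous_mon _).comp continuous_zz

lemma norm_stf (n : ℕ) (z : Tor) : ‖stf n z‖ = 1 := by
  unfold stf mon
  rw [norm_prod]
  refine Finset.prod_eq_one fun k _ => ?_
  rw [norm_pow, norm_zet, one_pow]

lemma stf_one (z : Tor) : stf 1 z = 1 := mon_one _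

lemma stf_mul (m n : ℕ) (hm : m ≠ 0) (hn : n ≠ 0) (z : Tor) :
    stf (m * n) z = stf m z * stf n z := (mon_mul m n hm hn _).symm

lemma stf_prime (k : ℕ) (z : Tor) : stf (Nat.nth Nat.Prime k) z = zet (z k) := mon_prime k _

lemma zet_add (a b : UnitAddCircle) : zet (a + b) = zet a * zet b := by
  unfold zet
  rw [fourier_apply, fourier_apply, fourier_apply, zsmul_add, AddCircle.toCircle_add,
    Circle.coe_mul]

/-- the flow on the torus -/
noncomputable def sh (t : ℝ) (z : Tor) : Tor := fun k => z k + zt t k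

lemma continuous_sh (t : ℝ) : Continuous (sh t) :=
  continuous_pi fun k => (continuous_apply k).add continuous_const

lemma mon_mul_fun (n : ℕ) (v w : ℕ → ℂ) : mon n (fun k => v k * w k) = mon n v * mon n w := by
  unfold mon
  rw [← Finset.prod_mul_distrib]
  exact Finset.prod_congr rfl fun k _ => mul_pow _ _ _

lemma stf_sh (n : ℕ) (hn : n ≠ 0) (t : ℝ) (z : Tor) :
    stf n (sh t z) = stf n z * (n : ℂ) ^ (-(t * Complex.I)) := by
  unfold stf sh
  simp_rw [zet_add]
  rw [mon_mul_fun]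
  congr 1
  have h1 : (fun j => zet (zt t j)) = vs (t * Complex.I) := funext fun k => zet_zt t k
  rw [h1, mon_vs n hn]

lemma zt_add (s t : ℝ) : sh t (zt s) = zt (s + t) := by
  funext k
  unfold sh zt
  rw [← AddCircle.coe_add]
  congr 1
  ring

lemma integrable_tor' {E : Type*} [NormedAddCommGroup E] {f : Tor → E}
    (hf : Continuous f) : Integrable f tor :=
  hf.integrable_of_hasCompactSupport (HasCompactSupport.of_compactSpace f)

lemma exists_bdd {f : Tor → ℂ} (hf : Continuous f) : ∃ B : ℝ, 0 ≤ B ∧ ∀ z, ‖f z‖ ≤ B := by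
  obtain ⟨B, hB⟩ := isCompact_univ.exists_bound_of_continuousOn hf.continuousOn
  exact ⟨max B 0, le_max_right _ _, fun z => (hB z (Set.mem_univ z)).trans (le_max_left _ _)⟩

/-- invariance of the measure under the flow -/
lemma integral_sh (h : ℝ) (f : Tor → ℂ) (hf : Continuous f) :
    ∫ z, f (sh h z) ∂tor = ∫ z, f z ∂tor := by
  obtain ⟨B, hB0, hB⟩ := exists_bdd hf
  have h1 := kw ⟨f, hf⟩
  have h2 := kw ⟨fun z => f (sh h z), hf.comp (continuous_sh h)⟩
  unfold EqM at h1 h2
  simp only [ContinuousMap.coe_mk] at h1 h2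
  simp_rw [zt_add] at h2
  have hint : ∀ a b : ℝ, IntervalIntegrable (fun t => f (zt t)) volume a b := fun a b =>
    (hf.comp continuous_zt).intervalIntegrable a b
  have h3 : Tendsto (fun T => mT (fun t => f (zt (t + h))) T - mT (fun t => f (zt t)) T) atTop
      (𝓝 0) := by
    refine squeeze_zero_norm' (a := fun T : ℝ => |h| * B * T⁻¹) ?_ ?_
    · filter_upwards [eventually_gt_atTop 0] with T hT
      unfold mT
      rw [intervalIntegral.integral_comp_add_right (fun t => f (zt t)), ← mul_sub, norm_mul,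
        Complex.norm_real, Real.norm_of_nonneg (by positivity)]
      have e : (∫ t in (-T + h)..(T + h), f (zt t)) - ∫ t in (-T)..T, f (zt t) =
          (∫ t in T..(T + h), f (zt t)) - ∫ t in (-T)..(-T + h), f (zt t) := by
        have e1 := intervalIntegral.integral_add_adjacent_intervals (hint (-T) (-T + h))
          (hint (-T + h) (T + h))
        have e2 := intervalIntegral.integral_add_adjacent_intervals (hint (-T) T)
          (hint T (T + h))
        linear_combination e1 - e2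
      rw [e]
      have b1 := intervalIntegral.norm_integral_le_of_norm_le_const (a := T) (b := T + h)
        (f := fun t => f (zt t)) (C := B) fun t _ => hB _
      have b2 := intervalIntegral.norm_integral_le_of_norm_le_const (a := -T) (b := -T + h)
        (f := fun t => f (zt t)) (C := B) fun t _ => hB _
      rw [add_sub_cancel_left] at b1 b2
      have b3 := (norm_sub_le (∫ t in T..(T + h), f (zt t))
        (∫ t in (-T)..(-T + h), f (zt t))).trans (add_le_add b1 b2)
      calc 1 / (2 * T) * ‖(∫ t in T..(T + h), f (zt t)) - ∫ t in (-T)..(-T + h), f (zt t)‖ ≤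
          1 / (2 * T) * (B * |h| + B * |h|) := by gcongr
        _ = |h| * B * T⁻¹ := by field_simp; ring
    · have h5 : Tendsto (fun T : ℝ => T⁻¹) atTop (𝓝 0) := tendsto_inv_atTop_zero
      have := h5.const_mul (|h| * B)
      rwa [mul_zero] at this
  have h4 := h2.sub h1
  have h5 := tendsto_nhds_unique h3 h4
  exact (sub_eq_zero.1 h5.symm)

/-- the norms -/
noncomputable def nrm (p : ℝ) (G : Tor → ℂ) : ℝ := (∫ z, ‖G z‖ ^ p ∂tor) ^ (1 / p)

lemma continuous_norm_rpow {G : Tor → ℂ} (hG : Continuous G) {p : ℝ} (hp : 0 ≤ p) :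
    Continuous fun z => ‖G z‖ ^ p :=
  hG.norm.rpow_const fun _ => Or.inr hp

lemma int_nonneg (p : ℝ) (G : Tor → ℂ) : 0 ≤ ∫ z, ‖G z‖ ^ p ∂tor :=
  integral_nonneg fun z => by positivity

lemma nrm_nonneg (p : ℝ) (G : Tor → ℂ) : 0 ≤ nrm p G := by
  unfold nrm
  exact Real.rpow_nonneg (int_nonneg p G) _

lemma nrm_rpow {p : ℝ} (hp : 0 < p) (G : Tor → ℂ) : nrm p G ^ p = ∫ z, ‖G z‖ ^ p ∂tor := by
  unfold nrm
  rw [← Real.rpow_mul (int_nonneg p G), one_div_mul_cancel hp.ne', Real.rpow_one]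

lemma nrm_mono {p : ℝ} (hp : 0 < p) {G H : Tor → ℂ} (hG : Continuous G) (hH : Continuous H)
    (h : ∀ z, ‖G z‖ ≤ ‖H z‖) : nrm p G ≤ nrm p H := by
  unfold nrm
  refine Real.rpow_le_rpow (int_nonneg p G) ?_ (by positivity)
  refine integral_mono (integrable_tor' (continuous_norm_rpow hG hp.le))
    (integrable_tor' (continuous_norm_rpow hH hp.le)) fun z => ?_
  exact Real.rpow_le_rpow (norm_nonneg _) (h z) hp.le

lemma nrm_const {p : ℝ} (hp : 0 < p) (c : ℂ) : nrm p (fun _ => c) = ‖c‖ := by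
  unfold nrm
  simp only [integral_const, probReal_univ, smul_eq_mul, one_mul]
  rw [← Real.rpow_mul (norm_nonneg _), mul_one_div_cancel hp.ne', Real.rpow_one]

lemma nrm_le_const {p : ℝ} (hp : 0 < p) {G : Tor → ℂ} (hG : Continuous G) {C : ℝ}
    (h : ∀ z, ‖G z‖ ≤ C) : nrm p G ≤ C := by
  have h0 : 0 ≤ C := (norm_nonneg _).trans (h 0)
  have h1 := nrm_mono hp hG (continuous_const (y := (C : ℂ))) fun z => by
    rw [Complex.norm_real, Real.norm_of_nonneg h0]; exact h z
  rwa [nrm_const hp, Complex.norm_real, Real.norm_of_nonneg h0] at h1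

lemma nrm_const_mul {p : ℝ} (hp : 0 < p) (c : ℂ) (G : Tor → ℂ) :
    nrm p (fun z => c * G z) = ‖c‖ * nrm p G := by
  unfold nrm
  simp_rw [norm_mul]
  have h1 : ∀ z, (‖c‖ * ‖G z‖) ^ p = ‖c‖ ^ p * ‖G z‖ ^ p := fun z =>
    Real.mul_rpow (norm_nonneg _) (norm_nonneg _)
  simp_rw [h1]
  rw [integral_const_mul, Real.mul_rpow (by positivity) (int_nonneg p G),
    ← Real.rpow_mul (norm_nonneg _), mul_one_div_cancel hp.ne', Real.rpow_one]

lemma nrm_eq {p : ℝ} (hp : 0 < p) {G : Tor → ℂ} (hG : Continuous G) :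
    nrm p G = (eLpNorm G (ENNReal.ofReal p) tor).toReal := by
  have hM : MemLp G (ENNReal.ofReal p) tor := by
    obtain ⟨B, _, hB⟩ := exists_bdd hG
    exact MemLp.of_bound hG.aestronglyMeasurable B (Eventually.of_forall hB)
  rw [hM.eLpNorm_eq_integral_rpow_norm (by positivity) ENNReal.ofReal_ne_top,
    ENNReal.toReal_ofReal hp.le, ENNReal.toReal_ofReal]
  · unfold nrm; rw [one_div]
  · exact Real.rpow_nonneg (int_nonneg p G) _

lemma nrm_add_le {p : ℝ} (hp : 1 ≤ p) {G H : Tor → ℂ} (hG : Continuous G) (hH : Continuous H) :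
    nrm p (fun z => G z + H z) ≤ nrm p G + nrm p H := by
  have hp0 : 0 < p := lt_of_lt_of_le one_pos hp
  have hm : ∀ G : Tor → ℂ, Continuous G → MemLp G (ENNReal.ofReal p) tor := fun G hG => by
    obtain ⟨B, _, hB⟩ := exists_bdd hG
    exact MemLp.of_bound hG.aestronglyMeasurable B (Eventually.of_forall hB)
  rw [nrm_eq hp0 hG, nrm_eq hp0 hH,
    nrm_eq hp0 (show Continuous (fun z => G z + H z) from hG.add hH),
    ← ENNReal.toReal_add (hm G hG).eLpNorm_lt_top.ne (hm H hH).eLpNorm_lt_top.ne]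
  refine ENNReal.toReal_mono ?_ ?_
  · exact ENNReal.add_ne_top.2 ⟨(hm G hG).eLpNorm_lt_top.ne, (hm H hH).eLpNorm_lt_top.ne⟩
  · exact eLpNorm_add_le hG.aestronglyMeasurable hH.aestronglyMeasurable
      (by simpa using hp)

lemma nrm_sub_le {p : ℝ} (hp : 1 ≤ p) {G H : Tor → ℂ} (hG : Continuous G) (hH : Continuous H) :
    nrm p G ≤ nrm p (fun z => G z - H z) + nrm p H := by
  have h := nrm_add_le hp (show Continuous (fun z => G z - H z) from hG.sub hH) hH
  simp only [sub_add_cancel] at h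
  exact h

lemma nrm_neg {p : ℝ} (G : Tor → ℂ) : nrm p (fun z => - G z) = nrm p G := by
  unfold nrm; simp

lemma abs_nrm_sub_le {p : ℝ} (hp : 1 ≤ p) {G H : Tor → ℂ} (hG : Continuous G)
    (hH : Continuous H) : |nrm p G - nrm p H| ≤ nrm p (fun z => G z - H z) := by
  rw [abs_le]
  have h1 := nrm_sub_le hp hG hH
  have h2 := nrm_sub_le hp hH hG
  have h3 : nrm p (fun z => H z - G z) = nrm p (fun z => G z - H z) := by
    rw [← nrm_neg]; simp
  rw [h3] at h2
  constructor <;> linarith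

lemma nrm_sum_le {p : ℝ} (hp : 1 ≤ p) {ι : Type*} (s : Finset ι) (G : ι → Tor → ℂ)
    (hG : ∀ i ∈ s, Continuous (G i)) :
    nrm p (fun z => ∑ i ∈ s, G i z) ≤ ∑ i ∈ s, nrm p (G i) := by
  classical
  have hp0 : 0 < p := lt_of_lt_of_le one_pos hp
  induction s using Finset.induction_on with
  | empty => simp [nrm_const hp0]
  | insert a s ha ih =>
    simp_rw [Finset.sum_insert ha]
    have hc : Continuous fun z => ∑ i ∈ s, G i z :=
      continuous_finsetSum s fun i hi => hG i (Finset.mem_insert_of_mem hi)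
    refine (nrm_add_le hp (hG a (Finset.mem_insert_self _ _)) hc).trans ?_
    have := ih fun i hi => hG i (Finset.mem_insert_of_mem hi)
    linarith

lemma nrm_sh {p : ℝ} (hp : 0 ≤ p) (h : ℝ) {G : Tor → ℂ} (hG : Continuous G) :
    ∫ z, ‖G (sh h z)‖ ^ p ∂tor = ∫ z, ‖G z‖ ^ p ∂tor := by
  have h1 := integral_sh h (fun z => ((‖G z‖ ^ p : ℝ) : ℂ))
    (Complex.continuous_ofReal.comp (continuous_norm_rpow hG hp))
  have e1 : ∫ z, ((‖G (sh h z)‖ ^ p : ℝ) : ℂ) ∂tor = ((∫ z, ‖G (sh h z)‖ ^ p ∂tor : ℝ) : ℂ) :=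
    integral_ofReal
  have e2 : ∫ z, ((‖G z‖ ^ p : ℝ) : ℂ) ∂tor = ((∫ z, ‖G z‖ ^ p ∂tor : ℝ) : ℂ) :=
    integral_ofReal
  rw [e1, e2] at h1
  exact_mod_cast h1

end Pool.Agent.H7.PM
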