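import Pool.Graph.R_seed8.W188.GP.Stm

set_option autoImplicit false
open MeasureTheory Metric Filter
open scoped ComplexConjugate ENNReal Topology

/-! The multiplier of the discrete Hilbert transform. -/

namespace Pool.Agent.H7.PM

open Pool.Agent.W188.GP

/-- partial sums of the logarithmic series -/
noncomputable def sL (R : ℕ) (w : ℂ) : ℂ := ∑ j ∈ Finset.range R, w ^ (j + 1) / ((j : ℂ) + 1)

lemma tail_aux (w : ℂ) (hw : ‖w‖ = 1) (r d : ℕ) :
    ‖(1 - w) * (sL (r + 1 + d) w - sL r w) + w ^ (r + 1 + d + 1) / ((r + 1 + d : ℕ) : ℂ)‖ ≤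
      2 / ((r : ℝ) + 1) - 1 / ((r + 1 + d : ℕ) : ℝ) := by
  induction d with
  | zero =>
    have h0 : ((r : ℂ) + 1) ≠ 0 := by exact_mod_cast Nat.succ_ne_zero r
    have e : (1 - w) * (sL (r + 1 + 0) w - sL r w) + w ^ (r + 1 + 0 + 1) / ((r + 1 + 0 : ℕ) : ℂ) =
        w ^ (r + 1) / ((r : ℂ) + 1) := by
      unfold sL
      rw [add_zero, Finset.sum_range_succ]
      push_cast
      field_simp
      ring
    rw [e, norm_div, norm_pow, hw, one_pow]
    have e2 : ‖((r : ℂ) + 1)‖ = (r : ℝ) + 1 := by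
      have : ((r : ℂ) + 1) = (((r : ℝ) + 1 : ℝ) : ℂ) := by push_cast; rfl
      rw [this, Complex.norm_real, Real.norm_of_nonneg (by positivity)]
    rw [e2]
    push_cast
    rw [add_zero]
    have : 0 < (r : ℝ) + 1 := by positivity
    apply le_of_eq
    field_simp
    norm_num
  | succ d ih =>
    have h0 : ((r : ℂ) + 1 + d) ≠ 0 := by exact_mod_cast (by omega : r + 1 + d ≠ 0)
    have h1 : ((r : ℂ) + 1 + d + 1) ≠ 0 := by exact_mod_cast (by omega : r + 1 + d + 1 ≠ 0)
    have e : (1 - w) * (sL (r + 1 + (d + 1)) w - sL r w) +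
        w ^ (r + 1 + (d + 1) + 1) / ((r + 1 + (d + 1) : ℕ) : ℂ) =
        ((1 - w) * (sL (r + 1 + d) w - sL r w) + w ^ (r + 1 + d + 1) / ((r + 1 + d : ℕ) : ℂ)) +
        w ^ (r + 1 + d + 1) * (1 / ((r + 1 + d + 1 : ℕ) : ℂ) - 1 / ((r + 1 + d : ℕ) : ℂ)) := by
      have e3 : sL (r + 1 + (d + 1)) w = sL (r + 1 + d) w +
          w ^ (r + 1 + d + 1) / ((r : ℂ) + 1 + d + 1) := by
        unfold sL
        rw [← add_assoc, Finset.sum_range_succ]
        push_cast
        rfl
      rw [e3]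
      push_cast
      rw [← add_assoc ((r : ℂ) + 1) d 1, ← add_assoc (r + 1) d 1]
      field_simp
      ring
    rw [e]
    refine (norm_add_le _ _).trans ?_
    have e4 : ‖w ^ (r + 1 + d + 1) * (1 / ((r + 1 + d + 1 : ℕ) : ℂ) - 1 / ((r + 1 + d : ℕ) : ℂ))‖ =
        1 / ((r + 1 + d : ℕ) : ℝ) - 1 / ((r + 1 + d + 1 : ℕ) : ℝ) := by
      rw [norm_mul, norm_pow, hw, one_pow, one_mul]
      have e5 : (1 / ((r + 1 + d + 1 : ℕ) : ℂ) - 1 / ((r + 1 + d : ℕ) : ℂ)) =
          ((-(1 / ((r + 1 + d : ℕ) : ℝ) - 1 / ((r + 1 + d + 1 : ℕ) : ℝ)) : ℝ) : ℂ) := by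
        push_cast
        ring
      rw [e5, Complex.norm_real, norm_neg, Real.norm_of_nonneg]
      rw [sub_nonneg]
      apply one_div_le_one_div_of_le
      · positivity
      · push_cast; linarith
    rw [e4, ← add_assoc]
    linarith

lemma tail_bound (w : ℂ) (hw : ‖w‖ = 1) (r R : ℕ) (h : r ≤ R) :
    ‖1 - w‖ * ‖sL R w - sL r w‖ ≤ 2 / ((r : ℝ) + 1) := by
  rcases h.eq_or_lt with rfl | h
  · simp; positivity
  · obtain ⟨d, rfl⟩ := Nat.exists_eq_add_of_lt h
    have h1 := tail_aux w hw r d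
    have e : r + d + 1 = r + 1 + d := by ring
    rw [e, ← norm_mul]
    have h2 : ‖w ^ (r + 1 + d + 1) / ((r + 1 + d : ℕ) : ℂ)‖ = 1 / ((r + 1 + d : ℕ) : ℝ) := by
      rw [norm_div, norm_pow, hw, one_pow, Complex.norm_natCast]
    have h3 := norm_sub_le ((1 - w) * (sL (r + 1 + d) w - sL r w) +
      w ^ (r + 1 + d + 1) / ((r + 1 + d : ℕ) : ℂ)) (w ^ (r + 1 + d + 1) / ((r + 1 + d : ℕ) : ℂ))
    rw [add_sub_cancel_right, h2] at h3
    linarith

lemma sL_tendsto (w : ℂ) (hw : ‖w‖ = 1) (hw1 : w ≠ 1) :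
    Tendsto (fun R => sL R w) atTop (𝓝 (-Complex.log (1 - w))) := by
  have hpos : 0 < ‖1 - w‖ := norm_pos_iff.2 (sub_ne_zero.2 (Ne.symm hw1))
  have hc : CauchySeq fun R => sL R w := by
    refine cauchySeq_of_le_tendsto_0 (fun r : ℕ => 2 / ‖1 - w‖ * (1 / ((r : ℝ) + 1)) +
      2 / ‖1 - w‖ * (1 / ((r : ℝ) + 1))) ?_ ?_
    · intro n m N hn hm
      have a1 := tail_bound w hw N n hn
      have a2 := tail_bound w hw N m hm
      rw [dist_eq_norm]
      have e : sL n w - sL m w = (sL n w - sL N w) - (sL m w - sL N w) := by ring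
      rw [e]
      refine (norm_sub_le _ _).trans (add_le_add ?_ ?_)
      · rw [div_mul_div_comm, mul_one, le_div_iff₀ (by positivity)]
        rw [le_div_iff₀ (by positivity)] at a1
        linarith
      · rw [div_mul_div_comm, mul_one, le_div_iff₀ (by positivity)]
        rw [le_div_iff₀ (by positivity)] at a2
        linarith
    · have := (tendsto_one_div_add_atTop_nhds_zero_nat (𝕜 := ℝ)).const_mul (2 / ‖1 - w‖)
      simpa using this.add this
  obtain ⟨l, hl⟩ := cauchySeq_tendsto_of_complete hc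
  suffices l = -Complex.log (1 - w) by rwa [this] at hl
  -- Abel
  have hab := Complex.tendsto_tsum_powerSeries_nhdsWithin_lt
    (f := fun j : ℕ => w ^ (j + 1) / ((j : ℂ) + 1)) (l := l) hl
  have h2 : Tendsto (fun x : ℝ => (x : ℂ) * ∑' n : ℕ, w ^ (n + 1) / ((n : ℂ) + 1) * (x : ℂ) ^ n)
      (𝓝[<] 1) (𝓝 (1 * l)) := by
    refine Tendsto.mul ?_ ?_
    · exact (Complex.continuous_ofReal.tendsto' 1 1 (by simp)).mono_left nhdsWithin_le_nhds
    · exact tendsto_map'_iff.1 hab
  have h3 : Tendsto (fun x : ℝ => (x : ℂ) * ∑' n : ℕ, w ^ (n + 1) / ((n : ℂ) + 1) * (x : ℂ) ^ n)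
      (𝓝[<] 1) (𝓝 (-Complex.log (1 - w))) := by
    have h4 : Tendsto (fun x : ℝ => -Complex.log (1 - x * w)) (𝓝[<] 1)
        (𝓝 (-Complex.log (1 - w))) := by
      have h5 : ContinuousAt (fun x : ℝ => -Complex.log (1 - x * w)) 1 := by
        refine ContinuousAt.neg (ContinuousAt.clog ?_ ?_)
        · fun_prop
        · refine Or.inl ?_
          simp only [Complex.ofReal_one, one_mul, Complex.sub_re, Complex.one_re]
          have h6 : w.re ≤ 1 := hw ▸ Complex.re_le_norm w
          rcases h6.lt_or_eq with h6 | h6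
          · linarith
          · exfalso
            apply hw1
            have h7 : w.re ^ 2 + w.im ^ 2 = 1 := by
              have := Complex.normSq_eq_norm_sq w
              rw [Complex.normSq_apply, hw] at this
              nlinarith
            have h8 : w.im = 0 := by nlinarith
            exact Complex.ext (by simpa using h6) (by simpa using h8)
      have h9 := h5.tendsto
      simp only [Complex.ofReal_one, one_mul] at h9
      exact h9.mono_left nhdsWithin_le_nhds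
    refine h4.congr' ?_
    have h10 : ∀ᶠ x : ℝ in 𝓝[<] 1, 0 < x :=
      (eventually_gt_nhds (by norm_num : (0 : ℝ) < 1)).filter_mono nhdsWithin_le_nhds
    filter_upwards [self_mem_nhdsWithin, h10] with x hx hx0
    have hx1 : x < 1 := hx
    have hn : ‖(x : ℂ) * w‖ < 1 := by
      rw [norm_mul, hw, mul_one, Complex.norm_real, Real.norm_of_nonneg hx0.le]
      exact hx1
    have h11 := Complex.hasSum_taylorSeries_neg_log hn
    have h12 := (hasSum_nat_add_iff' 1).2 h11
    simp only [Finset.range_one, Finset.sum_singleton, Nat.cast_zero, div_zero, sub_zero] at h12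
    rw [← h12.tsum_eq, ← tsum_mul_left]
    refine tsum_congr fun n => ?_
    push_cast
    rw [mul_pow]
    ring
  have := tendsto_nhds_unique h2 h3
  rwa [one_mul] at this

lemma sL_bound (w : ℂ) (hw : ‖w‖ = 1) (hw1 : w ≠ 1) (r : ℕ) :
    ‖sL r w + Complex.log (1 - w)‖ ≤ 2 / (‖1 - w‖ * ((r : ℝ) + 1)) := by
  have hpos : 0 < ‖1 - w‖ := norm_pos_iff.2 (sub_ne_zero.2 (Ne.symm hw1))
  have h1 := (((sL_tendsto w hw hw1).sub_const (sL r w)).norm).const_mul ‖1 - w‖
  have h2 : ‖1 - w‖ * ‖-Complex.log (1 - w) - sL r w‖ ≤ 2 / ((r : ℝ) + 1) := by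
    refine le_of_tendsto h1 ?_
    filter_upwards [eventually_ge_atTop r] with R hR using tail_bound w hw r R hR
  rw [le_div_iff₀ (by positivity)]
  rw [le_div_iff₀ (by positivity)] at h2
  have e : ‖sL r w + Complex.log (1 - w)‖ = ‖-Complex.log (1 - w) - sL r w‖ := by
    rw [← norm_neg]; congr 1; ring
  rw [e]
  linarith

lemma arg_one_sub (φ : ℝ) (h0 : 0 < φ) (h1 : φ ≤ Real.pi) :
    (Complex.log (1 - Complex.exp (φ * Complex.I))).im = (φ - Real.pi) / 2 := by
  rw [Complex.log_im]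
  have hs : 0 < 2 * Real.sin (φ / 2) := by
    have := Real.sin_pos_of_pos_of_lt_pi (x := φ / 2) (by linarith) (by linarith [Real.pi_pos])
    linarith
  have e : (1 - Complex.exp (φ * Complex.I)) = ((2 * Real.sin (φ / 2) : ℝ) : ℂ) *
      (Complex.cos (((φ - Real.pi) / 2 : ℝ) : ℂ) +
        Complex.sin (((φ - Real.pi) / 2 : ℝ) : ℂ) * Complex.I) := by
    rw [Complex.exp_mul_I, ← Complex.ofReal_cos, ← Complex.ofReal_sin, ← Complex.ofReal_cos,
      ← Complex.ofReal_sin]
    have c1 : Real.cos ((φ - Real.pi) / 2) = Real.sin (φ / 2) := by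
      rw [sub_div, Real.cos_sub_pi_div_two]
    have c2 : Real.sin ((φ - Real.pi) / 2) = -Real.cos (φ / 2) := by
      rw [sub_div, Real.sin_sub_pi_div_two]
    have c3 : Real.cos φ = 1 - 2 * Real.sin (φ / 2) ^ 2 := by
      have h := Real.cos_sq (φ / 2)
      have h2 := Real.sin_sq_add_cos_sq (φ / 2)
      rw [mul_div_cancel₀ φ (two_ne_zero)] at h
      linarith
    have c4 : Real.sin φ = 2 * Real.sin (φ / 2) * Real.cos (φ / 2) := by
      rw [← Real.sin_two_mul]; congr 1; ring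
    rw [c1, c2, c3, c4]
    generalize Real.sin (φ / 2) = S
    generalize Real.cos (φ / 2) = C
    push_cast
    ring
  rw [e, Complex.arg_mul_cos_add_sin_mul_I hs]
  constructor
  · linarith [Real.pi_pos]
  · linarith [Real.pi_pos]

/-- the multiplier -/
noncomputable def kap (M : ℕ) (m : ℤ) (φ : ℝ) : ℂ :=
  ∑ n ∈ Finset.Icc (-(2 * M : ℤ)) (2 * M), Complex.exp (((m - n : ℤ) * φ : ℝ) * Complex.I) *
    hk (m - n)

lemma sum_split (g : ℤ → ℂ) (a b : ℕ) :
    ∑ j ∈ Finset.Icc (-(a : ℤ)) b, g j * hk j =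
      ∑ j ∈ Finset.range b, g (j + 1) / ((j : ℂ) + 1) -
      ∑ j ∈ Finset.range a, g (-(j + 1)) / ((j : ℂ) + 1) := by
  induction b with
  | zero =>
    induction a with
    | zero => simp [hk]
    | succ a ih =>
      have e : Finset.Icc (-((a + 1 : ℕ) : ℤ)) ((0 : ℕ) : ℤ) =
          insert (-((a : ℤ) + 1)) (Finset.Icc (-(a : ℤ)) ((0 : ℕ) : ℤ)) := by
        ext x; simp only [Finset.mem_Icc, Finset.mem_insert]; push_cast; omega
      rw [e, Finset.sum_insert (by simp), ih, Finset.sum_range_succ]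
      have e2 : hk (-((a : ℤ) + 1)) = -(1 / ((a : ℂ) + 1)) := by
        unfold hk
        rw [if_neg (by omega)]
        push_cast
        rw [one_div, one_div, ← inv_neg]
      rw [e2]
      ring
  | succ b ih =>
    have e : Finset.Icc (-(a : ℤ)) ((b + 1 : ℕ) : ℤ) =
        insert ((b : ℤ) + 1) (Finset.Icc (-(a : ℤ)) (b : ℤ)) := by
      ext x; simp only [Finset.mem_Icc, Finset.mem_insert]; push_cast; omega
    rw [e, Finset.sum_insert (by simp), ih, Finset.sum_range_succ]
    have e2 : hk ((b : ℤ) + 1) = 1 / ((b : ℂ) + 1) := by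
      unfold hk
      rw [if_neg (by omega)]
      push_cast
      rfl
    rw [e2]
    ring

lemma kap_eq (M : ℕ) (m : ℤ) (hm : |m| ≤ M) (φ : ℝ) :
    kap M m φ = sL (m + 2 * M).toNat (Complex.exp (φ * Complex.I)) -
      conj (sL (2 * M - m).toNat (Complex.exp (φ * Complex.I))) := by
  obtain ⟨hm1, hm2⟩ := abs_le.1 hm
  have ha : ((2 * M - m).toNat : ℤ) = 2 * M - m := Int.toNat_of_nonneg (by omega)
  have hb : ((m + 2 * M).toNat : ℤ) = m + 2 * M := Int.toNat_of_nonneg (by omega)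
  have h1 := sum_split (fun j => Complex.exp (((j : ℤ) * φ : ℝ) * Complex.I)) (2 * M - m).toNat
    (m + 2 * M).toNat
  rw [ha, hb] at h1
  have h2 : kap M m φ = ∑ j ∈ Finset.Icc (-(2 * M - m : ℤ)) (m + 2 * M),
      Complex.exp (((j : ℤ) * φ : ℝ) * Complex.I) * hk j := by
    unfold kap
    refine Finset.sum_bij' (fun n _ => m - n) (fun j _ => m - j) ?_ ?_ ?_ ?_ ?_
    · intro n hn; simp only [Finset.mem_Icc] at *; omega
    · intro n hn; simp only [Finset.mem_Icc] at *; omega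
    · intro n _; ring
    · intro n _; ring
    · intro n _; rfl
  rw [h2, h1]
  congr 1
  · unfold sL
    refine Finset.sum_congr rfl fun j _ => ?_
    rw [← Complex.exp_nat_mul]
    congr 2
    push_cast
    ring
  · unfold sL
    rw [map_sum]
    refine Finset.sum_congr rfl fun j _ => ?_
    rw [← Complex.exp_nat_mul, map_div₀, ← Complex.exp_conj]
    congr 1
    · congr 1
      push_cast
      rw [map_mul, map_mul, Complex.conj_ofReal, Complex.conj_I, map_add, Complex.conj_natCast,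
        map_one]
      ring
    · rw [map_add, Complex.conj_natCast, map_one]

lemma kap_bound_pos (M : ℕ) (hM : 1 ≤ M) (m : ℤ) (hm : |m| ≤ M) (φ : ℝ) (h0 : 0 < φ)
    (h1 : φ ≤ 1) :
    ‖kap M m φ - Real.pi * Complex.I‖ ≤ φ + 4 / (‖1 - Complex.exp (φ * Complex.I)‖ * M) := by
  obtain ⟨hm1, hm2⟩ := abs_le.1 hm
  set w := Complex.exp (φ * Complex.I) with hw
  have hpi : (1 : ℝ) ≤ Real.pi := by linarith [Real.pi_gt_three]
  have hwn : ‖w‖ = 1 := by rw [hw, Complex.norm_exp_ofReal_mul_I]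
  have hw1 : w ≠ 1 := by
    intro h
    have h2 := arg_one_sub φ h0 (by linarith)
    rw [← hw, h] at h2
    simp at h2
    linarith [Real.pi_gt_three]
  have hpos : 0 < ‖1 - w‖ := norm_pos_iff.2 (sub_ne_zero.2 (Ne.symm hw1))
  have ha : M ≤ (2 * M - m).toNat := by omega
  have hb : M ≤ (m + 2 * M).toNat := by omega
  have hM0 : (0 : ℝ) < M := by exact_mod_cast hM
  have key : ∀ r : ℕ, M ≤ r → ‖sL r w + Complex.log (1 - w)‖ ≤ 2 / (‖1 - w‖ * M) := by
    intro r hr
    refine (sL_bound w hwn hw1 r).trans ?_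
    have : (M : ℝ) ≤ (r : ℝ) + 1 := by
      have : (M : ℝ) ≤ r := by exact_mod_cast hr
      linarith
    gcongr
  rw [kap_eq M m hm φ, ← hw]
  have e : sL (m + 2 * M).toNat w - conj (sL (2 * M - m).toNat w) - Real.pi * Complex.I =
      (sL (m + 2 * M).toNat w + Complex.log (1 - w)) -
      conj (sL (2 * M - m).toNat w + Complex.log (1 - w)) +
      (conj (Complex.log (1 - w)) - Complex.log (1 - w) - Real.pi * Complex.I) := by
    rw [map_add]; ring
  rw [e]
  have e2 : conj (Complex.log (1 - w)) - Complex.log (1 - w) - Real.pi * Complex.I =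
      ((-φ : ℝ) : ℂ) * Complex.I := by
    have h2 := arg_one_sub φ h0 (by linarith)
    rw [← hw] at h2
    apply Complex.ext
    · simp
    · simp [h2]; ring
  rw [e2]
  refine (norm_add_le _ _).trans ?_
  have h3 : ‖((-φ : ℝ) : ℂ) * Complex.I‖ = φ := by
    rw [norm_mul, Complex.norm_I, mul_one, Complex.norm_real, norm_neg, Real.norm_of_nonneg h0.le]
  rw [h3]
  have h4 := norm_sub_le (sL (m + 2 * M).toNat w + Complex.log (1 - w))
    (conj (sL (2 * M - m).toNat w + Complex.log (1 - w)))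
  rw [Complex.norm_conj] at h4
  have h5 := key _ ha
  have h6 := key _ hb
  have h7 : 4 / (‖1 - w‖ * M) = 2 / (‖1 - w‖ * M) + 2 / (‖1 - w‖ * M) := by ring
  rw [h7]
  linarith

lemma conj_hk (j : ℤ) : conj (hk j) = hk j := by
  unfold hk
  split_ifs
  · simp
  · simp

lemma kap_neg (M : ℕ) (m : ℤ) (φ : ℝ) : kap M m (-φ) = conj (kap M m φ) := by
  unfold kap
  rw [map_sum]
  refine Finset.sum_congr rfl fun n _ => ?_
  rw [map_mul, conj_hk, ← Complex.exp_conj, map_mul, Complex.conj_ofReal, Complex.conj_I]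
  congr 2
  push_cast
  ring

/-- sign -/
noncomputable def sgc (φ : ℝ) : ℂ := if 0 < φ then 1 else -1

lemma kap_bound (M : ℕ) (hM : 1 ≤ M) (m : ℤ) (hm : |m| ≤ M) (φ : ℝ) (h0 : φ ≠ 0)
    (h1 : |φ| ≤ 1) :
    ‖kap M m φ - Real.pi * Complex.I * sgc φ‖ ≤
      |φ| + 4 / (‖1 - Complex.exp (φ * Complex.I)‖ * M) := by
  unfold sgc
  rcases lt_or_gt_of_ne h0 with h | h
  · rw [if_neg (by linarith), abs_of_neg h]
    have h2 := kap_bound_pos M hM m hm (-φ) (by linarith) (by rwa [abs_of_neg h] at h1)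
    rw [kap_neg] at h2
    have e1 : ‖kap M m φ - Real.pi * Complex.I * -1‖ =
        ‖conj (kap M m φ) - Real.pi * Complex.I‖ := by
      rw [← Complex.norm_conj]
      congr 1
      simp only [map_sub, map_mul, Complex.conj_ofReal, Complex.conj_I, map_neg, map_one]
      ring
    have e2 : ‖1 - Complex.exp (φ * Complex.I)‖ = ‖1 - Complex.exp ((-φ : ℝ) * Complex.I)‖ := by
      rw [← Complex.norm_conj]
      congr 1
      rw [map_sub, map_one, ← Complex.exp_conj, map_mul, Complex.conj_ofReal, Complex.conj_I]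
      push_cast
      ring_nf
    rw [e1, e2]
    exact h2
  · rw [if_pos h, mul_one, abs_of_pos h]
    exact kap_bound_pos M hM m hm φ h (by rwa [abs_of_pos h] at h1)

end Pool.Agent.H7.PM
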