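import Pool.Agent.H7.PM.A1
import Pool.Agent.H7.PM.A2
import Pool.Graph.R_seed8.W308.GP2.H2
import Pool.Graph.R_seed8.W918.GP.Cot
import Pool.Graph.R_seed8.W349.GP.DBL
import Pool.Graph.R_seed8.W19.GPR.RT
import Pool.Graph.R_seed8.W975.GP.Dual
import Pool.Graph.R_seed8.W762.GP.Hp

set_option autoImplicit false
open MeasureTheory Metric Filter
open scoped ComplexConjugate ENNReal Topology

/-! The projection theorem of M. Riesz on the infinite torus. -/

namespace Pool.Agent.H7.PM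

open Pool.Agent.Helper873.OneVar Pool.Agent.Helper873.Product Pool.Agent.Helper873.Alg
  Pool.Agent.Helper873.Monomial Pool.Agent.Helper873.Embed Pool.Agent.Helper873.Mean
open Pool.Agent.W188.GP

theorem hil : StHp := Pool.Agent.W762.GP.gp_hp Pool.Agent.W308.GP2.gp_h2
  (Pool.Agent.W349.GP.gp_dbl Pool.Agent.W918.GP.gp_cot) Pool.Agent.W19.GPR.gp_rt
  Pool.Agent.W975.GP.gp_dual

/-- Dirichlet polynomials on the torus -/
noncomputable def DPol (S : Finset ℕ) (c : ℕ → ℂ) (z : Tor) : ℂ := ∑ n ∈ S, c n * stf n z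

lemma continuous_DPol (S : Finset ℕ) (c : ℕ → ℂ) : Continuous (DPol S c) :=
  continuous_finsetSum S fun n _ => continuous_const.mul (continuous_stf n)

/-- distance of the frequencies to the cut -/
noncomputable def th (N n : ℕ) : ℝ := Real.log n - Real.log ((N : ℝ) + 1 / 2)

lemma th_sign (N n : ℕ) (hn : n ≠ 0) :
    th N n ≠ 0 ∧ sgc (th N n) = if n ≤ N then -1 else 1 := by
  unfold th sgc
  have hn0 : (0 : ℝ) < n := by exact_mod_cast Nat.pos_of_ne_zero hn
  by_cases h : n ≤ N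
  · have h1 : (n : ℝ) ≤ N := by exact_mod_cast h
    have h2 : Real.log n < Real.log ((N : ℝ) + 1 / 2) := Real.log_lt_log hn0 (by linarith)
    refine ⟨by linarith, ?_⟩
    rw [if_neg (by linarith), if_pos h]
  · have h1 : (N : ℝ) + 1 ≤ n := by exact_mod_cast (by omega : N + 1 ≤ n)
    have h2 : Real.log ((N : ℝ) + 1 / 2) < Real.log n :=
      Real.log_lt_log (by positivity) (by linarith)
    refine ⟨by linarith, ?_⟩
    rw [if_pos (by linarith), if_neg h]

/-- the sequence along the flow -/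
noncomputable def bs (S : Finset ℕ) (c : ℕ → ℂ) (N : ℕ) (η : ℝ) (z : Tor) (l : ℤ) : ℂ :=
  ∑ n ∈ S, c n * stf n z * Complex.exp (((-(l * (η * th N n)) : ℝ) : ℂ) * Complex.I)

lemma bs_eq (S : Finset ℕ) (hS : 0 ∉ S) (c : ℕ → ℂ) (N : ℕ) (η : ℝ) (z : Tor) (l : ℤ) :
    bs S c N η z l = Complex.exp (((l * (η * Real.log ((N : ℝ) + 1 / 2)) : ℝ) : ℂ) * Complex.I) *
      DPol S c (sh (l * η) z) := by
  unfold bs DPol
  rw [Finset.mul_sum]
  refine Finset.sum_congr rfl fun n hn => ?_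
  have hn0 : n ≠ 0 := fun h => hS (h ▸ hn)
  rw [stf_sh n hn0]
  have hnc : (n : ℂ) ≠ 0 := by exact_mod_cast hn0
  rw [Complex.cpow_def_of_ne_zero hnc]
  have hlog : Complex.log (n : ℂ) = ((Real.log n : ℝ) : ℂ) := by
    rw [← Complex.ofReal_natCast, ← Complex.ofReal_log (Nat.cast_nonneg n)]
  rw [hlog]
  have e : Complex.exp (((-(l * (η * th N n)) : ℝ) : ℂ) * Complex.I) =
      Complex.exp (((l * (η * Real.log ((N : ℝ) + 1 / 2)) : ℝ) : ℂ) * Complex.I) *
      Complex.exp (((Real.log n : ℝ) : ℂ) * -((l * η : ℝ) * Complex.I)) := by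
    rw [← Complex.exp_add]
    congr 1
    unfold th
    push_cast
    ring
  rw [e]
  ring

lemma norm_bs (S : Finset ℕ) (hS : 0 ∉ S) (c : ℕ → ℂ) (N : ℕ) (η : ℝ) (z : Tor) (l : ℤ) :
    ‖bs S c N η z l‖ = ‖DPol S c (sh (l * η) z)‖ := by
  rw [bs_eq S hS, norm_mul, Complex.norm_exp_ofReal_mul_I, one_mul]

lemma HT_bs (S : Finset ℕ) (c : ℕ → ℂ) (N : ℕ) (η : ℝ) (z : Tor) (M : ℕ) (m : ℤ) :
    HT (Finset.Icc (-(2 * M : ℤ)) (2 * M)) (bs S c N η z) m =
      ∑ n ∈ S, c n * stf n z * Complex.exp (((-(m * (η * th N n)) : ℝ) : ℂ) * Complex.I) *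
        kap M m (η * th N n) := by
  unfold HT bs kap
  simp_rw [Finset.sum_mul, Finset.mul_sum]
  rw [Finset.sum_comm]
  refine Finset.sum_congr rfl fun n _ => Finset.sum_congr rfl fun l _ => ?_
  have e : Complex.exp (((-(l * (η * th N n)) : ℝ) : ℂ) * Complex.I) =
      Complex.exp (((-(m * (η * th N n)) : ℝ) : ℂ) * Complex.I) *
      Complex.exp ((((m - l : ℤ) * (η * th N n) : ℝ) : ℂ) * Complex.I) := by
    rw [← Complex.exp_add]
    congr 1
    push_cast
    ring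
  rw [e]
  ring

/-- the error term -/
noncomputable def er (S : Finset ℕ) (c : ℕ → ℂ) (N : ℕ) (η : ℝ) (M : ℕ) : ℝ :=
  ∑ n ∈ S, ‖c n‖ * (|η * th N n| +
    4 / (‖1 - Complex.exp (((η * th N n : ℝ) : ℂ) * Complex.I)‖ * M))

lemma er_nonneg (S : Finset ℕ) (c : ℕ → ℂ) (N : ℕ) (η : ℝ) (M : ℕ) : 0 ≤ er S c N η M :=
  Finset.sum_nonneg fun n _ => by positivity

lemma HT_close (S : Finset ℕ) (hS : 0 ∉ S) (c : ℕ → ℂ) (N : ℕ) (η : ℝ) (hη : 0 < η)
    (hη1 : ∀ n ∈ S, |η * th N n| ≤ 1) (z : Tor) (M : ℕ) (hM : 1 ≤ M) (m : ℤ) (hm : |m| ≤ M) :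
    ‖(Real.pi * Complex.I) * bs S (fun n => c n * if n ≤ N then -1 else 1) N η z m -
      HT (Finset.Icc (-(2 * M : ℤ)) (2 * M)) (bs S c N η z) m‖ ≤ er S c N η M := by
  rw [HT_bs]
  unfold bs er
  rw [Finset.mul_sum, ← Finset.sum_sub_distrib]
  refine (norm_sum_le _ _).trans (Finset.sum_le_sum fun n hn => ?_)
  have hn0 : n ≠ 0 := fun h => hS (h ▸ hn)
  obtain ⟨h1, h2⟩ := th_sign N n hn0
  have h3 : sgc (η * th N n) = sgc (th N n) := by
    unfold sgc
    have : (0 < η * th N n) ↔ (0 < th N n) := mul_pos_iff_of_pos_left hη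
    simp only [this]
  simp only
  rw [← h2, ← h3]
  have e : Real.pi * Complex.I * (c n * sgc (η * th N n) * stf n z *
      Complex.exp (((-(m * (η * th N n)) : ℝ) : ℂ) * Complex.I)) -
      c n * stf n z * Complex.exp (((-(m * (η * th N n)) : ℝ) : ℂ) * Complex.I) *
        kap M m (η * th N n) =
      -(c n * stf n z * Complex.exp (((-(m * (η * th N n)) : ℝ) : ℂ) * Complex.I) *
        (kap M m (η * th N n) - Real.pi * Complex.I * sgc (η * th N n))) := by ring
  rw [e, norm_neg, norm_mul, norm_mul, norm_mul, Complex.norm_exp_ofReal_mul_I, norm_stf,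
    mul_one, mul_one]
  refine mul_le_mul_of_nonneg_left ?_ (norm_nonneg _)
  exact kap_bound M hM m hm _ (mul_ne_zero hη.ne' h1) (hη1 n hn)

lemma continuous_bs (S : Finset ℕ) (c : ℕ → ℂ) (N : ℕ) (η : ℝ) (l : ℤ) :
    Continuous fun z => bs S c N η z l := by
  unfold bs
  exact continuous_finsetSum S fun n _ => (continuous_const.mul (continuous_stf n)).mul
    continuous_const

lemma int_bs (p : ℝ) (hp : 0 ≤ p) (S : Finset ℕ) (hS : 0 ∉ S) (c : ℕ → ℂ) (N : ℕ) (η : ℝ)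
    (l : ℤ) : ∫ z, ‖bs S c N η z l‖ ^ p ∂tor = ∫ z, ‖DPol S c z‖ ^ p ∂tor := by
  simp_rw [norm_bs S hS]
  exact nrm_sh hp _ (continuous_DPol S c)

lemma riesz_aux (p h : ℝ) (hp : 1 < p) (h0 : 0 ≤ h) (hh : HB p h) (S : Finset ℕ) (hS : 0 ∉ S)
    (c : ℕ → ℂ) (N : ℕ) (η : ℝ) (hη : 0 < η) (hη1 : ∀ n ∈ S, |η * th N n| ≤ 1) (M : ℕ)
    (hM : 1 ≤ M) :
    Real.pi * nrm p (DPol S (fun n => c n * if n ≤ N then -1 else 1)) ≤
      2 * h * nrm p (DPol S c) + er S c N η M := by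
  have hp0 : 0 < p := by linarith
  set Q := DPol S (fun n => c n * if n ≤ N then -1 else 1) with hQ
  set ε := er S c N η M with hε
  have hε0 : 0 ≤ ε := er_nonneg _ _ _ _ _
  rcases le_total (Real.pi * nrm p Q - ε) 0 with hneg | hpos
  · have : 0 ≤ 2 * h * nrm p (DPol S c) := by have := nrm_nonneg p (DPol S c); positivity
    linarith
  -- each term
  have hcH : ∀ m : ℤ, Continuous fun z =>
      HT (Finset.Icc (-(2 * M : ℤ)) (2 * M)) (bs S c N η z) m := by
    intro m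
    unfold HT
    exact continuous_finsetSum _ fun l _ => (continuous_bs S c N η l).mul continuous_const
  have hterm : ∀ m ∈ Finset.Icc (-(M : ℤ)) M, (Real.pi * nrm p Q - ε) ^ p ≤
      ∫ z, ‖HT (Finset.Icc (-(2 * M : ℤ)) (2 * M)) (bs S c N η z) m‖ ^ p ∂tor := by
    intro m hm
    have hm' : |m| ≤ M := abs_le.2 (Finset.mem_Icc.1 hm)
    rw [← nrm_rpow hp0]
    refine Real.rpow_le_rpow hpos ?_ hp0.le
    have h1 : nrm p (fun z => (Real.pi * Complex.I) *
        bs S (fun n => c n * if n ≤ N then -1 else 1) N η z m) = Real.pi * nrm p Q := by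
      rw [nrm_const_mul hp0, norm_mul, Complex.norm_I, mul_one, Complex.norm_real,
        Real.norm_of_nonneg Real.pi_pos.le]
      congr 1
      unfold nrm
      rw [int_bs p hp0.le S hS]
    rw [← h1]
    have h2 := nrm_sub_le hp.le (G := fun z => (Real.pi * Complex.I) *
        bs S (fun n => c n * if n ≤ N then -1 else 1) N η z m)
        (continuous_const.mul (continuous_bs S _ N η m)) (hcH m)
    have h3 := nrm_le_const hp0 (G := fun z => (Real.pi * Complex.I) *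
        bs S (fun n => c n * if n ≤ N then -1 else 1) N η z m -
        HT (Finset.Icc (-(2 * M : ℤ)) (2 * M)) (bs S c N η z) m)
        ((continuous_const.mul (continuous_bs S _ N η m)).sub (hcH m))
        (fun z => HT_close S hS c N η hη hη1 z M hM m hm')
    linarith
  have hsum : ((2 * M + 1 : ℕ) : ℝ) * (Real.pi * nrm p Q - ε) ^ p ≤
      h ^ p * (((4 * M + 1 : ℕ) : ℝ) * nrm p (DPol S c) ^ p) := by
    have hcard : (Finset.Icc (-(M : ℤ)) M).card = 2 * M + 1 := by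
      rw [Int.card_Icc]; omega
    have hcard2 : (Finset.Icc (-(2 * M : ℤ)) (2 * M)).card = 4 * M + 1 := by
      rw [Int.card_Icc]; omega
    calc ((2 * M + 1 : ℕ) : ℝ) * (Real.pi * nrm p Q - ε) ^ p
        = ∑ _m ∈ Finset.Icc (-(M : ℤ)) M, (Real.pi * nrm p Q - ε) ^ p := by
          rw [Finset.sum_const, hcard, nsmul_eq_mul]
      _ ≤ ∑ m ∈ Finset.Icc (-(M : ℤ)) M,
          ∫ z, ‖HT (Finset.Icc (-(2 * M : ℤ)) (2 * M)) (bs S c N η z) m‖ ^ p ∂tor :=
          Finset.sum_le_sum hterm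
      _ = ∫ z, ∑ m ∈ Finset.Icc (-(M : ℤ)) M,
          ‖HT (Finset.Icc (-(2 * M : ℤ)) (2 * M)) (bs S c N η z) m‖ ^ p ∂tor := by
          rw [integral_finsetSum]
          intro m _
          exact integrable_tor' (continuous_norm_rpow (hcH m) hp0.le)
      _ ≤ ∫ z, h ^ p * ∑ l ∈ Finset.Icc (-(2 * M : ℤ)) (2 * M), ‖bs S c N η z l‖ ^ p ∂tor := by
          refine integral_mono ?_ ?_ fun z => hh _ _ _
          · exact integrable_tor' (continuous_finsetSum _ fun m _ =>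
              continuous_norm_rpow (hcH m) hp0.le)
          · exact integrable_tor' (continuous_const.mul (continuous_finsetSum _ fun l _ =>
              continuous_norm_rpow (continuous_bs S c N η l) hp0.le))
      _ = h ^ p * (((4 * M + 1 : ℕ) : ℝ) * nrm p (DPol S c) ^ p) := by
          rw [integral_const_mul, integral_finsetSum]
          · simp_rw [int_bs p hp0.le S hS]
            rw [Finset.sum_const, hcard2, nsmul_eq_mul, nrm_rpow hp0]
          · intro l _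
            exact integrable_tor' (continuous_norm_rpow (continuous_bs S c N η l) hp0.le)
  have h5 : (Real.pi * nrm p Q - ε) ^ p ≤ (2 * h * nrm p (DPol S c)) ^ p := by
    have hP := nrm_nonneg p (DPol S c)
    rw [Real.mul_rpow (by positivity) hP, Real.mul_rpow (by positivity) h0]
    have h2p : (2 : ℝ) ≤ 2 ^ p := by
      calc (2 : ℝ) = 2 ^ (1 : ℝ) := by rw [Real.rpow_one]
        _ ≤ 2 ^ p := Real.rpow_le_rpow_of_exponent_le (by norm_num) hp.le
    have hX : 0 ≤ h ^ p * nrm p (DPol S c) ^ p := by positivity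
    have hM0 : (0 : ℝ) < ((2 * M + 1 : ℕ) : ℝ) := by positivity
    have h6 : ((4 * M + 1 : ℕ) : ℝ) ≤ 2 * ((2 * M + 1 : ℕ) : ℝ) := by push_cast; linarith
    have h7 : ((2 * M + 1 : ℕ) : ℝ) * (Real.pi * nrm p Q - ε) ^ p ≤
        ((2 * M + 1 : ℕ) : ℝ) * (2 * (h ^ p * nrm p (DPol S c) ^ p)) := by
      calc _ ≤ h ^ p * (((4 * M + 1 : ℕ) : ℝ) * nrm p (DPol S c) ^ p) := hsum
        _ = ((4 * M + 1 : ℕ) : ℝ) * (h ^ p * nrm p (DPol S c) ^ p) := by ring
        _ ≤ 2 * ((2 * M + 1 : ℕ) : ℝ) * (h ^ p * nrm p (DPol S c) ^ p) :=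
          mul_le_mul_of_nonneg_right h6 hX
        _ = _ := by ring
    have h8 := le_of_mul_le_mul_left h7 hM0
    calc (Real.pi * nrm p Q - ε) ^ p ≤ 2 * (h ^ p * nrm p (DPol S c) ^ p) := h8
      _ ≤ 2 ^ p * (h ^ p * nrm p (DPol S c) ^ p) := mul_le_mul_of_nonneg_right h2p hX
      _ = _ := by ring
  have h9 := (Real.rpow_le_rpow_iff hpos
    (by have := nrm_nonneg p (DPol S c); positivity) hp0).1 h5
  linarith

/-- **M. Riesz** -/
theorem riesz (p : ℝ) (hp : 1 < p) : ∃ C : ℝ, 0 ≤ C ∧ ∀ (S : Finset ℕ), 0 ∉ S →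
    ∀ (c : ℕ → ℂ) (N : ℕ),
    nrm p (DPol S (fun n => c n * if n ≤ N then -1 else 1)) ≤ C * nrm p (DPol S c) := by
  obtain ⟨h, h0, hh⟩ := hil p hp
  refine ⟨h, h0, fun S hS c N => ?_⟩
  -- first M → ∞, then η → 0
  have key : ∀ η : ℝ, 0 < η → (∀ n ∈ S, |η * th N n| ≤ 1) →
      Real.pi * nrm p (DPol S (fun n => c n * if n ≤ N then -1 else 1)) ≤
      2 * h * nrm p (DPol S c) + η * ∑ n ∈ S, ‖c n‖ * |th N n| := by
    intro η hη hη1
    have ht : Tendsto (fun M : ℕ => 2 * h * nrm p (DPol S c) + er S c N η M) atTop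
        (𝓝 (2 * h * nrm p (DPol S c) + η * ∑ n ∈ S, ‖c n‖ * |th N n|)) := by
      refine Tendsto.const_add _ ?_
      rw [Finset.mul_sum]
      unfold er
      refine tendsto_finsetSum _ fun n _ => ?_
      have e : η * (‖c n‖ * |th N n|) = ‖c n‖ * (|η * th N n| + 0) := by
        rw [abs_mul, abs_of_pos hη]; ring
      rw [e]
      refine Tendsto.const_mul _ (Tendsto.const_add _ ?_)
      have h1 : Tendsto (fun M : ℕ => ((M : ℝ))⁻¹) atTop (𝓝 0) :=
        tendsto_inv_atTop_nhds_zero_nat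
      have h2 := h1.const_mul (4 / ‖1 - Complex.exp (((η * th N n : ℝ) : ℂ) * Complex.I)‖)
      rw [mul_zero] at h2
      refine h2.congr fun M => ?_
      rw [← div_div, div_eq_mul_inv _ (M : ℝ)]
    refine ge_of_tendsto ht ?_
    filter_upwards [eventually_ge_atTop 1] with M hM
    exact riesz_aux p h hp h0 hh S hS c N η hη hη1 M hM
  have key2 : Real.pi * nrm p (DPol S (fun n => c n * if n ≤ N then -1 else 1)) ≤
      2 * h * nrm p (DPol S c) := by
    have ht : Tendsto (fun η : ℝ => 2 * h * nrm p (DPol S c) + η * ∑ n ∈ S, ‖c n‖ * |th N n|)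
        (𝓝[>] 0) (𝓝 (2 * h * nrm p (DPol S c) + 0 * ∑ n ∈ S, ‖c n‖ * |th N n|)) :=
      (Continuous.tendsto (by fun_prop) 0).mono_left nhdsWithin_le_nhds
    rw [zero_mul, add_zero] at ht
    refine ge_of_tendsto ht ?_
    have hev : ∀ᶠ η : ℝ in 𝓝[>] 0, ∀ n ∈ S, |η * th N n| ≤ 1 := by
      rw [Filter.eventually_all_finset]
      intro n _
      have h3 : Tendsto (fun η : ℝ => |η * th N n|) (𝓝[>] 0) (𝓝 |0 * th N n|) :=
        (Continuous.tendsto (by fun_prop) 0).mono_left nhdsWithin_le_nhds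
      rw [zero_mul, abs_zero] at h3
      exact (h3.eventually (gt_mem_nhds (by norm_num : (0 : ℝ) < 1))).mono fun η hη => le_of_lt hη
    filter_upwards [self_mem_nhdsWithin, hev] with η hη h1
    exact key η hη h1
  have hpi : (2 : ℝ) ≤ Real.pi := by linarith [Real.pi_gt_three]
  have hQ := nrm_nonneg p (DPol S (fun n => c n * if n ≤ N then -1 else 1))
  have h4 : 2 * nrm p (DPol S (fun n => c n * if n ≤ N then -1 else 1)) ≤
      2 * (h * nrm p (DPol S c)) := by
    calc _ ≤ Real.pi * nrm p (DPol S (fun n => c n * if n ≤ N then -1 else 1)) :=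
          mul_le_mul_of_nonneg_right hpi hQ
      _ ≤ _ := key2
      _ = _ := by ring
  linarith

end Pool.Agent.H7.PM
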