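import Pool.Agent.H7.PM.A3

set_option autoImplicit false
open MeasureTheory Metric Filter
open scoped ComplexConjugate ENNReal Topology

/-! Multipliers of bounded variation. -/

namespace Pool.Agent.H7.PM

lemma cmul_cont {G : Tor → ℂ} (c : ℂ) (hG : Continuous G) : Continuous (fun z => c * G z) :=
  continuous_const.mul hG

lemma sum_cont {ι : Type*} (s : Finset ι) {G : ι → Tor → ℂ} (hG : ∀ i ∈ s, Continuous (G i)) :
    Continuous (fun z => ∑ i ∈ s, G i z) := continuous_finsetSum s hG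

/-- absolutely convergent Dirichlet series on the torus -/
noncomputable def DSer (a : ℕ → ℂ) (z : Tor) : ℂ := ∑' n, a n * stf n z

lemma summable_term {a : ℕ → ℂ} (ha : Summable fun n => ‖a n‖) (z : Tor) :
    Summable fun n => a n * stf n z := by
  refine Summable.of_norm ?_
  simpa [norm_mul, norm_stf] using ha

lemma continuous_DSer {a : ℕ → ℂ} (ha : Summable fun n => ‖a n‖) : Continuous (DSer a) := by
  refine continuous_tsum (fun n => continuous_const.mul (continuous_stf n)) ha fun n z => ?_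
  rw [norm_mul, norm_stf, mul_one]

lemma DPol_Icc (a : ℕ → ℂ) (ha0 : a 0 = 0) (M : ℕ) (z : Tor) :
    DPol (Finset.Icc 1 M) a z = ∑ n ∈ Finset.range (M + 1), a n * stf n z := by
  unfold DPol
  have e : Finset.range (M + 1) = insert 0 (Finset.Icc 1 M) := by
    ext x; simp only [Finset.mem_range, Finset.mem_insert, Finset.mem_Icc]; omega
  rw [e, Finset.sum_insert (by simp), ha0]
  simp

lemma nrm_DSer_tendsto {p : ℝ} (hp : 1 ≤ p) {a : ℕ → ℂ} (ha0 : a 0 = 0)
    (ha : Summable fun n => ‖a n‖) :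
    Tendsto (fun M : ℕ => nrm p (DPol (Finset.Icc 1 M) a)) atTop (𝓝 (nrm p (DSer a))) := by
  have hp0 : 0 < p := lt_of_lt_of_le one_pos hp
  rw [tendsto_iff_norm_sub_tendsto_zero]
  have h1 : Tendsto (fun M : ℕ => ∑' n, ‖a (n + (M + 1))‖) atTop (𝓝 0) :=
    (tendsto_sum_nat_add fun n => ‖a n‖).comp (tendsto_add_atTop_nat 1)
  refine squeeze_zero (fun _ => norm_nonneg _) (fun M => ?_) h1
  rw [Real.norm_eq_abs]
  refine (abs_nrm_sub_le hp (continuous_DPol _ _) (continuous_DSer ha)).trans ?_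
  refine nrm_le_const hp0 ((continuous_DPol _ _).sub (continuous_DSer ha)) fun z => ?_
  rw [Pi.sub_apply, DPol_Icc a ha0, norm_sub_rev]
  have h2 := (summable_term ha z).sum_add_tsum_nat_add (M + 1)
  have e : DSer a z - ∑ n ∈ Finset.range (M + 1), a n * stf n z =
      ∑' n, a (n + (M + 1)) * stf (n + (M + 1)) z := by
    unfold DSer
    rw [← h2]
    ring
  rw [e]
  refine tsum_of_norm_bounded ((summable_nat_add_iff (M + 1)).2 ha).hasSum fun n => ?_
  rw [norm_mul, norm_stf, mul_one]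

lemma proj (p : ℝ) (hp : 1 < p) : ∃ C : ℝ, 0 ≤ C ∧ ∀ (S : Finset ℕ), 0 ∉ S →
    ∀ (c : ℕ → ℂ) (N : ℕ),
    nrm p (DPol S (fun n => if n ≤ N then c n else 0)) ≤ C * nrm p (DPol S c) := by
  obtain ⟨C, hC, h⟩ := riesz p hp
  have hp0 : 0 < p := by linarith
  refine ⟨1 + C, by linarith, fun S hS c N => ?_⟩
  have e : DPol S (fun n => if n ≤ N then c n else 0) = fun z =>
      (1 / 2 : ℂ) * DPol S c z + (-(1 / 2) : ℂ) * DPol S (fun n => c n * if n ≤ N then -1 else 1) z := by
    funext z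
    unfold DPol
    rw [Finset.mul_sum, Finset.mul_sum, ← Finset.sum_add_distrib]
    refine Finset.sum_congr rfl fun n _ => ?_
    by_cases hn : n ≤ N
    · simp only [if_pos hn]; ring
    · simp only [if_neg hn]; ring
  rw [e]
  refine (nrm_add_le hp.le (cmul_cont _ (continuous_DPol _ _))
    (cmul_cont _ (continuous_DPol _ _))).trans ?_
  rw [nrm_const_mul hp0, nrm_const_mul hp0]
  have h1 := h S hS c N
  have h2 := nrm_nonneg p (DPol S c)
  have e1 : ‖(1 / 2 : ℂ)‖ = 1 / 2 := by simp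
  have e2 : ‖(-(1 / 2) : ℂ)‖ = 1 / 2 := by simp
  rw [e1, e2]
  nlinarith [mul_nonneg hC h2]

lemma abel_id (c : ℕ → ℂ) (M n : ℕ) (hn : n ≤ M) :
    c n = c M - ∑ N ∈ Finset.range M, (c (N + 1) - c N) * if n ≤ N then 1 else 0 := by
  induction M with
  | zero =>
    have : n = 0 := by omega
    subst this; simp
  | succ M ih =>
    rcases Nat.lt_or_ge M n with h | h
    · have : n = M + 1 := by omega
      subst this
      rw [Finset.sum_eq_zero]
      · simp
      · intro N hN
        rw [if_neg (by have := Finset.mem_range.1 hN; omega), mul_zero]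
    · rw [Finset.sum_range_succ, if_pos h]
      have := ih h
      linear_combination this

lemma mult_fin (p : ℝ) (hp : 1 < p) : ∃ C : ℝ, 0 ≤ C ∧ ∀ (a c : ℕ → ℂ) (B V : ℝ),
    (∀ n, ‖c n‖ ≤ B) → (∀ M, ∑ N ∈ Finset.range M, ‖c (N + 1) - c N‖ ≤ V) → ∀ M : ℕ,
    nrm p (DPol (Finset.Icc 1 M) (fun n => c n * a n)) ≤
      (B + C * V) * nrm p (DPol (Finset.Icc 1 M) a) := by
  obtain ⟨C, hC, h⟩ := proj p hp
  have hp0 : 0 < p := by linarith
  refine ⟨C, hC, fun a c B V hB hV M => ?_⟩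
  have e : DPol (Finset.Icc 1 M) (fun n => c n * a n) = fun z =>
      c M * DPol (Finset.Icc 1 M) a z + ∑ N ∈ Finset.range M,
      (-(c (N + 1) - c N)) * DPol (Finset.Icc 1 M) (fun n => if n ≤ N then a n else 0) z := by
    funext z
    unfold DPol
    simp_rw [Finset.mul_sum]
    rw [Finset.sum_comm, ← Finset.sum_add_distrib]
    refine Finset.sum_congr rfl fun n hn => ?_
    have h1 := abel_id c M n (Finset.mem_Icc.1 hn).2
    have h2 : ∑ N ∈ Finset.range M, -(c (N + 1) - c N) * ((if n ≤ N then a n else 0) * stf n z) =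
        -(∑ N ∈ Finset.range M, (c (N + 1) - c N) * if n ≤ N then 1 else 0) * (a n * stf n z) := by
      rw [← Finset.sum_neg_distrib, Finset.sum_mul]
      refine Finset.sum_congr rfl fun N _ => ?_
      split_ifs <;> ring
    rw [h2]
    linear_combination (a n * stf n z) * h1
  rw [e]
  have hP := nrm_nonneg p (DPol (Finset.Icc 1 M) a)
  refine (nrm_add_le hp.le (cmul_cont _ (continuous_DPol _ _))
    (sum_cont _ fun N _ => cmul_cont _ (continuous_DPol _ _))).trans ?_
  have h3 := nrm_sum_le hp.le (Finset.range M) (fun N z => (-(c (N + 1) - c N)) *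
    DPol (Finset.Icc 1 M) (fun n => if n ≤ N then a n else 0) z)
    (fun N _ => continuous_const.mul (continuous_DPol _ _))
  have h4 : ∑ N ∈ Finset.range M, nrm p (fun z => (-(c (N + 1) - c N)) *
      DPol (Finset.Icc 1 M) (fun n => if n ≤ N then a n else 0) z) ≤
      V * (C * nrm p (DPol (Finset.Icc 1 M) a)) := by
    calc _ ≤ ∑ N ∈ Finset.range M, ‖c (N + 1) - c N‖ * (C * nrm p (DPol (Finset.Icc 1 M) a)) := by
          refine Finset.sum_le_sum fun N _ => ?_
          rw [nrm_const_mul hp0, norm_neg]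
          exact mul_le_mul_of_nonneg_left (h _ (by simp) a N) (norm_nonneg _)
      _ = (∑ N ∈ Finset.range M, ‖c (N + 1) - c N‖) * (C * nrm p (DPol (Finset.Icc 1 M) a)) := by
          rw [Finset.sum_mul]
      _ ≤ _ := mul_le_mul_of_nonneg_right (hV M) (mul_nonneg hC hP)
  rw [nrm_const_mul hp0]
  have h5 : ‖c M‖ * nrm p (DPol (Finset.Icc 1 M) a) ≤ B * nrm p (DPol (Finset.Icc 1 M) a) :=
    mul_le_mul_of_nonneg_right (hB M) hP
  calc _ ≤ B * nrm p (DPol (Finset.Icc 1 M) a) + V * (C * nrm p (DPol (Finset.Icc 1 M) a)) := by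
        linarith
    _ = _ := by ring

/-- **multipliers of bounded variation** -/
theorem mult (p : ℝ) (hp : 1 < p) : ∃ C : ℝ, 0 ≤ C ∧ ∀ (a c : ℕ → ℂ) (B V : ℝ),
    a 0 = 0 → (Summable fun n => ‖a n‖) →
    (∀ n, ‖c n‖ ≤ B) → (∀ M, ∑ N ∈ Finset.range M, ‖c (N + 1) - c N‖ ≤ V) →
    (Summable fun n => ‖c n * a n‖) ∧
    nrm p (DSer (fun n => c n * a n)) ≤ (B + C * V) * nrm p (DSer a) := by
  obtain ⟨C, hC, h⟩ := mult_fin p hp
  refine ⟨C, hC, fun a c B V ha0 ha hB hV => ?_⟩
  have hs : Summable fun n => ‖c n * a n‖ := by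
    refine Summable.of_nonneg_of_le (fun _ => norm_nonneg _) (fun n => ?_) (ha.mul_left B)
    rw [norm_mul]
    exact mul_le_mul_of_nonneg_right (hB n) (norm_nonneg _)
  refine ⟨hs, ?_⟩
  have h1 := nrm_DSer_tendsto hp.le (a := fun n => c n * a n) (by simp [ha0]) hs
  have h2 := (nrm_DSer_tendsto hp.le ha0 ha).const_mul (B + C * V)
  exact le_of_tendsto_of_tendsto' h1 h2 fun M => h a c B V hB hV M

end Pool.Agent.H7.PM
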