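import Pool.Agent.H7.PM.A1

set_option autoImplicit false
open MeasureTheory Metric Filter
open scoped ComplexConjugate ENNReal Topology

/-! One prime: integrals over the circle. -/

namespace Pool.Agent.H7.PM

open Pool.Agent.Helper873.OneVar Pool.Agent.Helper873.Product

/-- Haar measure on the circle -/
noncomputable abbrev cir : Measure UnitAddCircle := AddCircle.haarAddCircle (T := 1)

lemma integrable_cir {E : Type*} [NormedAddCommGroup E] {f : UnitAddCircle → E}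
    (hf : Continuous f) : Integrable f cir :=
  hf.integrable_of_hasCompactSupport (HasCompactSupport.of_compactSpace f)

/-- integrable with given integral -/
def HI (f : UnitAddCircle → ℂ) (v : ℂ) : Prop := Integrable f cir ∧ ∫ t, f t ∂cir = v

lemma HI.add {f g : UnitAddCircle → ℂ} {v w : ℂ} (h1 : HI f v) (h2 : HI g w) :
    HI (fun t => f t + g t) (v + w) :=
  ⟨h1.1.add h2.1, by rw [integral_add h1.1 h2.1, h1.2, h2.2]⟩

lemma HI.sub {f g : UnitAddCircle → ℂ} {v w : ℂ} (h1 : HI f v) (h2 : HI g w) :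
    HI (fun t => f t - g t) (v - w) :=
  ⟨h1.1.sub h2.1, by rw [integral_sub h1.1 h2.1, h1.2, h2.2]⟩

lemma HI.cmul {f : UnitAddCircle → ℂ} {v : ℂ} (h1 : HI f v) (c : ℂ) :
    HI (fun t => c * f t) (c * v) :=
  ⟨h1.1.const_mul c, by rw [integral_const_mul, h1.2]⟩

lemma cont_zet_comp {f : ℂ → ℂ} (hf : DiffContOnCl ℂ f (ball 0 1)) :
    Continuous fun t : UnitAddCircle => f (zet t) := by
  have h1 := hf.continuousOn
  rw [closure_ball _ one_ne_zero] at h1
  exact h1.comp_continuous continuous_zet fun t => by simp [norm_zet]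

lemma mean_zet {f : ℂ → ℂ} (hf : DiffContOnCl ℂ f (ball 0 1)) :
    ∫ t, f (zet t) ∂cir = f 0 := by
  rw [integral_zet]
  exact DiffContOnCl.circleAverage (by simpa using hf)

lemma mean_zet_conj {f : ℂ → ℂ} (hf : DiffContOnCl ℂ f (ball 0 1)) :
    ∫ t, f (zet t) * conj (zet t) ∂cir = deriv f 0 := by
  have h0 := hf.deriv_eq_smul_circleIntegral one_pos
  have h00 : deriv f 0 = (2 * Real.pi * Complex.I : ℂ)⁻¹ •
      ∮ z in C(0, 1), (1 / (z - 0) ^ 2) • f z := by
    rw [h0, smul_smul, inv_mul_cancel₀ Complex.two_pi_I_ne_zero, one_smul]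
  rw [h00]
  have h1 := integral_zet (fun z => f z / z)
  rw [Real.circleAverage_eq_circleIntegral one_ne_zero] at h1
  have h2 : ∀ t : UnitAddCircle, f (zet t) * conj (zet t) = f (zet t) / zet t := by
    intro t
    have h3 : zet t ≠ 0 := by
      intro h
      have := norm_zet t
      rw [h] at this
      simp at this
    rw [div_eq_mul_inv, Complex.inv_def, Complex.normSq_eq_norm_sq, norm_zet]
    simp
  simp_rw [h2]
  rw [h1]
  congr 1
  refine circleIntegral.integral_congr zero_le_one fun z hz => ?_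
  have hz0 : z ≠ 0 := by
    rintro rfl
    simp at hz
  simp only [sub_zero, smul_eq_mul]
  field_simp

lemma two_fun {f g : ℂ → ℂ} (hf : DiffContOnCl ℂ f (ball 0 1)) (hg : DiffContOnCl ℂ g (ball 0 1))
    (A B : ℂ) (hf0 : f 0 = 1) (hg0 : g 0 = 1) (hfd : deriv f 0 = A) (hgd : deriv g 0 = B)
    (r s : ℝ) (hr : ∀ z, ‖z‖ = 1 → ‖f z - 1 - A * z‖ ≤ r)
    (hs : ∀ z, ‖z‖ = 1 → ‖g z - 1 - B * z‖ ≤ s) :
    ‖∫ t, f (zet t) * conj (g (zet t)) ∂cir - 1 - A * conj B‖ ≤ r * s := by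
  have cf := cont_zet_comp hf
  have cg := cont_zet_comp hg
  have cz := continuous_zet
  have ccg : Continuous fun t => conj (g (zet t)) := Complex.continuous_conj.comp cg
  have ccz : Continuous fun t => conj (zet t) := Complex.continuous_conj.comp cz
  have key : ∫ t, (f (zet t) - 1 - A * zet t) * conj (g (zet t) - 1 - B * zet t) ∂cir =
      ∫ t, f (zet t) * conj (g (zet t)) ∂cir - 1 - A * conj B := by
    have e : ∀ t, (f (zet t) - 1 - A * zet t) * conj (g (zet t) - 1 - B * zet t) =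
        f (zet t) * conj (g (zet t)) - f (zet t) - conj B * (f (zet t) * conj (zet t)) -
        conj (g (zet t)) - A * conj (g (zet t) * conj (zet t)) + (1 + A * conj B) +
        (conj B * conj (zet t) + A * zet t) := by
      intro t
      have h1 : zet t * conj (zet t) = 1 := by
        rw [Complex.mul_conj, Complex.normSq_eq_norm_sq, norm_zet]; simp
      simp only [map_sub, map_mul, map_one, Complex.conj_conj]
      linear_combination (A * conj B) * h1
    simp_rw [e]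
    have m1 := mean_zet hf
    have m2 := mean_zet hg
    have m3 := mean_zet_conj hf
    have m4 := mean_zet_conj hg
    have m5 : ∫ t, zet t ∂cir = 0 := by
      have := mean_zet (f := fun z => z) (differentiable_id.diffContOnCl)
      simpa using this
    have c2 : ∫ t, conj (g (zet t)) ∂cir = 1 := by
      rw [integral_conj, m2, hg0, map_one]
    have c4 : ∫ t, conj (g (zet t) * conj (zet t)) ∂cir = conj B := by
      rw [integral_conj, m4, hgd]
    have c5 : ∫ t, conj (zet t) ∂cir = 0 := by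
      rw [integral_conj, m5, map_zero]
    have cgz : Continuous fun t => conj (g (zet t) * conj (zet t)) :=
      Complex.continuous_conj.comp (cg.mul ccz)
    have i1 : HI (fun t => f (zet t) * conj (g (zet t))) _ := ⟨integrable_cir (cf.mul ccg), rfl⟩
    have i2 : HI (fun t => f (zet t)) (f 0) := ⟨integrable_cir cf, m1⟩
    have i3 : HI (fun t => f (zet t) * conj (zet t)) _ := ⟨integrable_cir (cf.mul ccz), m3⟩
    have i4 : HI (fun t => conj (g (zet t))) 1 := ⟨integrable_cir ccg, c2⟩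
    have i5 : HI (fun t => conj (g (zet t) * conj (zet t))) _ := ⟨integrable_cir cgz, c4⟩
    have i6 : HI (fun _ : UnitAddCircle => 1 + A * conj B) (1 + A * conj B) :=
      ⟨integrable_const _, by simp⟩
    have i7 : HI (fun t => conj (zet t)) 0 := ⟨integrable_cir ccz, c5⟩
    have i8 : HI (fun t => zet t) 0 := ⟨integrable_cir cz, m5⟩
    have h := ((((((i1.sub i2).sub (i3.cmul (conj B))).sub i4).sub (i5.cmul A)).add i6).add
      ((i7.cmul (conj B)).add (i8.cmul A))).2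
    rw [h, hf0, hfd]
    ring
  rw [← key]
  have h9 := norm_integral_le_of_norm_le_const (μ := cir) (C := r * s)
    (f := fun t => (f (zet t) - 1 - A * zet t) * conj (g (zet t) - 1 - B * zet t))
    (Eventually.of_forall fun t => by
      rw [norm_mul, Complex.norm_conj]
      have a1 := hr (zet t) (norm_zet t)
      have a2 := hs (zet t) (norm_zet t)
      exact mul_le_mul a1 a2 (norm_nonneg _) ((norm_nonneg _).trans a1))
  simpa using h9

/-- the local logarithm -/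
noncomputable def la (x z : ℂ) : ℂ := -Complex.log (1 - x * z)

lemma la_slit (x z : ℂ) (h : ‖x * z‖ < 1) : 1 - x * z ∈ Complex.slitPlane := by
  refine Or.inl ?_
  have h1 := (Complex.re_le_norm (x * z)).trans_lt h
  simp only [Complex.sub_re, Complex.one_re]
  linarith

lemma la_approx (x z : ℂ) (ρ : ℝ) (hρ : ρ ≤ 3 / 4) (hx : ‖x‖ ≤ ρ) (hz : ‖z‖ ≤ 1) :
    ‖la x z - x * z‖ ≤ 2 * ρ ^ 2 := by
  have h0 : 0 ≤ ‖x * z‖ := norm_nonneg _
  have h1 : ‖x * z‖ ≤ ρ := by
    rw [norm_mul]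
    calc ‖x‖ * ‖z‖ ≤ ‖x‖ * 1 := by gcongr
      _ ≤ ρ := by linarith
  have h2 : ‖x * z‖ < 1 := by linarith
  have h3 := Complex.norm_log_one_add_sub_self_le (z := -(x * z)) (by rwa [norm_neg])
  rw [norm_neg] at h3
  have h4 : ‖la x z - x * z‖ = ‖Complex.log (1 + -(x * z)) - -(x * z)‖ := by
    unfold la
    rw [← norm_neg]
    congr 1
    rw [← sub_eq_add_neg]
    ring
  rw [h4]
  refine h3.trans ?_
  have h5 : (1 - ‖x * z‖)⁻¹ ≤ 4 := by
    rw [inv_le_comm₀ (by linarith) (by norm_num)]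
    linarith
  have h6 : ‖x * z‖ ^ 2 ≤ ρ ^ 2 := by gcongr
  calc ‖x * z‖ ^ 2 * (1 - ‖x * z‖)⁻¹ / 2 ≤ ρ ^ 2 * 4 / 2 := by
        have : 0 ≤ (1 - ‖x * z‖)⁻¹ := by
          apply inv_nonneg.2; linarith
        gcongr
    _ = 2 * ρ ^ 2 := by ring

lemma la_norm (x z : ℂ) (ρ : ℝ) (hρ : ρ ≤ 3 / 4) (hx : ‖x‖ ≤ ρ) (hz : ‖z‖ ≤ 1) :
    ‖la x z‖ ≤ 3 * ρ := by
  have h0 : 0 ≤ ρ := (norm_nonneg _).trans hx
  have h1 := la_approx x z ρ hρ hx hz
  have h2 : ‖x * z‖ ≤ ρ := by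
    rw [norm_mul]
    calc ‖x‖ * ‖z‖ ≤ ‖x‖ * 1 := by gcongr
      _ ≤ ρ := by linarith
  have h3 : ‖la x z‖ ≤ ‖la x z - x * z‖ + ‖x * z‖ := by
    have := norm_add_le (la x z - x * z) (x * z)
    simpa using this
  nlinarith

variable {ι : Type*} [Fintype ι]

/-- combinations of local logarithms -/
noncomputable def LL (α x : ι → ℂ) (z : ℂ) : ℂ := ∑ i, α i * la (x i) z

lemma LL_norm (α x : ι → ℂ) (z : ℂ) (ρ : ℝ) (hρ : ρ ≤ 3 / 4) (hx : ∀ i, ‖x i‖ ≤ ρ)
    (hz : ‖z‖ ≤ 1) : ‖LL α x z‖ ≤ 3 * (∑ i, ‖α i‖) * ρ := by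
  unfold LL
  refine (norm_sum_le _ _).trans ?_
  rw [mul_assoc, mul_comm, mul_assoc, Finset.sum_mul]
  refine Finset.sum_le_sum fun i _ => ?_
  rw [norm_mul, mul_comm ρ 3]
  exact mul_le_mul_of_nonneg_left (la_norm _ _ ρ hρ (hx i) hz) (norm_nonneg _)

/-- the constant -/
noncomputable def cS (S : ℝ) : ℝ := 9 * S ^ 2 * Real.exp (3 * S) + 2 * S

lemma exp_LL (α x : ι → ℂ) (z : ℂ) (ρ : ℝ) (_hρ0 : 0 ≤ ρ) (hρ : ρ ≤ 3 / 4)
    (hx : ∀ i, ‖x i‖ ≤ ρ) (hz : ‖z‖ ≤ 1) :
    ‖Complex.exp (LL α x z) - 1 - (∑ i, α i * x i) * z‖ ≤ cS (∑ i, ‖α i‖) * ρ ^ 2 := by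
  set S := ∑ i, ‖α i‖ with hS
  have hS0 : 0 ≤ S := Finset.sum_nonneg fun i _ => norm_nonneg _
  have h1 : ‖LL α x z - (∑ i, α i * x i) * z‖ ≤ 2 * S * ρ ^ 2 := by
    unfold LL
    rw [Finset.sum_mul, ← Finset.sum_sub_distrib]
    refine (norm_sum_le _ _).trans ?_
    have e : 2 * S * ρ ^ 2 = ∑ i, ‖α i‖ * (2 * ρ ^ 2) := by
      rw [← Finset.sum_mul, ← hS]; ring
    rw [e]
    refine Finset.sum_le_sum fun i _ => ?_
    have e2 : α i * la (x i) z - α i * x i * z = α i * (la (x i) z - x i * z) := by ring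
    rw [e2, norm_mul]
    exact mul_le_mul_of_nonneg_left (la_approx _ _ ρ hρ (hx i) hz) (norm_nonneg _)
  have h2 := Complex.norm_exp_sub_sum_le_norm_mul_exp (LL α x z) 2
  have e3 : Complex.exp (LL α x z) - ∑ m ∈ Finset.range 2, LL α x z ^ m / (m.factorial : ℂ) =
      Complex.exp (LL α x z) - 1 - LL α x z := by
    simp [Finset.sum_range_succ]; ring
  rw [e3] at h2
  have h3 := LL_norm α x z ρ hρ hx hz
  rw [← hS] at h3
  have h4 : ‖LL α x z‖ ≤ 3 * S := by nlinarith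
  have h5 : ‖LL α x z‖ ^ 2 * Real.exp ‖LL α x z‖ ≤ (3 * S * ρ) ^ 2 * Real.exp (3 * S) := by
    gcongr
  have e4 : Complex.exp (LL α x z) - 1 - (∑ i, α i * x i) * z =
      (Complex.exp (LL α x z) - 1 - LL α x z) + (LL α x z - (∑ i, α i * x i) * z) := by ring
  rw [e4]
  refine (norm_add_le _ _).trans ?_
  unfold cS
  calc _ ≤ (3 * S * ρ) ^ 2 * Real.exp (3 * S) + 2 * S * ρ ^ 2 := add_le_add (h2.trans h5) h1
    _ = _ := by ring

lemma LL_diff (α x : ι → ℂ) (z : ℂ) (hx : ∀ i, ‖x i‖ ≤ 3 / 4) (hz : ‖z‖ ≤ 1) :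
    HasDerivAt (LL α x) (∑ i, α i * (x i / (1 - x i * z))) z := by
  unfold LL
  refine HasDerivAt.fun_sum fun i _ => ?_
  have h1 : ‖x i * z‖ < 1 := by
    rw [norm_mul]
    calc ‖x i‖ * ‖z‖ ≤ 3 / 4 * 1 := by have := hx i; gcongr
      _ < 1 := by norm_num
  have h2 : HasDerivAt (fun z => 1 - x i * z) (-x i) z := by
    have := ((hasDerivAt_id z).const_mul (x i)).const_sub 1
    simpa using this
  have h3 := (h2.clog (la_slit _ _ h1)).neg
  have h4 := h3.const_mul (α i)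
  refine h4.congr_deriv ?_
  ring

lemma exp_LL_dc (α x : ι → ℂ) (hx : ∀ i, ‖x i‖ ≤ 3 / 4) :
    DiffContOnCl ℂ (fun z => Complex.exp (LL α x z)) (ball 0 1) := by
  refine DifferentiableOn.diffContOnCl fun z hz => ?_
  rw [closure_ball _ one_ne_zero, mem_closedBall_zero_iff] at hz
  exact (LL_diff α x z hx hz).cexp.differentiableAt.differentiableWithinAt

lemma LL_zero (α x : ι → ℂ) : LL α x 0 = 0 := by
  unfold LL la
  simp

lemma exp_LL_deriv (α x : ι → ℂ) (hx : ∀ i, ‖x i‖ ≤ 3 / 4) :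
    deriv (fun z => Complex.exp (LL α x z)) 0 = ∑ i, α i * x i := by
  have h := (LL_diff α x 0 hx (by simp)).cexp.deriv
  rw [h, LL_zero]
  simp

/-- the local factor -/
noncomputable def E1 (α β x : ι → ℂ) : ℂ :=
  ∫ t, Complex.exp (LL α x (zet t) + conj (LL β x (zet t))) ∂cir

theorem E1_approx (α β x : ι → ℂ) (ρ : ℝ) (hρ0 : 0 ≤ ρ) (hρ : ρ ≤ 3 / 4)
    (hx : ∀ i, ‖x i‖ ≤ ρ) :
    ‖E1 α β x - 1 - (∑ i, α i * x i) * conj (∑ i, β i * x i)‖ ≤
      cS (∑ i, ‖α i‖) * cS (∑ i, ‖β i‖) * ρ ^ 4 := by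
  have hx' : ∀ i, ‖x i‖ ≤ 3 / 4 := fun i => (hx i).trans hρ
  have h := two_fun (exp_LL_dc α x hx') (exp_LL_dc β x hx') _ _ (by rw [LL_zero]; simp)
    (by rw [LL_zero]; simp) (exp_LL_deriv α x hx') (exp_LL_deriv β x hx')
    (cS (∑ i, ‖α i‖) * ρ ^ 2) (cS (∑ i, ‖β i‖) * ρ ^ 2)
    (fun z hz => exp_LL α x z ρ hρ0 hρ hx hz.le) (fun z hz => exp_LL β x z ρ hρ0 hρ hx hz.le)
  have e : E1 α β x = ∫ t, Complex.exp (LL α x (zet t)) * conj (Complex.exp (LL β x (zet t))) ∂cir := by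
    unfold E1
    refine integral_congr_ae (Eventually.of_forall fun t => ?_)
    simp only
    rw [Complex.exp_add, ← Complex.exp_conj]
  rw [e]
  refine h.trans (le_of_eq ?_)
  ring

end Pool.Agent.H7.PM
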