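import Pool.Agent.H7.PM.B1

set_option autoImplicit false
open MeasureTheory Metric Filter
open scoped ComplexConjugate ENNReal Topology

/-! Products over the primes. -/

namespace Pool.Agent.H7.PM

open Pool.Agent.Helper873.OneVar Pool.Agent.Helper873.Product Pool.Agent.Helper873.Embed

lemma integral_prod_range (H : ℕ → UnitAddCircle → ℂ) (hH : ∀ j, Continuous (H j)) (N : ℕ) :
    ∫ z, ∏ j ∈ Finset.range N, H j (z j) ∂tor = ∏ j ∈ Finset.range N, ∫ w, H j w ∂cir := by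
  induction N with
  | zero => simp
  | succ N ih =>
    have hc : Continuous fun z : Tor => ∏ j ∈ Finset.range (N + 1), H j (z j) :=
      continuous_finsetProd _ fun j _ => (hH j).comp (continuous_apply j)
    obtain ⟨B, _, hB⟩ := exists_bdd hc
    rw [integral_resample N _ hc B hB]
    have e : ∀ z : Tor, ∀ w : UnitAddCircle,
        ∏ j ∈ Finset.range (N + 1), H j (Function.update z N w j) =
        (∏ j ∈ Finset.range N, H j (z j)) * H N w := by
      intro z w
      rw [Finset.prod_range_succ, Function.update_self]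
      congr 1
      refine Finset.prod_congr rfl fun j hj => ?_
      rw [Function.update_of_ne (Finset.mem_range.1 hj).ne]
    simp_rw [e]
    have e2 : ∀ z : Tor,
        ∫ w, (∏ j ∈ Finset.range N, H j (z j)) * H N w ∂cir =
        (∏ j ∈ Finset.range N, H j (z j)) * ∫ w, H N w ∂cir :=
      fun z => integral_const_mul _ _
    simp_rw [e2]
    rw [integral_mul_const, ih, Finset.prod_range_succ]

/-- the point `p_j^{-(1/2+aδ)}` -/
noncomputable def xj (δ : ℝ) (a : ℂ) (j : ℕ) : ℂ :=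
  (Nat.nth Nat.Prime j : ℂ) ^ (-(1 / 2 + a * δ))

/-- logarithm of the truncated Euler product -/
noncomputable def lg (δ : ℝ) (K : ℕ) (a : ℂ) (z : Tor) : ℂ :=
  ∑ j ∈ Finset.range K, la (xj δ a j) (zet (z j))

variable {ι : Type*} [Fintype ι]

/-- joint moments -/
noncomputable def JM (δ : ℝ) (K : ℕ) (α β a : ι → ℂ) : ℂ :=
  ∫ z, Complex.exp (∑ i, α i * lg δ K (a i) z + conj (∑ i, β i * lg δ K (a i) z)) ∂tor

lemma norm_xj (δ : ℝ) (a : ℂ) (j : ℕ) :
    ‖xj δ a j‖ = (Nat.nth Nat.Prime j : ℝ) ^ (-(1 / 2 + a.re * δ)) := by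
  unfold xj
  have h := two_le_p j
  rw [← Complex.ofReal_natCast, Complex.norm_cpow_eq_rpow_re_of_pos (by linarith)]
  congr 1
  simp

lemma norm_xj_le (δ : ℝ) (hδ : 0 ≤ δ) (a : ℂ) (ha : 0 ≤ a.re) (j : ℕ) :
    ‖xj δ a j‖ ≤ (Nat.nth Nat.Prime j : ℝ) ^ (-(1 / 2) : ℝ) := by
  rw [norm_xj]
  have h := two_le_p j
  refine Real.rpow_le_rpow_of_exponent_le (by linarith) ?_
  nlinarith [mul_nonneg ha hδ]

lemma half_le (j : ℕ) : (Nat.nth Nat.Prime j : ℝ) ^ (-(1 / 2) : ℝ) ≤ 3 / 4 := by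
  have h := two_le_p j
  have h1 : (Nat.nth Nat.Prime j : ℝ) ^ (-(1 / 2) : ℝ) ≤ (2 : ℝ) ^ (-(1 / 2) : ℝ) :=
    Real.rpow_le_rpow_of_nonpos (by norm_num) h (by norm_num)
  refine h1.trans ?_
  rw [Real.rpow_neg (by norm_num), ← Real.sqrt_eq_rpow, inv_le_comm₀ (by positivity) (by norm_num)]
  apply Real.le_sqrt_of_sq_le
  norm_num

lemma continuous_la_zet (x : ℂ) (hx : ‖x‖ < 1) : Continuous fun t : UnitAddCircle => la x (zet t) := by
  unfold la
  refine (Continuous.clog (continuous_const.sub (continuous_const.mul continuous_zet))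
    fun t => ?_).neg
  exact la_slit _ _ (by rwa [norm_mul, norm_zet, mul_one])

lemma continuous_LL_zet (α x : ι → ℂ) (hx : ∀ i, ‖x i‖ < 1) :
    Continuous fun t : UnitAddCircle => LL α x (zet t) := by
  unfold LL
  exact continuous_finsetSum _ fun i _ => continuous_const.mul (continuous_la_zet _ (hx i))

lemma xj_lt (δ : ℝ) (hδ : 0 ≤ δ) (a : ℂ) (ha : 0 ≤ a.re) (j : ℕ) : ‖xj δ a j‖ < 1 := by
  have := norm_xj_le δ hδ a ha j
  have := half_le j
  linarith

lemma continuous_lg (δ : ℝ) (hδ : 0 ≤ δ) (K : ℕ) (a : ℂ) (ha : 0 ≤ a.re) :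
    Continuous (lg δ K a) :=
  continuous_finsetSum _ fun j _ =>
    (continuous_la_zet _ (xj_lt δ hδ a ha j)).comp (continuous_apply j)

theorem JM_prod (δ : ℝ) (hδ : 0 ≤ δ) (K : ℕ) (α β a : ι → ℂ) (ha : ∀ i, 0 ≤ (a i).re) :
    JM δ K α β a = ∏ j ∈ Finset.range K, E1 α β (fun i => xj δ (a i) j) := by
  unfold JM E1
  rw [← integral_prod_range (fun j t => Complex.exp (LL α (fun i => xj δ (a i) j) (zet t) +
      conj (LL β (fun i => xj δ (a i) j) (zet t))))]
  · refine integral_congr_ae (Eventually.of_forall fun z => ?_)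
    simp only
    rw [← Complex.exp_sum, Finset.sum_add_distrib]
    congr 2
    · unfold lg LL
      simp_rw [Finset.mul_sum]
      rw [Finset.sum_comm]
    · rw [← map_sum]
      congr 1
      unfold lg LL
      simp_rw [Finset.mul_sum]
      rw [Finset.sum_comm]
  · intro j
    have h1 := continuous_LL_zet α (fun i => xj δ (a i) j) fun i => xj_lt δ hδ (a i) (ha i) j
    have h2 := continuous_LL_zet β (fun i => xj δ (a i) j) fun i => xj_lt δ hδ (a i) (ha i) j
    exact (h1.add (Complex.continuous_conj.comp h2)).cexp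

/-- the normalised local factor -/
noncomputable def gg (α β x : ι → ℂ) : ℂ :=
  E1 α β x * Complex.exp (-∑ i, ∑ l, α i * conj (β l) * la (x i * conj (x l)) 1)

/-- the constant for the local factor -/
noncomputable def cG (S T : ℝ) : ℝ :=
  (S * T) ^ 2 + cS S * cS T * Real.exp (3 * (S * T)) + cS (S * T) * (1 + S * T)

lemma cS_nonneg {S : ℝ} (hS : 0 ≤ S) : 0 ≤ cS S := by unfold cS; positivity

theorem gg_bound (α β x : ι → ℂ) (ρ : ℝ) (hρ0 : 0 ≤ ρ) (hρ : ρ ≤ 3 / 4) (hx : ∀ i, ‖x i‖ ≤ ρ) :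
    ‖gg α β x - 1‖ ≤ cG (∑ i, ‖α i‖) (∑ i, ‖β i‖) * ρ ^ 4 := by
  set S := ∑ i, ‖α i‖ with hS
  set T := ∑ i, ‖β i‖ with hT
  have hS0 : 0 ≤ S := Finset.sum_nonneg fun i _ => norm_nonneg _
  have hT0 : 0 ≤ T := Finset.sum_nonneg fun i _ => norm_nonneg _
  have hρ2 : ρ ^ 2 ≤ 3 / 4 := by nlinarith
  have hρ1 : ρ ^ 2 ≤ 1 := by linarith
  set m : ℂ := (∑ i, α i * x i) * conj (∑ i, β i * x i) with hm
  have hm2 : m = ∑ i, ∑ l, α i * conj (β l) * (x i * conj (x l)) := by
    rw [hm, map_sum, Finset.sum_mul_sum]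
    refine Finset.sum_congr rfl fun i _ => Finset.sum_congr rfl fun l _ => ?_
    rw [map_mul]; ring
  set Λ : ℂ := ∑ i, ∑ l, α i * conj (β l) * la (x i * conj (x l)) 1 with hΛ
  have hy : ∀ i l, ‖x i * conj (x l)‖ ≤ ρ ^ 2 := by
    intro i l
    rw [norm_mul, Complex.norm_conj, sq]
    exact mul_le_mul (hx i) (hx l) (norm_nonneg _) hρ0
  have hdouble : ∀ c : ℝ, ∑ i, ∑ l, ‖α i‖ * ‖β l‖ * c = S * T * c := by
    intro c
    rw [hS, hT, Finset.sum_mul_sum, Finset.sum_mul]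
    refine Finset.sum_congr rfl fun i _ => ?_
    rw [Finset.sum_mul]
  have hmn : ‖m‖ ≤ S * T * ρ ^ 2 := by
    rw [hm2, ← hdouble]
    refine (norm_sum_le _ _).trans (Finset.sum_le_sum fun i _ => ?_)
    refine (norm_sum_le _ _).trans (Finset.sum_le_sum fun l _ => ?_)
    rw [norm_mul, norm_mul, Complex.norm_conj]
    exact mul_le_mul_of_nonneg_left (hy i l) (by positivity)
  have hΛm : ‖Λ - m‖ ≤ 2 * (S * T) * ρ ^ 4 := by
    have e : 2 * (S * T) * ρ ^ 4 = S * T * (2 * (ρ ^ 2) ^ 2) := by ring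
    rw [e, ← hdouble, hm2, hΛ, ← Finset.sum_sub_distrib]
    refine (norm_sum_le _ _).trans (Finset.sum_le_sum fun i _ => ?_)
    rw [← Finset.sum_sub_distrib]
    refine (norm_sum_le _ _).trans (Finset.sum_le_sum fun l _ => ?_)
    rw [← mul_sub, norm_mul, norm_mul, Complex.norm_conj]
    refine mul_le_mul_of_nonneg_left ?_ (by positivity)
    have := la_approx (x i * conj (x l)) 1 (ρ ^ 2) hρ2 (hy i l) (by simp)
    rwa [mul_one] at this
  have hΛn : ‖Λ‖ ≤ 3 * (S * T) * ρ ^ 2 := by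
    have e : 3 * (S * T) * ρ ^ 2 = S * T * (3 * ρ ^ 2) := by ring
    rw [e, ← hdouble, hΛ]
    refine (norm_sum_le _ _).trans (Finset.sum_le_sum fun i _ => ?_)
    refine (norm_sum_le _ _).trans (Finset.sum_le_sum fun l _ => ?_)
    rw [norm_mul, norm_mul, Complex.norm_conj]
    refine mul_le_mul_of_nonneg_left ?_ (by positivity)
    exact la_norm (x i * conj (x l)) 1 (ρ ^ 2) hρ2 (hy i l) (by simp)
  have hΛ3 : ‖Λ‖ ≤ 3 * (S * T) := by
    refine hΛn.trans ?_
    have : 0 ≤ 3 * (S * T) := by positivity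
    nlinarith
  -- E1
  set E := E1 α β x with hE
  have hE1 : ‖E - 1 - m‖ ≤ cS S * cS T * ρ ^ 4 := E1_approx α β x ρ hρ0 hρ hx
  -- D
  set D := Complex.exp (-Λ) with hD
  have hD1 : ‖D‖ ≤ Real.exp (3 * (S * T)) := by
    rw [hD, Complex.norm_exp]
    refine Real.exp_le_exp.2 ?_
    have := Complex.abs_re_le_norm Λ
    have := neg_abs_le Λ.re
    simp only [Complex.neg_re]
    linarith
  have hD2 : ‖D - 1 + m‖ ≤ cS (S * T) * ρ ^ 4 := by
    have h2 := Complex.norm_exp_sub_sum_le_norm_mul_exp (-Λ) 2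
    have e3 : Complex.exp (-Λ) - ∑ m ∈ Finset.range 2, (-Λ) ^ m / (m.factorial : ℂ) =
        D - 1 + Λ := by
      simp [Finset.sum_range_succ, hD]; ring
    rw [e3, norm_neg] at h2
    have h3 : ‖Λ‖ ^ 2 * Real.exp ‖Λ‖ ≤ (3 * (S * T) * ρ ^ 2) ^ 2 * Real.exp (3 * (S * T)) := by
      gcongr
    have e4 : D - 1 + m = (D - 1 + Λ) - (Λ - m) := by ring
    rw [e4]
    refine (norm_sub_le _ _).trans ?_
    unfold cS
    calc _ ≤ (3 * (S * T) * ρ ^ 2) ^ 2 * Real.exp (3 * (S * T)) + 2 * (S * T) * ρ ^ 4 :=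
          add_le_add (h2.trans h3) hΛm
      _ = _ := by ring
  have e5 : gg α β x - 1 = -(m ^ 2) + (E - 1 - m) * D + (D - 1 + m) * (1 + m) := by
    unfold gg
    rw [← hE, ← hΛ, ← hD]
    ring
  rw [e5]
  have h6 : ‖m ^ 2‖ ≤ (S * T) ^ 2 * ρ ^ 4 := by
    rw [norm_pow]
    calc ‖m‖ ^ 2 ≤ (S * T * ρ ^ 2) ^ 2 := by gcongr
      _ = _ := by ring
  have h7 : ‖(E - 1 - m) * D‖ ≤ cS S * cS T * ρ ^ 4 * Real.exp (3 * (S * T)) := by
    rw [norm_mul]
    exact mul_le_mul hE1 hD1 (norm_nonneg _)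
      (by have := cS_nonneg hS0; have := cS_nonneg hT0; positivity)
  have h8 : ‖1 + m‖ ≤ 1 + S * T := by
    refine (norm_add_le _ _).trans ?_
    rw [norm_one]
    have : S * T * ρ ^ 2 ≤ S * T * 1 := by
      have : 0 ≤ S * T := by positivity
      gcongr
    linarith
  have h9 : ‖(D - 1 + m) * (1 + m)‖ ≤ cS (S * T) * ρ ^ 4 * (1 + S * T) := by
    rw [norm_mul]
    exact mul_le_mul hD2 h8 (norm_nonneg _)
      (by have := cS_nonneg (mul_nonneg hS0 hT0); positivity)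
  refine (norm_add₃_le).trans ?_
  rw [norm_neg]
  unfold cG
  calc _ ≤ (S * T) ^ 2 * ρ ^ 4 + cS S * cS T * ρ ^ 4 * Real.exp (3 * (S * T)) +
        cS (S * T) * ρ ^ 4 * (1 + S * T) := by linarith
    _ = _ := by ring

lemma la_cont {x : ℕ → ℂ} {x0 z : ℂ} (hx : Tendsto x atTop (𝓝 x0)) (h0 : ‖x0 * z‖ < 1) :
    Tendsto (fun N => la (x N) z) atTop (𝓝 (la x0 z)) := by
  unfold la
  refine Tendsto.neg (Tendsto.clog ?_ (la_slit _ _ h0))
  exact (hx.mul_const z).const_sub 1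

lemma gg_tendsto (α β : ι → ℂ) (x : ℕ → ι → ℂ) (x0 : ι → ℂ) (hx : ∀ N i, ‖x N i‖ ≤ 3 / 4)
    (hx0 : ∀ i, ‖x0 i‖ ≤ 3 / 4) (h : ∀ i, Tendsto (fun N => x N i) atTop (𝓝 (x0 i))) :
    Tendsto (fun N => gg α β (x N)) atTop (𝓝 (gg α β x0)) := by
  unfold gg
  refine Tendsto.mul ?_ ?_
  · unfold E1
    have hLL : ∀ (γ : ι → ℂ) (t : UnitAddCircle), Tendsto (fun N => LL γ (x N) (zet t)) atTop
        (𝓝 (LL γ x0 (zet t))) := by
      intro γ t
      unfold LL
      refine tendsto_finsetSum _ fun i _ => Tendsto.const_mul _ (la_cont (h i) ?_)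
      rw [norm_mul, norm_zet, mul_one]
      linarith [hx0 i]
    refine tendsto_integral_of_dominated_convergence
      (fun _ => Real.exp (3 * (∑ i, ‖α i‖) * (3 / 4) + 3 * (∑ i, ‖β i‖) * (3 / 4))) ?_ ?_ ?_ ?_
    · intro N
      have h1 := continuous_LL_zet α (x N) fun i => by linarith [hx N i]
      have h2 := continuous_LL_zet β (x N) fun i => by linarith [hx N i]
      exact ((h1.add (Complex.continuous_conj.comp h2)).cexp).aestronglyMeasurable
    · exact integrable_const _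
    · intro N
      refine Eventually.of_forall fun t => ?_
      rw [Complex.norm_exp]
      refine Real.exp_le_exp.2 ?_
      have h1 := LL_norm α (x N) (zet t) (3 / 4) le_rfl (hx N) (norm_zet t).le
      have h2 := LL_norm β (x N) (zet t) (3 / 4) le_rfl (hx N) (norm_zet t).le
      have h3 := Complex.re_le_norm (LL α (x N) (zet t))
      have h4 := Complex.re_le_norm (LL β (x N) (zet t))
      simp only [Complex.add_re, Complex.conj_re]
      linarith
    · refine Eventually.of_forall fun t => ?_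
      refine (Complex.continuous_exp.tendsto _).comp ?_
      exact (hLL α t).add ((Complex.continuous_conj.tendsto _).comp (hLL β t))
  · refine (Complex.continuous_exp.tendsto _).comp ?_
    refine Tendsto.neg (tendsto_finsetSum _ fun i _ => tendsto_finsetSum _ fun l _ => ?_)
    refine Tendsto.const_mul _ (la_cont ((h i).mul
      ((Complex.continuous_conj.tendsto _).comp (h l))) ?_)
    rw [mul_one, norm_mul, Complex.norm_conj]
    have h1 := hx0 i
    have h2 := hx0 l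
    have h3 := norm_nonneg (x0 i)
    have h4 := norm_nonneg (x0 l)
    nlinarith

/-- the local factor at the point `1/2` -/
noncomputable def g0 (κ : ℝ) (j : ℕ) : ℂ :=
  gg (ι := Unit) (fun _ => (κ : ℂ)) (fun _ => (κ : ℂ)) (fun _ => xj 0 0 j)

lemma gg_const (α β : ι → ℂ) (κ : ℝ) (hα : ∑ i, α i = κ) (hβ : ∑ i, β i = κ) (x : ℂ) :
    gg α β (fun _ => x) = gg (ι := Unit) (fun _ => (κ : ℂ)) (fun _ => (κ : ℂ)) (fun _ => x) := by
  unfold gg E1
  have e1 : ∀ z, LL α (fun _ => x) z = LL (ι := Unit) (fun _ => (κ : ℂ)) (fun _ => x) z := by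
    intro z
    unfold LL
    rw [← Finset.sum_mul, hα]; simp
  have e2 : ∀ z, LL β (fun _ => x) z = LL (ι := Unit) (fun _ => (κ : ℂ)) (fun _ => x) z := by
    intro z
    unfold LL
    rw [← Finset.sum_mul, hβ]; simp
  simp_rw [e1, e2]
  congr 3
  have e3 : ∑ i, ∑ l, α i * conj (β l) * la (x * conj x) 1 =
      (∑ i, α i) * conj (∑ l, β l) * la (x * conj x) 1 := by
    rw [map_sum, Finset.sum_mul_sum, Finset.sum_mul]
    refine Finset.sum_congr rfl fun i _ => ?_
    rw [Finset.sum_mul]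
  rw [e3, hα, hβ]
  simp

end Pool.Agent.H7.PM
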