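import Pool.Agent.H7.PM.B2

set_option autoImplicit false
open MeasureTheory Metric Filter
open scoped ComplexConjugate ENNReal Topology

/-! The asymptotic formula for the joint moments. -/

namespace Pool.Agent.H7.PM

open Pool.Agent.Helper873.OneVar Pool.Agent.Helper873.Product Pool.Agent.Helper873.Embed

lemma prod_diff (a b : ℕ → ℂ) (u : ℕ → ℝ) (ha : ∀ j, ‖a j - 1‖ ≤ u j)
    (hb : ∀ j, ‖b j - 1‖ ≤ u j) (K : ℕ) :
    ‖∏ j ∈ Finset.range K, a j - ∏ j ∈ Finset.range K, b j‖ ≤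
      Real.exp (∑ j ∈ Finset.range K, u j) * ∑ j ∈ Finset.range K, ‖a j - b j‖ := by
  have h0 : ∀ j, 0 ≤ u j := fun j => (norm_nonneg _).trans (ha j)
  have hn : ∀ c : ℕ → ℂ, (∀ j, ‖c j - 1‖ ≤ u j) → ∀ j, ‖c j‖ ≤ Real.exp (u j) := by
    intro c hc j
    have h1 : ‖c j‖ ≤ ‖c j - 1‖ + 1 := by
      have := norm_add_le (c j - 1) 1
      simpa using this
    have h2 := Real.add_one_le_exp (u j)
    linarith [hc j]
  induction K with
  | zero => simp
  | succ K ih =>
    rw [Finset.prod_range_succ, Finset.prod_range_succ, Finset.sum_range_succ,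
      Finset.sum_range_succ, Real.exp_add]
    set A := ∏ j ∈ Finset.range K, a j
    set B := ∏ j ∈ Finset.range K, b j with hB
    have hBn : ‖B‖ ≤ Real.exp (∑ j ∈ Finset.range K, u j) := by
      rw [hB, norm_prod, Real.exp_sum]
      exact Finset.prod_le_prod (fun j _ => norm_nonneg _) fun j _ => hn b hb j
    have e : A * a K - B * b K = (A - B) * a K + B * (a K - b K) := by ring
    rw [e]
    refine (norm_add_le _ _).trans ?_
    rw [norm_mul, norm_mul]
    have h1 : ‖A - B‖ * ‖a K‖ ≤ (Real.exp (∑ j ∈ Finset.range K, u j) *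
        ∑ j ∈ Finset.range K, ‖a j - b j‖) * Real.exp (u K) :=
      mul_le_mul ih (hn a ha K) (norm_nonneg _) (by positivity)
    have h2 : ‖B‖ * ‖a K - b K‖ ≤ Real.exp (∑ j ∈ Finset.range K, u j) * ‖a K - b K‖ :=
      mul_le_mul_of_nonneg_right hBn (norm_nonneg _)
    have h3 : (1 : ℝ) ≤ Real.exp (u K) := Real.one_le_exp (h0 K)
    have h4 : Real.exp (∑ j ∈ Finset.range K, u j) * ‖a K - b K‖ ≤
        Real.exp (∑ j ∈ Finset.range K, u j) * Real.exp (u K) * ‖a K - b K‖ := by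
      have : 0 ≤ Real.exp (∑ j ∈ Finset.range K, u j) * ‖a K - b K‖ := by positivity
      nlinarith
    calc _ ≤ _ := add_le_add h1 (h2.trans h4)
      _ = _ := by ring

lemma tannery (a : ℕ → ℕ → ℂ) (b : ℕ → ℂ) (u : ℕ → ℝ) (hu : Summable u)
    (ha : ∀ N j, ‖a N j - 1‖ ≤ u j) (hab : ∀ j, Tendsto (fun N => a N j) atTop (𝓝 (b j)))
    (K : ℕ → ℕ) :
    Tendsto (fun N => ∏ j ∈ Finset.range (K N), a N j - ∏ j ∈ Finset.range (K N), b j) atTop
      (𝓝 0) := by
  have hb : ∀ j, ‖b j - 1‖ ≤ u j := fun j =>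
    le_of_tendsto ((hab j).sub_const 1).norm (Eventually.of_forall fun N => ha N j)
  have h0 : ∀ j, 0 ≤ u j := fun j => (norm_nonneg _).trans (hb j)
  have hd : ∀ N j, ‖a N j - b j‖ ≤ 2 * u j := by
    intro N j
    have e : a N j - b j = (a N j - 1) - (b j - 1) := by ring
    rw [e]
    refine (norm_sub_le _ _).trans ?_
    linarith [ha N j, hb j]
  have h1 : Tendsto (fun N => ∑' j, ‖a N j - b j‖) atTop (𝓝 (∑' _j : ℕ, (0 : ℝ))) := by
    refine tendsto_tsum_of_dominated_convergence (bound := fun j => 2 * u j) (hu.mul_left 2) ?_ ?_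
    · intro j
      have := ((hab j).sub_const (b j)).norm
      simpa using this
    · refine Eventually.of_forall fun N j => ?_
      rw [norm_norm]
      exact hd N j
  rw [tsum_zero] at h1
  have h2 := h1.const_mul (Real.exp (∑' j, u j))
  rw [mul_zero] at h2
  refine squeeze_zero_norm (fun N => ?_) h2
  refine (prod_diff (a N) b u (ha N) hb (K N)).trans ?_
  have hs : Summable fun j => ‖a N j - b j‖ :=
    Summable.of_nonneg_of_le (fun _ => norm_nonneg _) (hd N) (hu.mul_left 2)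
  have h3 : ∑ j ∈ Finset.range (K N), u j ≤ ∑' j, u j :=
    hu.sum_le_tsum _ fun j _ => h0 j
  have h4 : ∑ j ∈ Finset.range (K N), ‖a N j - b j‖ ≤ ∑' j, ‖a N j - b j‖ :=
    hs.sum_le_tsum _ fun j _ => norm_nonneg _
  gcongr

/-- the summable majorant -/
noncomputable def uu (C : ℝ) (j : ℕ) : ℝ := C * (((Nat.nth Nat.Prime j : ℝ) ^ (-(1 / 2) : ℝ)) ^ 4)

lemma rho4 (j : ℕ) : (((Nat.nth Nat.Prime j : ℝ) ^ (-(1 / 2) : ℝ)) ^ 4) =
    ((Nat.nth Nat.Prime j : ℝ) ^ 2)⁻¹ := by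
  have h := two_le_p j
  rw [← Real.rpow_natCast, ← Real.rpow_mul (by linarith), ← Real.rpow_natCast,
    ← Real.rpow_neg (by linarith)]
  congr 1
  norm_num

lemma summable_uu (C : ℝ) : Summable (uu C) := by
  unfold uu
  refine Summable.mul_left C ?_
  simp_rw [rho4]
  have h1 : Summable fun j : ℕ => (((j : ℝ) + 1) ^ 2)⁻¹ := by
    have := (summable_nat_add_iff 1).2 (Real.summable_nat_pow_inv.2 (by norm_num : 1 < 2))
    simpa using this
  refine Summable.of_nonneg_of_le (fun j => by positivity) (fun j => ?_) h1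
  have h2 : (j : ℝ) + 1 ≤ (Nat.nth Nat.Prime j : ℝ) := by
    have := Nat.add_two_le_nth_prime j
    exact_mod_cast (by omega : j + 1 ≤ Nat.nth Nat.Prime j)
  gcongr

/-- real form of the local factor at `1/2` -/
noncomputable def g0r (κ : ℝ) (j : ℕ) : ℝ :=
  (∫ t, Real.exp (2 * κ * (la (xj 0 0 j) (zet t)).re) ∂cir) *
    Real.exp (-(κ ^ 2 * (la (xj 0 0 j * conj (xj 0 0 j)) 1).re))

lemma xj_zero_lt (j : ℕ) : ‖xj 0 0 j‖ < 1 := xj_lt 0 le_rfl 0 (by simp) j

lemma g0r_pos (κ : ℝ) (j : ℕ) : 0 < g0r κ j := by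
  unfold g0r
  refine mul_pos ?_ (Real.exp_pos _)
  refine integral_exp_pos ?_
  refine integrable_cir (Real.continuous_exp.comp ?_)
  exact continuous_const.mul (Complex.continuous_re.comp (continuous_la_zet _ (xj_zero_lt j)))

lemma la_real (y : ℝ) (hy : y < 1) : la (y : ℂ) 1 = ((-Real.log (1 - y) : ℝ) : ℂ) := by
  unfold la
  rw [mul_one]
  have e : (1 - (y : ℂ)) = ((1 - y : ℝ) : ℂ) := by push_cast; rfl
  rw [e, ← Complex.ofReal_log (by linarith)]
  push_cast; rfl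

lemma g0_eq (κ : ℝ) (j : ℕ) : g0 κ j = (g0r κ j : ℂ) := by
  unfold g0 gg E1 g0r
  push_cast
  congr 1
  · have e0 : ((∫ t, Real.exp (2 * κ * (la (xj 0 0 j) (zet t)).re) ∂cir : ℝ) : ℂ) =
        ∫ t, ((Real.exp (2 * κ * (la (xj 0 0 j) (zet t)).re) : ℝ) : ℂ) ∂cir :=
      integral_ofReal.symm
    rw [e0]
    refine integral_congr_ae (Eventually.of_forall fun t => ?_)
    simp only
    have e : LL (ι := Unit) (fun _ => (κ : ℂ)) (fun _ => xj 0 0 j) (zet t) =
        κ * la (xj 0 0 j) (zet t) := by unfold LL; simp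
    rw [e, map_mul, Complex.conj_ofReal, ← mul_add, Complex.add_conj]
    rw [Complex.ofReal_exp]
    congr 1
    push_cast
    ring
  · congr 1
    simp only [Finset.univ_unique, Finset.sum_const, Finset.card_singleton, one_smul,
      Complex.conj_ofReal]
    have e2 : xj 0 0 j * conj (xj 0 0 j) = ((‖xj 0 0 j‖ ^ 2 : ℝ) : ℂ) := by
      rw [Complex.mul_conj, Complex.normSq_eq_norm_sq]
    have h3 : ‖xj 0 0 j‖ ^ 2 < 1 := by
      have h1 := xj_zero_lt j
      have h2 := norm_nonneg (xj 0 0 j)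
      nlinarith
    rw [e2, la_real _ h3, Complex.ofReal_re]
    push_cast
    ring

lemma g0_bound (κ : ℝ) (j : ℕ) : ‖g0 κ j - 1‖ ≤ uu (cG ‖(κ : ℂ)‖ ‖(κ : ℂ)‖) j := by
  have h := gg_bound (ι := Unit) (fun _ => (κ : ℂ)) (fun _ => (κ : ℂ)) (fun _ => xj 0 0 j)
    ((Nat.nth Nat.Prime j : ℝ) ^ (-(1 / 2) : ℝ)) (by positivity) (half_le j)
    (fun _ => norm_xj_le 0 le_rfl 0 (by simp) j)
  simpa [g0, uu] using h

lemma prod_g0 (κ : ℝ) : ∃ G : ℝ, 0 < G ∧
    Tendsto (fun K => ∏ j ∈ Finset.range K, g0 κ j) atTop (𝓝 (G : ℂ)) := by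
  have h1 : ∀ j, |g0r κ j - 1| ≤ uu (cG ‖(κ : ℂ)‖ ‖(κ : ℂ)‖) j := by
    intro j
    have h := g0_bound κ j
    rw [g0_eq] at h
    have e : ((g0r κ j : ℂ) - 1) = ((g0r κ j - 1 : ℝ) : ℂ) := by push_cast; rfl
    rwa [e, Complex.norm_real, Real.norm_eq_abs] at h
  have hs : Summable fun j => g0r κ j - 1 :=
    Summable.of_norm_bounded (summable_uu _) fun j => by rw [Real.norm_eq_abs]; exact h1 j
  have h2 := Real.summable_log_one_add_of_summable hs
  have h3 : ∀ j, 1 + (g0r κ j - 1) = g0r κ j := fun j => by ring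
  simp_rw [h3] at h2
  refine ⟨Real.exp (∑' j, Real.log (g0r κ j)), Real.exp_pos _, ?_⟩
  have h4 := (Real.continuous_exp.tendsto _).comp h2.hasSum.tendsto_sum_nat
  have h5 := (Complex.continuous_ofReal.tendsto _).comp h4
  refine h5.congr fun K => ?_
  simp only [Function.comp]
  rw [Real.exp_sum, Complex.ofReal_prod]
  refine Finset.prod_congr rfl fun j _ => ?_
  rw [Real.exp_log (g0r_pos κ j), g0_eq]

/-- sum over the primes -/
noncomputable def Lam (δ : ℝ) (K : ℕ) (c : ℂ) : ℂ :=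
  ∑ j ∈ Finset.range K, la ((Nat.nth Nat.Prime j : ℂ) ^ (-(1 + c * δ))) 1

lemma conj_cpow_nat (j : ℕ) (s : ℂ) :
    conj ((Nat.nth Nat.Prime j : ℂ) ^ s) = (Nat.nth Nat.Prime j : ℂ) ^ (conj s) := by
  have h := two_le_p j
  have h0 : (Nat.nth Nat.Prime j : ℂ) ≠ 0 := by
    have : (Nat.nth Nat.Prime j : ℝ) ≠ 0 := by linarith
    exact_mod_cast this
  rw [Complex.cpow_def_of_ne_zero h0, Complex.cpow_def_of_ne_zero h0, ← Complex.exp_conj,
    map_mul, ← Complex.ofReal_natCast, ← Complex.ofReal_log (by linarith), Complex.conj_ofReal]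

lemma xj_mul (δ : ℝ) (a b : ℂ) (j : ℕ) :
    xj δ a j * conj (xj δ b j) = (Nat.nth Nat.Prime j : ℂ) ^ (-(1 + (a + conj b) * δ)) := by
  have h := two_le_p j
  have h0 : (Nat.nth Nat.Prime j : ℂ) ≠ 0 := by
    have : (Nat.nth Nat.Prime j : ℝ) ≠ 0 := by linarith
    exact_mod_cast this
  unfold xj
  rw [conj_cpow_nat, ← Complex.cpow_add _ _ h0]
  congr 1
  simp only [map_neg, map_add, map_mul, map_div₀, map_one, Complex.conj_ofReal]
  have : conj (2 : ℂ) = 2 := Complex.conj_ofNat 2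
  rw [this]
  ring

theorem star (κ : ℝ) : ∃ G : ℝ, 0 < G ∧ ∀ (ι : Type) [Fintype ι] (α β a : ι → ℂ),
    ∑ i, α i = κ → ∑ i, β i = κ → (∀ i, 0 ≤ (a i).re) →
    ∀ (δ : ℕ → ℝ) (K : ℕ → ℕ), (∀ N, 0 ≤ δ N) → Tendsto δ atTop (𝓝 0) → Tendsto K atTop atTop →
    Tendsto (fun N => JM (δ N) (K N) α β a *
      Complex.exp (-∑ i, ∑ l, α i * conj (β l) * Lam (δ N) (K N) (a i + conj (a l)))) atTop
      (𝓝 (G : ℂ)) := by
  obtain ⟨G, hG, hlim⟩ := prod_g0 κ
  refine ⟨G, hG, fun ι _ α β a hα hβ ha δ K hδ hδ0 hK => ?_⟩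
  have h1 : ∀ N, JM (δ N) (K N) α β a *
      Complex.exp (-∑ i, ∑ l, α i * conj (β l) * Lam (δ N) (K N) (a i + conj (a l))) =
      ∏ j ∈ Finset.range (K N), gg α β (fun i => xj (δ N) (a i) j) := by
    intro N
    unfold gg
    rw [Finset.prod_mul_distrib, JM_prod (δ N) (hδ N) (K N) α β a ha, ← Complex.exp_sum]
    congr 2
    rw [Finset.sum_neg_distrib]
    congr 1
    unfold Lam
    simp_rw [Finset.mul_sum, xj_mul]
    have e1 : ∀ f : ι → ι → ℕ → ℂ, ∑ i, ∑ l, ∑ j ∈ Finset.range (K N), f i l j =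
        ∑ j ∈ Finset.range (K N), ∑ i, ∑ l, f i l j := by
      intro f
      rw [Finset.sum_comm]
      have e2 : ∀ l, ∑ i, ∑ j ∈ Finset.range (K N), f i l j =
          ∑ j ∈ Finset.range (K N), ∑ i, f i l j := fun l => Finset.sum_comm
      simp_rw [e2]
      rw [Finset.sum_comm]
      refine Finset.sum_congr rfl fun j _ => Finset.sum_comm
    exact e1 _
  simp_rw [h1]
  have hx0 : ∀ j, ‖xj 0 0 j‖ ≤ 3 / 4 := fun j =>
    (norm_xj_le 0 le_rfl 0 (by simp) j).trans (half_le j)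
  have h2 := tannery (fun N j => gg α β (fun i => xj (δ N) (a i) j)) (fun j => g0 κ j)
    (uu (cG (∑ i, ‖α i‖) (∑ i, ‖β i‖))) (summable_uu _)
    (fun N j => gg_bound α β _ _ (by positivity) (half_le j)
      fun i => norm_xj_le (δ N) (hδ N) (a i) (ha i) j)
    (fun j => by
      have h3 := gg_tendsto α β (fun N i => xj (δ N) (a i) j) (fun _ => xj 0 0 j)
        (fun N i => (norm_xj_le (δ N) (hδ N) (a i) (ha i) j).trans (half_le j))
        (fun _ => hx0 j) (fun i => by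
          unfold xj
          have hp := two_le_p j
          have h0 : (Nat.nth Nat.Prime j : ℂ) ≠ 0 := by
            have : (Nat.nth Nat.Prime j : ℝ) ≠ 0 := by linarith
            exact_mod_cast this
          refine Tendsto.const_cpow ?_ (Or.inl h0)
          refine (Tendsto.const_add _ ?_).neg
          have h4 : Tendsto (fun N => a i * (δ N : ℂ)) atTop (𝓝 (a i * ((0 : ℝ) : ℂ))) :=
            ((Complex.continuous_ofReal.tendsto 0).comp hδ0).const_mul (a i)
          simpa using h4)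
      have e : gg α β (fun _ => xj 0 0 j) = g0 κ j := gg_const α β κ hα hβ _
      rw [e] at h3
      exact h3) K
  have h3 := h2.add (hlim.comp hK)
  rw [zero_add] at h3
  refine h3.congr fun N => ?_
  simp only [Function.comp]
  ring

end Pool.Agent.H7.PM
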