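import Pool.Agent.H7.PM.B3

set_option autoImplicit false
open MeasureTheory Metric Filter
open scoped ComplexConjugate ENNReal Topology

/-! The sums over the primes and the zeta function. -/

namespace Pool.Agent.H7.PM

open Pool.Agent.Helper873.OneVar Pool.Agent.Helper873.Product Pool.Agent.Helper873.Embed

/-- the primes, enumerated -/
noncomputable def pe : ℕ ≃ Nat.Primes :=
  Equiv.ofBijective (fun j => (⟨Nat.nth Nat.Prime j, Nat.prime_nth_prime j⟩ : Nat.Primes)) <| by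
    constructor
    · intro i j h
      exact Nat.nth_injective Nat.infinite_setOfPred_prime (congrArg Subtype.val h)
    · intro p
      exact ⟨Nat.count Nat.Prime p.1, Subtype.ext (Nat.nth_count p.2)⟩

lemma pe_val (j : ℕ) : ((pe j : ℕ)) = Nat.nth Nat.Prime j := rfl

/-- the points of evaluation -/
noncomputable def yy (δ : ℝ) (c : ℂ) (j : ℕ) : ℂ := (Nat.nth Nat.Prime j : ℂ) ^ (-(1 + c * δ))

lemma norm_yy (δ : ℝ) (c : ℂ) (j : ℕ) :
    ‖yy δ c j‖ = (Nat.nth Nat.Prime j : ℝ) ^ (-(1 + c.re * δ)) := by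
  unfold yy
  have h := two_le_p j
  rw [← Complex.ofReal_natCast, Complex.norm_cpow_eq_rpow_re_of_pos (by linarith)]
  congr 1
  simp

/-- the majorant -/
noncomputable def mj (δ : ℝ) (j : ℕ) : ℝ := (Nat.nth Nat.Prime j : ℝ) ^ (-(1 + 2 * δ))

lemma mj_nonneg (δ : ℝ) (j : ℕ) : 0 ≤ mj δ j := by unfold mj; positivity

lemma summable_mj {δ : ℝ} (hδ : 0 < δ) : Summable (mj δ) := by
  have h1 : Summable fun j : ℕ => ((j + 1 : ℕ) : ℝ) ^ (-(1 + 2 * δ)) :=
    (summable_nat_add_iff 1).2 (Real.summable_nat_rpow.2 (by linarith))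
  refine Summable.of_nonneg_of_le (mj_nonneg δ) (fun j => ?_) h1
  unfold mj
  have h2 : ((j + 1 : ℕ) : ℝ) ≤ (Nat.nth Nat.Prime j : ℝ) := by
    have := Nat.add_two_le_nth_prime j
    exact_mod_cast (by omega : j + 1 ≤ Nat.nth Nat.Prime j)
  exact Real.rpow_le_rpow_of_nonpos (by positivity) h2 (by linarith)

lemma yy_le {δ : ℝ} (hδ : 0 ≤ δ) (c : ℂ) (hc : 2 ≤ c.re) (j : ℕ) : ‖yy δ c j‖ ≤ mj δ j := by
  rw [norm_yy]
  unfold mj
  have h := two_le_p j
  refine Real.rpow_le_rpow_of_exponent_le (by linarith) ?_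
  nlinarith

lemma mj_le {δ : ℝ} (hδ : 0 ≤ δ) (j : ℕ) : mj δ j ≤ 1 / 2 := by
  unfold mj
  have h := two_le_p j
  calc (Nat.nth Nat.Prime j : ℝ) ^ (-(1 + 2 * δ)) ≤ (Nat.nth Nat.Prime j : ℝ) ^ (-1 : ℝ) :=
        Real.rpow_le_rpow_of_exponent_le (by linarith) (by linarith)
    _ = (Nat.nth Nat.Prime j : ℝ)⁻¹ := Real.rpow_neg_one _
    _ ≤ (2 : ℝ)⁻¹ := inv_anti₀ (by norm_num) h
    _ = 1 / 2 := by norm_num

lemma la_yy_le {δ : ℝ} (hδ : 0 ≤ δ) (c : ℂ) (hc : 2 ≤ c.re) (j : ℕ) :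
    ‖la (yy δ c j) 1‖ ≤ 3 * mj δ j :=
  la_norm _ _ _ ((mj_le hδ j).trans (by norm_num)) (yy_le hδ c hc j) (by simp)

/-- the complete sum -/
noncomputable def LamI (δ : ℝ) (c : ℂ) : ℂ := ∑' j, la (yy δ c j) 1

lemma summable_la_yy {δ : ℝ} (hδ : 0 < δ) (c : ℂ) (hc : 2 ≤ c.re) :
    Summable fun j => la (yy δ c j) 1 :=
  Summable.of_norm_bounded ((summable_mj hδ).mul_left 3) (la_yy_le hδ.le c hc)

lemma exp_LamI {δ : ℝ} (hδ : 0 < δ) (c : ℂ) (hc : 2 ≤ c.re) :
    Complex.exp (LamI δ c) = riemannZeta (1 + c * δ) := by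
  have hs : 1 < (1 + c * δ : ℂ).re := by
    simp only [Complex.add_re, Complex.one_re, Complex.mul_re, Complex.ofReal_re,
      Complex.ofReal_im, mul_zero, sub_zero]
    nlinarith
  rw [← riemannZeta_eulerProduct_exp_log hs]
  congr 1
  rw [← pe.tsum_eq]
  unfold LamI la yy
  refine tsum_congr fun j => ?_
  rw [mul_one, pe_val]

/-- the tail -/
noncomputable def tl (δ : ℝ) (K : ℕ) : ℝ := ∑' j, mj δ (j + K)

lemma Lam_sub {δ : ℝ} (hδ : 0 < δ) (K : ℕ) (c : ℂ) (hc : 2 ≤ c.re) :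
    ‖LamI δ c - Lam δ K c‖ ≤ 3 * tl δ K := by
  have h1 := (summable_la_yy hδ c hc).sum_add_tsum_nat_add K
  have e : LamI δ c - Lam δ K c = ∑' j, la (yy δ c (j + K)) 1 := by
    unfold LamI Lam
    rw [← h1]
    unfold yy
    ring
  rw [e]
  have h2 : Summable fun j => mj δ (j + K) := (summable_nat_add_iff K).2 (summable_mj hδ)
  unfold tl
  rw [← tsum_mul_left]
  refine tsum_of_norm_bounded (h2.mul_left 3).hasSum fun j => ?_
  exact la_yy_le hδ.le c hc (j + K)

lemma tl_tendsto {δ : ℝ} (_hδ : 0 < δ) : Tendsto (tl δ) atTop (𝓝 0) := by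
  unfold tl
  exact tendsto_sum_nat_add (mj δ)

/-- the distance from the critical line -/
noncomputable def dl (N : ℕ) : ℝ := 1 / Real.log N

lemma dl_nonneg (N : ℕ) : 0 ≤ dl N := by
  unfold dl
  exact div_nonneg zero_le_one (Real.log_natCast_nonneg N)

lemma dl_pos {N : ℕ} (hN : 2 ≤ N) : 0 < dl N := by
  unfold dl
  exact one_div_pos.2 (Real.log_pos (by exact_mod_cast hN))

lemma dl_tendsto : Tendsto dl atTop (𝓝 0) := by
  unfold dl
  simp_rw [one_div]
  exact tendsto_inv_atTop_zero.comp (Real.tendsto_log_atTop.comp tendsto_natCast_atTop_atTop)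

lemma exists_K (N : ℕ) : ∃ K : ℕ, N ^ N ≤ K ∧ N ≤ K ∧ (2 ≤ N → tl (dl N) K ≤ dl N) := by
  by_cases h : 2 ≤ N
  · have h1 := (tl_tendsto (dl_pos h)).eventually (gt_mem_nhds (dl_pos h))
    obtain ⟨K, hK⟩ := (h1.and (eventually_ge_atTop (N ^ N + N))).exists
    exact ⟨K, by omega, by omega, fun _ => hK.1.le⟩
  · exact ⟨N ^ N + N, by omega, by omega, fun h2 => absurd h2 h⟩

/-- the number of primes -/
noncomputable def KK (N : ℕ) : ℕ := (exists_K N).choose

lemma KK_ge (N : ℕ) : N ^ N ≤ KK N := (exists_K N).choose_spec.1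
lemma KK_ge' (N : ℕ) : N ≤ KK N := (exists_K N).choose_spec.2.1
lemma KK_tl {N : ℕ} (hN : 2 ≤ N) : tl (dl N) (KK N) ≤ dl N := (exists_K N).choose_spec.2.2 hN

lemma KK_tendsto : Tendsto KK atTop atTop := tendsto_atTop_mono KK_ge' tendsto_id

lemma zeta_lim (c : ℂ) (hc : 0 < c.re) :
    Tendsto (fun N => (dl N : ℂ) * riemannZeta (1 + c * dl N)) atTop (𝓝 c⁻¹) := by
  have hc0 : c ≠ 0 := by rintro rfl; simp at hc
  have h1 := riemannZeta_residue_one
  have h2 : Tendsto (fun N : ℕ => (1 + c * (dl N : ℂ))) atTop (𝓝[≠] 1) := by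
    rw [tendsto_nhdsWithin_iff]
    constructor
    · have h3 : Tendsto (fun N : ℕ => (1 + c * (dl N : ℂ))) atTop (𝓝 (1 + c * ((0 : ℝ) : ℂ))) :=
        (((Complex.continuous_ofReal.tendsto 0).comp dl_tendsto).const_mul c).const_add 1
      simpa using h3
    · filter_upwards [eventually_ge_atTop 2] with N hN
      intro h
      have h4 : c * (dl N : ℂ) = 0 := by
        have h5 : (1 + c * (dl N : ℂ)) = 1 := h
        linear_combination h5
      rcases mul_eq_zero.1 h4 with h5 | h5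
      · exact hc0 h5
      · exact (dl_pos hN).ne' (by exact_mod_cast h5)
  have h3 := (h1.comp h2).const_mul c⁻¹
  rw [mul_one] at h3
  refine h3.congr fun N => ?_
  simp only [Function.comp]
  field_simp
  ring

/-- limit of the real part -/
lemma Lam_re_lim (c : ℂ) (hc : 2 ≤ c.re) :
    Tendsto (fun N => (Lam (dl N) (KK N) c).re + Real.log (dl N)) atTop
      (𝓝 (-Real.log ‖c‖)) := by
  have hc0 : c ≠ 0 := by rintro rfl; norm_num at hc
  have h1 := (zeta_lim c (by linarith)).norm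
  have h2 := h1.log (by simpa using hc0)
  rw [norm_inv, Real.log_inv] at h2
  have h3 : Tendsto (fun N => (Lam (dl N) (KK N) c).re - (LamI (dl N) c).re) atTop (𝓝 0) := by
    refine squeeze_zero_norm' (a := fun N => 3 * dl N) ?_ ?_
    · filter_upwards [eventually_ge_atTop 2] with N hN
      rw [← Complex.sub_re, Real.norm_eq_abs]
      refine (Complex.abs_re_le_norm _).trans ?_
      rw [norm_sub_rev]
      refine (Lam_sub (dl_pos hN) (KK N) c hc).trans ?_
      have := KK_tl hN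
      linarith
    · have := dl_tendsto.const_mul 3
      simpa using this
  have h4 := h3.add h2
  rw [zero_add] at h4
  refine h4.congr' ?_
  filter_upwards [eventually_ge_atTop 2] with N hN
  have h5 : ‖riemannZeta (1 + c * dl N)‖ = Real.exp (LamI (dl N) c).re := by
    rw [← exp_LamI (dl_pos hN) c hc, Complex.norm_exp]
  rw [norm_mul, Complex.norm_real, Real.norm_of_nonneg (dl_nonneg N), h5,
    Real.log_mul (dl_pos hN).ne' (Real.exp_ne_zero _), Real.log_exp]
  ring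

lemma Lam_im (δ : ℝ) (hδ : 0 ≤ δ) (K : ℕ) (c : ℝ) (hc : 0 ≤ c) : (Lam δ K (c : ℂ)).im = 0 := by
  unfold Lam
  rw [Complex.im_sum]
  refine Finset.sum_eq_zero fun j _ => ?_
  have h := two_le_p j
  have e : (Nat.nth Nat.Prime j : ℂ) ^ (-(1 + (c : ℂ) * δ)) =
      (((Nat.nth Nat.Prime j : ℝ) ^ (-(1 + c * δ)) : ℝ) : ℂ) := by
    rw [Complex.ofReal_cpow (by linarith)]
    push_cast
    rfl
  rw [e, la_real]
  · simp
  · exact Real.rpow_lt_one_of_one_lt_of_neg (by linarith) (by nlinarith [mul_nonneg hc hδ])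

/-- limit for real points -/
lemma Lam_lim (c : ℝ) (hc : 2 ≤ c) :
    Tendsto (fun N => Lam (dl N) (KK N) (c : ℂ) + Real.log (dl N)) atTop
      (𝓝 ((-Real.log c : ℝ) : ℂ)) := by
  have h1 := Lam_re_lim (c : ℂ) (by simpa using hc)
  rw [Complex.norm_real, Real.norm_of_nonneg (by linarith)] at h1
  have h2 := (Complex.continuous_ofReal.tendsto _).comp h1
  refine h2.congr fun N => ?_
  simp only [Function.comp]
  have h3 := Lam_im (dl N) (dl_nonneg N) (KK N) c (by linarith)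
  apply Complex.ext
  · simp
  · simp [h3]

end Pool.Agent.H7.PM
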