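import Pool.Agent.H7.PM.C1

set_option autoImplicit false
open MeasureTheory Metric Filter
open scoped ComplexConjugate ENNReal Topology

/-! Limits of the joint moments. -/

namespace Pool.Agent.H7.PM

open Pool.Agent.Helper873.OneVar Pool.Agent.Helper873.Product

/-- the constant of the Euler product -/
noncomputable def Gk (κ : ℝ) : ℝ := (star κ).choose

lemma Gk_pos (κ : ℝ) : 0 < Gk κ := (star κ).choose_spec.1

variable {ι : Type} [Fintype ι]

lemma Gk_spec (κ : ℝ) (α β a : ι → ℂ) (hα : ∑ i, α i = κ) (hβ : ∑ i, β i = κ)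
    (ha : ∀ i, 0 ≤ (a i).re) :
    Tendsto (fun N => JM (dl N) (KK N) α β a *
      Complex.exp (-∑ i, ∑ l, α i * conj (β l) * Lam (dl N) (KK N) (a i + conj (a l)))) atTop
      (𝓝 (Gk κ : ℂ)) :=
  (star κ).choose_spec.2 ι α β a hα hβ ha dl KK dl_nonneg dl_tendsto KK_tendsto

lemma sum_gam (κ : ℝ) (α β : ι → ℂ) (hα : ∑ i, α i = κ) (hβ : ∑ i, β i = κ) :
    ∑ i, ∑ l, α i * conj (β l) = ((κ ^ 2 : ℝ) : ℂ) := by
  rw [← Finset.sum_mul_sum, ← map_sum, hα, hβ, Complex.conj_ofReal]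
  push_cast
  ring

lemma dl_rpow {N : ℕ} (hN : 2 ≤ N) (c : ℝ) :
    (((dl N) ^ c : ℝ) : ℂ) = Complex.exp ((c : ℂ) * Real.log (dl N)) := by
  rw [Real.rpow_def_of_pos (dl_pos hN)]
  push_cast
  congr 1
  ring

/-- real points -/
theorem JM_real_lim (κ : ℝ) (α β : ι → ℂ) (a : ι → ℝ) (hα : ∑ i, α i = κ) (hβ : ∑ i, β i = κ)
    (ha : ∀ i, 1 ≤ a i) :
    Tendsto (fun N => JM (dl N) (KK N) α β (fun i => (a i : ℂ)) * (((dl N) ^ (κ ^ 2) : ℝ) : ℂ))
      atTop (𝓝 ((Gk κ : ℂ) *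
        Complex.exp (∑ i, ∑ l, α i * conj (β l) * ((-Real.log (a i + a l) : ℝ) : ℂ)))) := by
  have h1 := Gk_spec κ α β (fun i => (a i : ℂ)) hα hβ
    (fun i => by simp only [Complex.ofReal_re]; linarith [ha i])
  have h2 : Tendsto (fun N => ∑ i, ∑ l, α i * conj (β l) *
      (Lam (dl N) (KK N) (((a i + a l : ℝ)) : ℂ) + Real.log (dl N))) atTop
      (𝓝 (∑ i, ∑ l, α i * conj (β l) * ((-Real.log (a i + a l) : ℝ) : ℂ))) :=
    tendsto_finsetSum _ fun i _ => tendsto_finsetSum _ fun l _ =>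
      (Lam_lim (a i + a l) (by linarith [ha i, ha l])).const_mul _
  have h3 := h1.mul ((Complex.continuous_exp.tendsto _).comp h2)
  refine h3.congr' ?_
  filter_upwards [eventually_ge_atTop 2] with N hN
  simp only [Function.comp]
  rw [dl_rpow hN, mul_assoc, ← Complex.exp_add]
  congr 2
  simp only [Complex.conj_ofReal]
  have e : ∑ i, ∑ l, α i * conj (β l) * (Lam (dl N) (KK N) (((a i + a l : ℝ)) : ℂ) +
      Real.log (dl N)) = ∑ i, ∑ l, α i * conj (β l) * Lam (dl N) (KK N) ((a i : ℂ) + (a l : ℂ)) +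
      ((κ ^ 2 : ℝ) : ℂ) * Real.log (dl N) := by
    rw [← sum_gam κ α β hα hβ, Finset.sum_mul, ← Finset.sum_add_distrib]
    refine Finset.sum_congr rfl fun i _ => ?_
    rw [Finset.sum_mul, ← Finset.sum_add_distrib]
    refine Finset.sum_congr rfl fun l _ => ?_
    push_cast
    ring
  rw [e]
  ring

/-- moduli, arbitrary points -/
theorem JM_norm_lim (κ : ℝ) (α β : ι → ℝ) (a : ι → ℂ) (hα : ∑ i, α i = κ) (hβ : ∑ i, β i = κ)
    (ha : ∀ i, 1 ≤ (a i).re) :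
    Tendsto (fun N => ‖JM (dl N) (KK N) (fun i => (α i : ℂ)) (fun i => (β i : ℂ)) a‖ *
      (dl N) ^ (κ ^ 2)) atTop (𝓝 (Gk κ *
        Real.exp (∑ i, ∑ l, α i * β l * (-Real.log ‖a i + conj (a l)‖)))) := by
  have hα' : ∑ i, ((α i : ℝ) : ℂ) = κ := by rw [← hα]; push_cast; rfl
  have hβ' : ∑ i, ((β i : ℝ) : ℂ) = κ := by rw [← hβ]; push_cast; rfl
  have h1 := (Gk_spec κ (fun i => (α i : ℂ)) (fun i => (β i : ℂ)) a hα' hβ'
    (fun i => by linarith [ha i])).norm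
  rw [Complex.norm_real, Real.norm_of_nonneg (Gk_pos κ).le] at h1
  have h2 : Tendsto (fun N => ∑ i, ∑ l, α i * β l *
      ((Lam (dl N) (KK N) (a i + conj (a l))).re + Real.log (dl N))) atTop
      (𝓝 (∑ i, ∑ l, α i * β l * (-Real.log ‖a i + conj (a l)‖))) :=
    tendsto_finsetSum _ fun i _ => tendsto_finsetSum _ fun l _ =>
      (Lam_re_lim (a i + conj (a l)) (by
        simp only [Complex.add_re, Complex.conj_re]; linarith [ha i, ha l])).const_mul _
  have h3 := h1.mul ((Real.continuous_exp.tendsto _).comp h2)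
  refine h3.congr' ?_
  filter_upwards [eventually_ge_atTop 2] with N hN
  simp only [Function.comp]
  rw [norm_mul, Complex.norm_exp, mul_assoc, ← Real.exp_add,
    Real.rpow_def_of_pos (dl_pos hN)]
  congr 2
  have e1 : (-∑ i, ∑ l, (α i : ℂ) * conj ((β l : ℝ) : ℂ) *
      Lam (dl N) (KK N) (a i + conj (a l))).re =
      -∑ i, ∑ l, α i * β l * (Lam (dl N) (KK N) (a i + conj (a l))).re := by
    rw [Complex.neg_re, Complex.re_sum]
    congr 1
    refine Finset.sum_congr rfl fun i _ => ?_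
    rw [Complex.re_sum]
    refine Finset.sum_congr rfl fun l _ => ?_
    rw [Complex.conj_ofReal, ← Complex.ofReal_mul, Complex.re_ofReal_mul]
  rw [e1]
  have e2 : ∑ i, ∑ l, α i * β l = κ ^ 2 := by
    rw [← Finset.sum_mul_sum, hα, hβ, sq]
  have e : ∑ i, ∑ l, α i * β l * ((Lam (dl N) (KK N) (a i + conj (a l))).re +
      Real.log (dl N)) = ∑ i, ∑ l, α i * β l * (Lam (dl N) (KK N) (a i + conj (a l))).re +
      κ ^ 2 * Real.log (dl N) := by
    rw [← e2, Finset.sum_mul, ← Finset.sum_add_distrib]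
    refine Finset.sum_congr rfl fun i _ => ?_
    rw [Finset.sum_mul, ← Finset.sum_add_distrib]
    refine Finset.sum_congr rfl fun l _ => ?_
    ring
  rw [e]
  ring

/-- the Euler product -/
noncomputable def FF (N : ℕ) (a : ℂ) (z : Tor) : ℂ := Complex.exp (lg (dl N) (KK N) a z)

lemma continuous_FF (N : ℕ) (a : ℂ) (ha : 0 ≤ a.re) : Continuous (FF N a) :=
  Complex.continuous_exp.comp (continuous_lg _ (dl_nonneg N) _ _ ha)

lemma norm_FF_rpow (N : ℕ) (a : ℂ) (z : Tor) (c : ℝ) :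
    ‖FF N a z‖ ^ c = Real.exp (c * (lg (dl N) (KK N) a z).re) := by
  unfold FF
  rw [Complex.norm_exp, ← Real.exp_mul, mul_comm]

/-- products of moduli -/
lemma int_prod (N : ℕ) (α : ι → ℝ) (a : ι → ℂ) :
    ((∫ z, ∏ i, ‖FF N (a i) z‖ ^ (2 * α i) ∂tor : ℝ) : ℂ) =
      JM (dl N) (KK N) (fun i => (α i : ℂ)) (fun i => (α i : ℂ)) a := by
  unfold JM
  have e0 : ((∫ z, ∏ i, ‖FF N (a i) z‖ ^ (2 * α i) ∂tor : ℝ) : ℂ) =
      ∫ z, ((∏ i, ‖FF N (a i) z‖ ^ (2 * α i) : ℝ) : ℂ) ∂tor := integral_ofReal.symm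
  rw [e0]
  refine integral_congr_ae (Eventually.of_forall fun z => ?_)
  simp only
  simp_rw [norm_FF_rpow]
  rw [← Real.exp_sum, Complex.ofReal_exp]
  congr 1
  rw [Complex.add_conj, Complex.re_sum]
  push_cast
  rw [Finset.mul_sum]
  refine Finset.sum_congr rfl fun i _ => ?_
  rw [Complex.re_ofReal_mul]
  push_cast
  ring

lemma int_prod_nonneg (N : ℕ) (α : ι → ℝ) (a : ι → ℂ) :
    0 ≤ ∫ z, ∏ i, ‖FF N (a i) z‖ ^ (2 * α i) ∂tor :=
  integral_nonneg fun z => Finset.prod_nonneg fun i _ => by positivity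

lemma int_prod_lim (κ : ℝ) (α : ι → ℝ) (a : ι → ℂ) (hα : ∑ i, α i = κ)
    (ha : ∀ i, 1 ≤ (a i).re) :
    Tendsto (fun N => (∫ z, ∏ i, ‖FF N (a i) z‖ ^ (2 * α i) ∂tor) * (dl N) ^ (κ ^ 2)) atTop
      (𝓝 (Gk κ * Real.exp (∑ i, ∑ l, α i * α l * (-Real.log ‖a i + conj (a l)‖)))) := by
  refine (JM_norm_lim κ α α a hα hα ha).congr fun N => ?_
  rw [← int_prod, Complex.norm_real, Real.norm_of_nonneg (int_prod_nonneg N α a)]

/-- moment of the Euler product at the point `1` -/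
noncomputable def ZZ (k : ℝ) (N : ℕ) : ℝ := ∫ z, ‖FF N 1 z‖ ^ k ∂tor

lemma one_re : (0 : ℝ) ≤ (1 : ℂ).re := by simp

lemma ZZ_pos (k : ℝ) (N : ℕ) : 0 < ZZ k N := by
  unfold ZZ
  simp_rw [norm_FF_rpow]
  refine integral_exp_pos (integrable_tor' (Real.continuous_exp.comp ?_))
  exact continuous_const.mul (Complex.continuous_re.comp (continuous_lg _ (dl_nonneg N) _ _ one_re))

lemma ZZ_lim (k : ℝ) : Tendsto (fun N => ZZ k N * (dl N) ^ ((k / 2) ^ 2)) atTop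
    (𝓝 (Gk (k / 2) * Real.exp ((k / 2) ^ 2 * -Real.log 2))) := by
  have h := int_prod_lim (ι := Unit) (k / 2) (fun _ => k / 2) (fun _ => 1) (by simp) (by simp)
  have e : Gk (k / 2) * Real.exp (∑ _i : Unit, ∑ _l : Unit, k / 2 * (k / 2) *
      (-Real.log ‖(1 : ℂ) + conj (1 : ℂ)‖)) =
      Gk (k / 2) * Real.exp ((k / 2) ^ 2 * -Real.log 2) := by
    have : ‖(1 : ℂ) + conj (1 : ℂ)‖ = 2 := by
      rw [map_one]; norm_num
    rw [this]
    simp [sq]
  rw [e] at h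
  refine h.congr fun N => ?_
  unfold ZZ
  have e3 : 2 * (k / 2) = k := by ring
  simp [e3]

/-- bound for a product of moduli by the moment -/
lemma int_prod_ratio (κ : ℝ) (α : ι → ℝ) (a : ι → ℂ) (hα : ∑ i, α i = κ)
    (ha : ∀ i, 1 ≤ (a i).re) :
    Tendsto (fun N => (∫ z, ∏ i, ‖FF N (a i) z‖ ^ (2 * α i) ∂tor) / ZZ (2 * κ) N) atTop
      (𝓝 (Real.exp (∑ i, ∑ l, α i * α l * (-Real.log ‖a i + conj (a l)‖) +
        κ ^ 2 * Real.log 2))) := by
  have h1 := int_prod_lim κ α a hα ha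
  have h2 := ZZ_lim (2 * κ)
  have e : 2 * κ / 2 = κ := by ring
  rw [e] at h2
  have hG := Gk_pos κ
  have h3 := h1.div h2 (by positivity)
  have e2 : Gk κ * Real.exp (∑ i, ∑ l, α i * α l * (-Real.log ‖a i + conj (a l)‖)) /
      (Gk κ * Real.exp (κ ^ 2 * -Real.log 2)) =
      Real.exp (∑ i, ∑ l, α i * α l * (-Real.log ‖a i + conj (a l)‖) +
        κ ^ 2 * Real.log 2) := by
    rw [mul_div_mul_left _ _ hG.ne', ← Real.exp_sub]
    congr 1
    ring
  rw [e2] at h3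
  refine h3.congr' ?_
  filter_upwards [eventually_ge_atTop 2] with N hN
  simp only [Pi.div_apply]
  have : 0 < dl N ^ (κ ^ 2) := Real.rpow_pos_of_pos (dl_pos hN) _
  rw [mul_div_mul_right _ _ this.ne']

end Pool.Agent.H7.PM
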