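import Mathlib

set_option autoImplicit false
open MeasureTheory Metric Filter
open scoped ComplexConjugate ENNReal Topology BoundedContinuousFunction

/-! Convergence in law. -/

namespace Pool.Agent.H7.PM

theorem levy {E : Type*} [NormedAddCommGroup E] [InnerProductSpace ℝ E] [FiniteDimensional ℝ E]
    [MeasurableSpace E] [BorelSpace E] (μ : ℕ → ProbabilityMeasure E) (f : E → ℂ)
    (hf : ContinuousAt f 0)
    (h : ∀ t, Tendsto (fun n => charFun (μ n : Measure E) t) atTop (𝓝 (f t))) :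
    ∃ μ₀ : ProbabilityMeasure E, Tendsto μ atTop (𝓝 μ₀) := by
  have ht : IsTightMeasureSet (Set.range fun n => (μ n : Measure E)) :=
    isTightMeasureSet_of_tendsto_charFun hf h
  have ht' : IsTightMeasureSet {((ν : ProbabilityMeasure E) : Measure E) | ν ∈ Set.range μ} := by
    convert ht using 1
    ext m
    constructor
    · rintro ⟨ν, ⟨n, rfl⟩, rfl⟩; exact ⟨n, rfl⟩
    · rintro ⟨n, rfl⟩; exact ⟨μ n, ⟨n, rfl⟩, rfl⟩
  have hc := isCompact_closure_of_isTightMeasureSet ht'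
  obtain ⟨μ₀, _, hμ₀⟩ := hc.exists_mapClusterPt (f := atTop) (u := μ)
    (by
      rw [Filter.le_principal_iff]
      exact Filter.mem_map.2 (Eventually.of_forall fun n => subset_closure ⟨n, rfl⟩))
  refine ⟨μ₀, ?_⟩
  obtain ⟨U, hU, hUt⟩ := mapClusterPt_iff_ultrafilter.1 hμ₀
  refine ProbabilityMeasure.tendsto_of_tendsto_charFun fun t => ?_
  have h1 : Tendsto (fun n => charFun (μ n : Measure E) t) U (𝓝 (charFun (μ₀ : Measure E) t)) := by
    have h2 := (ProbabilityMeasure.tendsto_iff_forall_integral_rclike_tendsto ℂ).1 hUt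
    simp_rw [charFun_eq_integral_innerProbChar]
    exact h2 (BoundedContinuousFunction.innerProbChar t)
  have h3 := tendsto_nhds_unique h1 ((h t).mono_left hU)
  rw [h3]
  exact h t

theorem conv_of_approx (A : ℕ → ℝ) (h : ∀ ε : ℝ, 0 < ε → ∃ B : ℕ → ℝ,
    (∃ l, Tendsto B atTop (𝓝 l)) ∧ ∀ᶠ N in atTop, |A N - B N| ≤ ε) :
    ∃ l, Tendsto A atTop (𝓝 l) := by
  refine cauchySeq_tendsto_of_complete (Metric.cauchySeq_iff'.2 fun ε hε => ?_)
  obtain ⟨B, ⟨l, hl⟩, hB⟩ := h (ε / 8) (by positivity)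
  have h1 := Metric.tendsto_atTop.1 hl (ε / 8) (by positivity)
  obtain ⟨N1, hN1⟩ := h1
  obtain ⟨N2, hN2⟩ := eventually_atTop.1 hB
  refine ⟨max N1 N2, fun n hn => ?_⟩
  have a1 := hN1 n ((le_max_left _ _).trans hn)
  have a2 := hN1 (max N1 N2) (le_max_left _ _)
  have a3 := hN2 n ((le_max_right _ _).trans hn)
  have a4 := hN2 (max N1 N2) (le_max_right _ _)
  rw [Real.dist_eq] at *
  rw [abs_lt] at *
  rw [abs_le] at *
  constructor <;> linarith [a1.1, a1.2, a2.1, a2.2, a3.1, a3.2, a4.1, a4.2]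

end Pool.Agent.H7.PM
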