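import Pool.Agent.H7.PM.D1
import Pool.Agent.H7.PM.D2

set_option autoImplicit false
open MeasureTheory Metric Filter
open scoped ComplexConjugate ENNReal Topology RealInnerProductSpace

/-! The tilted laws. -/

namespace Pool.Agent.H7.PM

open Pool.Agent.Helper873.OneVar Pool.Agent.Helper873.Product

/-- the tilted measure -/
noncomputable def Qm (k : ℝ) (N : ℕ) : Measure Tor :=
  tor.tilted fun z => k * (lg (dl N) (KK N) 1 z).re

lemma cont_lg1 (N : ℕ) : Continuous fun z : Tor => (lg (dl N) (KK N) 1 z).re :=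
  Complex.continuous_re.comp (continuous_lg _ (dl_nonneg N) _ _ one_re)

lemma integrable_exp_lg (k : ℝ) (N : ℕ) :
    Integrable (fun z => Real.exp (k * (lg (dl N) (KK N) 1 z).re)) tor :=
  integrable_tor' (Real.continuous_exp.comp (continuous_const.mul (cont_lg1 N)))

instance (k : ℝ) (N : ℕ) : IsProbabilityMeasure (Qm k N) :=
  isProbabilityMeasure_tilted (integrable_exp_lg k N)

lemma ZZ_eq (k : ℝ) (N : ℕ) : ZZ k N = ∫ z, Real.exp (k * (lg (dl N) (KK N) 1 z).re) ∂tor := by
  unfold ZZ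
  simp_rw [norm_FF_rpow]

lemma intQ_real (k : ℝ) (N : ℕ) (g : Tor → ℝ) :
    ∫ z, g z ∂(Qm k N) = (∫ z, ‖FF N 1 z‖ ^ k * g z ∂tor) / ZZ k N := by
  unfold Qm
  rw [integral_tilted, ← ZZ_eq]
  simp_rw [norm_FF_rpow, smul_eq_mul, div_mul_eq_mul_div]
  rw [integral_div]

lemma intQ_complex (k : ℝ) (N : ℕ) (g : Tor → ℂ) :
    ∫ z, g z ∂(Qm k N) = (∫ z, ((‖FF N 1 z‖ ^ k : ℝ) : ℂ) * g z ∂tor) / (ZZ k N : ℂ) := by
  unfold Qm
  rw [integral_tilted, ← ZZ_eq, ← integral_div]
  refine integral_congr_ae (Eventually.of_forall fun z => ?_)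
  simp only [norm_FF_rpow, Complex.real_smul]
  push_cast
  ring

/-- the real points `1, 2, …` -/
noncomputable def pt (d : ℕ) (j : Fin (d + 1)) : ℝ := 1 + (j : ℕ)

lemma pt_ge (d : ℕ) (j : Fin (d + 1)) : 1 ≤ pt d j := by unfold pt; simp

lemma pt_zero (d : ℕ) : pt d 0 = 1 := by unfold pt; simp

/-- logarithm of the ratios -/
noncomputable def wl (d N : ℕ) (j : Fin (d + 1)) (z : Tor) : ℂ :=
  lg (dl N) (KK N) (pt d j : ℂ) z - lg (dl N) (KK N) 1 z

lemma continuous_wl (d N : ℕ) (j : Fin (d + 1)) : Continuous (wl d N j) :=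
  (continuous_lg _ (dl_nonneg N) _ _ (by
    rw [Complex.ofReal_re]; linarith [pt_ge d j])).sub
    (continuous_lg _ (dl_nonneg N) _ _ one_re)

/-- the space of the laws -/
abbrev VE (d : ℕ) := EuclideanSpace ℝ (Fin (d + 1) × Bool)

/-- the vector of the logarithms -/
noncomputable def vl (d N : ℕ) (z : Tor) : VE d :=
  WithLp.toLp 2 fun i => if i.2 then (wl d N i.1 z).re else (wl d N i.1 z).im

lemma continuous_vl (d N : ℕ) : Continuous (vl d N) := by
  unfold vl
  refine (PiLp.continuous_toLp 2 _).comp (continuous_pi fun i => ?_)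
  split_ifs
  · exact Complex.continuous_re.comp (continuous_wl d N i.1)
  · exact Complex.continuous_im.comp (continuous_wl d N i.1)

/-- complex form of the dual variable -/
noncomputable def tau (d : ℕ) (t : VE d) (j : Fin (d + 1)) : ℂ :=
  (t (j, true) : ℂ) - (t (j, false) : ℂ) * Complex.I

lemma inner_vl (d N : ℕ) (z : Tor) (t : VE d) :
    ⟪vl d N z, t⟫ = (∑ j, tau d t j * wl d N j z).re := by
  rw [PiLp.inner_apply, Fintype.sum_prod_type, Complex.re_sum]
  refine Finset.sum_congr rfl fun j _ => ?_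
  rw [Fintype.sum_bool]
  unfold vl tau
  simp

/-- exponents -/
noncomputable def al (κ : ℝ) (d : ℕ) (t : VE d) (j : Fin (d + 1)) : ℂ :=
  Complex.I / 2 * tau d t j + if j = 0 then (κ : ℂ) - Complex.I / 2 * ∑ i, tau d t i else 0

/-- exponents -/
noncomputable def be (κ : ℝ) (d : ℕ) (t : VE d) (j : Fin (d + 1)) : ℂ :=
  -(Complex.I / 2) * tau d t j + if j = 0 then (κ : ℂ) + Complex.I / 2 * ∑ i, tau d t i else 0

lemma sum_al (κ : ℝ) (d : ℕ) (t : VE d) : ∑ j, al κ d t j = κ := by
  unfold al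
  rw [Finset.sum_add_distrib, Finset.sum_ite_eq' Finset.univ (0 : Fin (d + 1)),
    if_pos (Finset.mem_univ _), ← Finset.mul_sum]
  ring

lemma sum_be (κ : ℝ) (d : ℕ) (t : VE d) : ∑ j, be κ d t j = κ := by
  unfold be
  rw [Finset.sum_add_distrib, Finset.sum_ite_eq' Finset.univ (0 : Fin (d + 1)),
    if_pos (Finset.mem_univ _), ← Finset.mul_sum]
  ring

lemma exp_vl (k : ℝ) (d N : ℕ) (z : Tor) (t : VE d) :
    ((‖FF N 1 z‖ ^ k : ℝ) : ℂ) * Complex.exp ((⟪vl d N z, t⟫ : ℝ) * Complex.I) =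
      Complex.exp (∑ j, al (k / 2) d t j * lg (dl N) (KK N) (pt d j : ℂ) z +
        conj (∑ j, be (k / 2) d t j * lg (dl N) (KK N) (pt d j : ℂ) z)) := by
  rw [norm_FF_rpow, inner_vl, Complex.ofReal_exp, ← Complex.exp_add]
  congr 1
  have h0 : lg (dl N) (KK N) (pt d 0 : ℂ) z = lg (dl N) (KK N) 1 z := by
    rw [pt_zero]; simp
  set L0 := lg (dl N) (KK N) 1 z with hL0
  have hw : ∑ j, tau d t j * wl d N j z =
      ∑ j, tau d t j * lg (dl N) (KK N) (pt d j : ℂ) z - (∑ j, tau d t j) * L0 := by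
    unfold wl
    rw [Finset.sum_mul, ← Finset.sum_sub_distrib]
    refine Finset.sum_congr rfl fun j _ => ?_
    rw [← hL0]; ring
  have ha : ∑ j, al (k / 2) d t j * lg (dl N) (KK N) (pt d j : ℂ) z =
      ((k / 2 : ℝ) : ℂ) * L0 + Complex.I / 2 * ∑ j, tau d t j * wl d N j z := by
    rw [hw]
    unfold al
    simp_rw [add_mul, ite_mul, zero_mul]
    rw [Finset.sum_add_distrib, Finset.sum_ite_eq' Finset.univ (0 : Fin (d + 1)),
      if_pos (Finset.mem_univ _), h0]
    simp_rw [mul_assoc]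
    rw [← Finset.mul_sum]
    ring
  have hb : ∑ j, be (k / 2) d t j * lg (dl N) (KK N) (pt d j : ℂ) z =
      ((k / 2 : ℝ) : ℂ) * L0 - Complex.I / 2 * ∑ j, tau d t j * wl d N j z := by
    rw [hw]
    unfold be
    simp_rw [add_mul, ite_mul, zero_mul]
    rw [Finset.sum_add_distrib, Finset.sum_ite_eq' Finset.univ (0 : Fin (d + 1)),
      if_pos (Finset.mem_univ _), h0]
    simp_rw [mul_assoc]
    rw [← Finset.mul_sum]
    ring
  rw [ha, hb]
  set W := ∑ j, tau d t j * wl d N j z
  have e1 : ((L0.re : ℝ) : ℂ) = (L0 + conj L0) / 2 := by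
    rw [Complex.add_conj]; push_cast; ring
  have e2 : ((W.re : ℝ) : ℂ) = (W + conj W) / 2 := by
    rw [Complex.add_conj]; push_cast; ring
  have e3 : conj (Complex.I) = -Complex.I := Complex.conj_I
  have e4 : conj (2 : ℂ) = 2 := Complex.conj_ofNat 2
  rw [map_sub, map_mul, map_mul, map_div₀, Complex.conj_ofReal, e3, e4]
  push_cast
  rw [e1, e2]
  ring

/-- the laws -/
noncomputable def law (k : ℝ) (d N : ℕ) : ProbabilityMeasure (VE d) :=
  ⟨(Qm k N).map (vl d N), Measure.isProbabilityMeasure_map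
    (continuous_vl d N).measurable.aemeasurable⟩

lemma charFun_law (k : ℝ) (d N : ℕ) (t : VE d) :
    charFun (law k d N : Measure (VE d)) t =
      JM (dl N) (KK N) (al (k / 2) d t) (be (k / 2) d t) (fun j => (pt d j : ℂ)) / (ZZ k N : ℂ) := by
  rw [charFun_apply]
  change ∫ x, Complex.exp ((⟪x, t⟫ : ℝ) * Complex.I) ∂((Qm k N).map (vl d N)) = _
  rw [integral_map (continuous_vl d N).measurable.aemeasurable
    (Continuous.aestronglyMeasurable (by fun_prop)), intQ_complex]
  simp_rw [exp_vl]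
  rfl

theorem law_conv (k : ℝ) (d : ℕ) : ∃ μ₀ : ProbabilityMeasure (VE d),
    Tendsto (law k d) atTop (𝓝 μ₀) := by
  refine levy (law k d) (fun t => Complex.exp (∑ i, ∑ l, al (k / 2) d t i *
    conj (be (k / 2) d t l) * ((-Real.log (pt d i + pt d l) : ℝ) : ℂ) +
      (((k / 2) ^ 2 * Real.log 2 : ℝ) : ℂ))) ?_ ?_
  · refine Continuous.continuousAt ?_
    have ht : ∀ j, Continuous fun t : VE d => tau d t j := by
      intro j
      unfold tau
      fun_prop
    have hal : ∀ j, Continuous fun t : VE d => al (k / 2) d t j := by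
      intro j
      unfold al
      refine (continuous_const.mul (ht j)).add ?_
      split_ifs
      · exact continuous_const.sub (continuous_const.mul (continuous_finsetSum _ fun i _ => ht i))
      · exact continuous_const
    have hbe : ∀ j, Continuous fun t : VE d => be (k / 2) d t j := by
      intro j
      unfold be
      refine (continuous_const.mul (ht j)).add ?_
      split_ifs
      · exact continuous_const.add (continuous_const.mul (continuous_finsetSum _ fun i _ => ht i))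
      · exact continuous_const
    refine Complex.continuous_exp.comp (Continuous.add ?_ continuous_const)
    exact continuous_finsetSum _ fun i _ => continuous_finsetSum _ fun l _ =>
      ((hal i).mul (Complex.continuous_conj.comp (hbe l))).mul continuous_const
  · intro t
    have h1 := JM_real_lim (k / 2) (al (k / 2) d t) (be (k / 2) d t) (pt d) (sum_al _ d t)
      (sum_be _ d t) (pt_ge d)
    have h2 := (Complex.continuous_ofReal.tendsto _).comp (ZZ_lim k)
    have hG : (Gk (k / 2) : ℂ) ≠ 0 := by exact_mod_cast (Gk_pos (k / 2)).ne'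
    have h3 := h1.div h2 (by
      rw [Complex.ofReal_mul]
      exact mul_ne_zero hG (by exact_mod_cast (Real.exp_pos _).ne'))
    have e : (Gk (k / 2) : ℂ) * Complex.exp (∑ i, ∑ l, al (k / 2) d t i *
        conj (be (k / 2) d t l) * ((-Real.log (pt d i + pt d l) : ℝ) : ℂ)) /
        ((Gk (k / 2) * Real.exp ((k / 2) ^ 2 * -Real.log 2) : ℝ) : ℂ) =
        Complex.exp (∑ i, ∑ l, al (k / 2) d t i *
        conj (be (k / 2) d t l) * ((-Real.log (pt d i + pt d l) : ℝ) : ℂ) +
        (((k / 2) ^ 2 * Real.log 2 : ℝ) : ℂ)) := by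
      rw [Complex.ofReal_mul, mul_div_mul_left _ _ hG, Complex.ofReal_exp, ← Complex.exp_sub]
      congr 1
      push_cast
      ring
    rw [e] at h3
    refine h3.congr' ?_
    filter_upwards [eventually_ge_atTop 2] with N hN
    rw [charFun_law]
    simp only [Pi.div_apply, Function.comp]
    have h5 : ((dl N ^ ((k / 2) ^ 2) : ℝ) : ℂ) ≠ 0 := by
      exact_mod_cast (Real.rpow_pos_of_pos (dl_pos hN) _).ne'
    rw [Complex.ofReal_mul, mul_div_mul_right _ _ h5]

end Pool.Agent.H7.PM
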