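import Pool.Agent.H7.PM.D3

set_option autoImplicit false
open MeasureTheory Metric Filter
open scoped ComplexConjugate ENNReal Topology RealInnerProductSpace

/-! Norms of polynomial combinations of the Euler products. -/

namespace Pool.Agent.H7.PM

open Pool.Agent.Helper873.OneVar Pool.Agent.Helper873.Product

/-- a combination of Euler products -/
noncomputable def PQ (d : ℕ) (h : Fin (d + 1) → ℂ) (N : ℕ) (z : Tor) : ℂ :=
  ∑ j, h j * FF N (pt d j : ℂ) z

lemma continuous_PQ (d : ℕ) (h : Fin (d + 1) → ℂ) (N : ℕ) : Continuous (PQ d h N) :=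
  continuous_finsetSum _ fun j _ => continuous_const.mul (continuous_FF N _ (by
    rw [Complex.ofReal_re]; linarith [pt_ge d j]))

/-- the functional -/
noncomputable def gf (k : ℝ) (d : ℕ) (h : Fin (d + 1) → ℂ) (x : VE d) : ℝ :=
  ‖∑ j, h j * Complex.exp ((x (j, true) : ℂ) + (x (j, false) : ℂ) * Complex.I)‖ ^ k

lemma continuous_gf {k : ℝ} (hk : 0 ≤ k) (d : ℕ) (h : Fin (d + 1) → ℂ) :
    Continuous (gf k d h) := by
  unfold gf
  refine Continuous.rpow_const ?_ fun _ => Or.inr hk
  fun_prop

lemma gf_nonneg (k : ℝ) (d : ℕ) (h : Fin (d + 1) → ℂ) (x : VE d) : 0 ≤ gf k d h x := by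
  unfold gf; positivity

lemma gf_vl (k : ℝ) (d : ℕ) (h : Fin (d + 1) → ℂ) (N : ℕ) (z : Tor) :
    gf k d h (vl d N z) = ‖∑ j, h j * Complex.exp (wl d N j z)‖ ^ k := by
  unfold gf vl
  congr 2
  refine Finset.sum_congr rfl fun j _ => ?_
  congr 2
  apply Complex.ext <;> simp

lemma PQ_eq (d : ℕ) (h : Fin (d + 1) → ℂ) (N : ℕ) (z : Tor) :
    PQ d h N z = FF N 1 z * ∑ j, h j * Complex.exp (wl d N j z) := by
  unfold PQ
  rw [Finset.mul_sum]
  refine Finset.sum_congr rfl fun j _ => ?_
  unfold wl FF
  rw [Complex.exp_sub]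
  have := Complex.exp_ne_zero (lg (dl N) (KK N) 1 z)
  field_simp

lemma intQ_gf (k : ℝ) (d : ℕ) (h : Fin (d + 1) → ℂ) (N : ℕ) :
    ∫ z, gf k d h (vl d N z) ∂(Qm k N) = (∫ z, ‖PQ d h N z‖ ^ k ∂tor) / ZZ k N := by
  rw [intQ_real]
  congr 1
  refine integral_congr_ae (Eventually.of_forall fun z => ?_)
  simp only
  rw [gf_vl, PQ_eq, norm_mul, Real.mul_rpow (norm_nonneg _) (norm_nonneg _)]

lemma sum_rpow_le {n : ℕ} (a : Fin (n + 1) → ℝ) (ha : ∀ j, 0 ≤ a j) {q : ℝ} (hq : 0 ≤ q) :
    (∑ j, a j) ^ q ≤ ((n : ℝ) + 1) ^ q * ∑ j, a j ^ q := by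
  have hS : 0 ≤ ∑ j, a j := Finset.sum_nonneg fun j _ => ha j
  obtain ⟨j, _, hj⟩ := Finset.exists_le_of_sum_le (s := (Finset.univ : Finset (Fin (n + 1))))
    (f := fun _ => (∑ j, a j) / ((n : ℝ) + 1)) (g := a) Finset.univ_nonempty (by
      rw [Finset.sum_const, Finset.card_univ, Fintype.card_fin, nsmul_eq_mul]
      push_cast
      rw [mul_div_cancel₀]
      positivity)
  rw [div_le_iff₀ (by positivity)] at hj
  calc (∑ j, a j) ^ q ≤ (a j * ((n : ℝ) + 1)) ^ q := Real.rpow_le_rpow hS hj hq
    _ = ((n : ℝ) + 1) ^ q * a j ^ q := by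
        rw [Real.mul_rpow (ha j) (by positivity), mul_comm]
    _ ≤ _ := by
        refine mul_le_mul_of_nonneg_left ?_ (by positivity)
        exact Finset.single_le_sum (f := fun j => a j ^ q)
          (fun i _ => Real.rpow_nonneg (ha i) q) (Finset.mem_univ j)

/-- the second moments under the tilted laws are bounded -/
lemma second_bound {k : ℝ} (hk : 0 < k) (d : ℕ) (h : Fin (d + 1) → ℂ) :
    ∃ C : ℝ, 0 ≤ C ∧ ∀ᶠ N in atTop, ∫ z, gf k d h (vl d N z) ^ 2 ∂(Qm k N) ≤ C := by
  -- bound for each ratio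
  have h1 : ∀ j : Fin (d + 1), ∃ C : ℝ, 0 ≤ C ∧ ∀ᶠ N in atTop,
      ∫ z, ‖Complex.exp (wl d N j z)‖ ^ (2 * k) ∂(Qm k N) ≤ C := by
    intro j
    have h2 := int_prod_ratio (ι := Fin 2) (k / 2) ![-(k / 2), k] ![1, (pt d j : ℂ)]
      (by simp; ring) (by
        intro i
        fin_cases i
        · simp
        · simpa using pt_ge d j)
    set l := Real.exp (∑ i : Fin 2, ∑ l : Fin 2, (![-(k / 2), k] : Fin 2 → ℝ) i *
      (![-(k / 2), k] : Fin 2 → ℝ) l * (-Real.log ‖(![1, (pt d j : ℂ)] : Fin 2 → ℂ) i +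
        conj ((![1, (pt d j : ℂ)] : Fin 2 → ℂ) l)‖) + (k / 2) ^ 2 * Real.log 2) with hl
    refine ⟨l + 1, by positivity, ?_⟩
    have h3 := h2.eventually (gt_mem_nhds (lt_add_one l))
    filter_upwards [h3] with N hN
    refine le_of_eq_of_le ?_ hN.le
    rw [intQ_real]
    have e : 2 * (k / 2) = k := by ring
    rw [e]
    congr 1
    refine integral_congr_ae (Eventually.of_forall fun z => ?_)
    simp only [Fin.prod_univ_two, Matrix.cons_val_zero, Matrix.cons_val_one]
    have h5 : 0 < ‖FF N 1 z‖ := by unfold FF; rw [Complex.norm_exp]; positivity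
    have h6 : ‖Complex.exp (wl d N j z)‖ = ‖FF N (pt d j : ℂ) z‖ / ‖FF N 1 z‖ := by
      unfold wl FF
      rw [Complex.exp_sub, norm_div]
    rw [h6, Real.div_rpow (norm_nonneg _) (norm_nonneg _), mul_div_assoc', mul_comm,
      mul_div_assoc, ← Real.rpow_sub h5, mul_comm]
    congr 2
    ring
  choose C hC0 hC using h1
  refine ⟨((d : ℝ) + 1) ^ (2 * k) * ∑ j, ‖h j‖ ^ (2 * k) * C j, ?_, ?_⟩
  · have : 0 ≤ ∑ j, ‖h j‖ ^ (2 * k) * C j :=
      Finset.sum_nonneg fun j _ => mul_nonneg (by positivity) (hC0 j)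
    positivity
  · have hall := Filter.eventually_all.2 hC
    filter_upwards [hall] with N hN
    have hcw : ∀ j, Continuous fun z : Tor => ‖Complex.exp (wl d N j z)‖ ^ (2 * k) := fun j =>
      (Complex.continuous_exp.comp (continuous_wl d N j)).norm.rpow_const fun _ => Or.inr (by linarith)
    have hint : ∀ {f : Tor → ℝ}, Continuous f → Integrable f (Qm k N) := by
      intro f hf
      exact hf.integrable_of_hasCompactSupport (HasCompactSupport.of_compactSpace f)
    calc ∫ z, gf k d h (vl d N z) ^ 2 ∂(Qm k N)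
        ≤ ∫ z, ((d : ℝ) + 1) ^ (2 * k) * ∑ j, ‖h j‖ ^ (2 * k) *
          ‖Complex.exp (wl d N j z)‖ ^ (2 * k) ∂(Qm k N) := by
          refine integral_mono (hint ?_) (hint ?_) fun z => ?_
          · exact ((continuous_gf hk.le d h).comp (continuous_vl d N)).pow 2
          · exact continuous_const.mul (continuous_finsetSum _ fun j _ =>
              continuous_const.mul (hcw j))
          · rw [gf_vl, ← Real.rpow_natCast, ← Real.rpow_mul (norm_nonneg _)]
            have e : k * ((2 : ℕ) : ℝ) = 2 * k := by push_cast; ring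
            rw [e]
            have hn : ‖∑ j, h j * Complex.exp (wl d N j z)‖ ≤
                ∑ j, ‖h j‖ * ‖Complex.exp (wl d N j z)‖ := by
              refine (norm_sum_le _ _).trans (le_of_eq ?_)
              exact Finset.sum_congr rfl fun j _ => norm_mul _ _
            refine (Real.rpow_le_rpow (norm_nonneg _) hn (by linarith)).trans ?_
            refine (sum_rpow_le (fun j => ‖h j‖ * ‖Complex.exp (wl d N j z)‖)
              (fun j => by positivity) (by linarith)).trans (le_of_eq ?_)
            congr 1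
            exact Finset.sum_congr rfl fun j _ => Real.mul_rpow (norm_nonneg _) (norm_nonneg _)
      _ = ((d : ℝ) + 1) ^ (2 * k) * ∑ j, ‖h j‖ ^ (2 * k) *
          ∫ z, ‖Complex.exp (wl d N j z)‖ ^ (2 * k) ∂(Qm k N) := by
          rw [integral_const_mul, integral_finsetSum]
          · congr 1
            refine Finset.sum_congr rfl fun j _ => integral_const_mul _ _
          · intro j _
            exact hint (continuous_const.mul (hcw j))
      _ ≤ _ := by
          refine mul_le_mul_of_nonneg_left ?_ (by positivity)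
          exact Finset.sum_le_sum fun j _ => mul_le_mul_of_nonneg_left (hN j) (by positivity)

theorem PQ_lim {k : ℝ} (hk : 0 < k) (d : ℕ) (h : Fin (d + 1) → ℂ) :
    ∃ l : ℝ, Tendsto (fun N => (∫ z, ‖PQ d h N z‖ ^ k ∂tor) / ZZ k N) atTop (𝓝 l) := by
  simp_rw [← intQ_gf]
  obtain ⟨C, hC0, hC⟩ := second_bound hk d h
  obtain ⟨μ₀, hμ₀⟩ := law_conv k d
  refine conv_of_approx _ fun ε hε => ?_
  set M : ℝ := (C + 1) / ε with hM
  have hM0 : 0 < M := by positivity
  refine ⟨fun N => ∫ z, min (gf k d h (vl d N z)) M ∂(Qm k N), ?_, ?_⟩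
  · -- bounded continuous
    have hcont : Continuous fun x : VE d => min (gf k d h x) M :=
      (continuous_gf hk.le d h).min continuous_const
    let g : BoundedContinuousFunction (VE d) ℝ :=
      BoundedContinuousFunction.ofNormedAddCommGroup (fun x => min (gf k d h x) M) hcont M
        (fun x => by
          rw [Real.norm_of_nonneg (le_min (gf_nonneg k d h x) hM0.le)]
          exact min_le_right _ _)
    have h2 := (ProbabilityMeasure.tendsto_iff_forall_integral_tendsto.1 hμ₀) g
    refine ⟨_, h2.congr fun N => ?_⟩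
    change ∫ x, min (gf k d h x) M ∂((Qm k N).map (vl d N)) = _
    rw [integral_map (continuous_vl d N).measurable.aemeasurable
      hcont.aestronglyMeasurable]
  · filter_upwards [hC] with N hN
    have hint : ∀ {f : Tor → ℝ}, Continuous f → Integrable f (Qm k N) := by
      intro f hf
      exact hf.integrable_of_hasCompactSupport (HasCompactSupport.of_compactSpace f)
    have c1 : Continuous fun z => gf k d h (vl d N z) :=
      (continuous_gf hk.le d h).comp (continuous_vl d N)
    have c2 : Continuous fun z => min (gf k d h (vl d N z)) M := c1.min continuous_const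
    rw [← integral_sub (hint c1) (hint c2), abs_of_nonneg]
    · calc ∫ z, (gf k d h (vl d N z) - min (gf k d h (vl d N z)) M) ∂(Qm k N)
          ≤ ∫ z, gf k d h (vl d N z) ^ 2 / M ∂(Qm k N) := by
            refine integral_mono (hint (c1.sub c2)) (hint ((c1.pow 2).div_const M)) fun z => ?_
            have h0 := gf_nonneg k d h (vl d N z)
            simp only
            rcases le_total (gf k d h (vl d N z)) M with h3 | h3
            · rw [min_eq_left h3, sub_self]; positivity
            · rw [min_eq_right h3, le_div_iff₀ hM0]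
              nlinarith
        _ = (∫ z, gf k d h (vl d N z) ^ 2 ∂(Qm k N)) / M := integral_div _ _
        _ ≤ C / M := by gcongr
        _ ≤ ε := by
            rw [hM, div_div_eq_mul_div, div_le_iff₀ (by positivity)]
            nlinarith
    · refine integral_nonneg fun z => ?_
      simp only [Pi.zero_apply, sub_nonneg]
      exact min_le_left _ _

end Pool.Agent.H7.PM
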