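import Pool.Agent.H7.PM.A4
import Pool.Agent.H7.PM.D4

set_option autoImplicit false
open MeasureTheory Metric Filter
open scoped ComplexConjugate ENNReal Topology

/-! The Euler products as Dirichlet series. -/

namespace Pool.Agent.H7.PM

open Pool.Agent.Helper873.OneVar Pool.Agent.Helper873.Product Pool.Agent.Helper873.Embed

lemma prod_primes_c (g : ℕ → ℂ) (M : ℕ) :
    ∏ j ∈ Finset.range (Nat.primeCounting' M), g (Nat.nth Nat.Prime j) =
      ∏ p ∈ Nat.primesBelow M, g p := by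
  refine Finset.prod_nbij' (fun j => Nat.nth Nat.Prime j) (fun p => Nat.count Nat.Prime p)
    ?_ ?_ ?_ ?_ ?_
  · intro j hj
    rw [Nat.mem_primesBelow]
    exact ⟨Nat.nth_lt_of_lt_count (Finset.mem_range.1 hj), Nat.prime_nth_prime j⟩
  · intro p hp
    rw [Nat.mem_primesBelow] at hp
    rw [Finset.mem_range]
    exact Nat.count_strict_mono hp.2 hp.1
  · intro j _
    exact Nat.primeCounting'_nth_eq j
  · intro p hp
    exact Nat.nth_count (Nat.prime_of_mem_primesBelow hp)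
  · intro j _
    rfl

/-- the completely multiplicative function -/
noncomputable def mf (s : ℂ) (hs : s ≠ 0) (z : Tor) : ℕ →* ℂ where
  toFun n := stf n z * (n : ℂ) ^ (-s)
  map_one' := by simp [stf_one]
  map_mul' m n := by
    rcases eq_or_ne m 0 with rfl | hm
    · simp [Complex.zero_cpow (neg_ne_zero.2 hs)]
    rcases eq_or_ne n 0 with rfl | hn
    · simp [Complex.zero_cpow (neg_ne_zero.2 hs)]
    rw [stf_mul m n hm hn, Nat.cast_mul, Complex.natCast_mul_natCast_cpow]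
    ring

lemma mf_apply (s : ℂ) (hs : s ≠ 0) (z : Tor) (n : ℕ) :
    mf s hs z n = stf n z * (n : ℂ) ^ (-s) := rfl

lemma norm_mf (s : ℂ) (hs : s ≠ 0) (hs0 : 0 < s.re) (z : Tor) (p : ℕ) (hp : p.Prime) :
    ‖mf s hs z p‖ < 1 := by
  rw [mf_apply, norm_mul, norm_stf, one_mul]
  have h := hp.two_le
  have h2 : (1 : ℝ) < p := by exact_mod_cast h
  rw [← Complex.ofReal_natCast, Complex.norm_cpow_eq_rpow_re_of_pos (by linarith)]
  exact Real.rpow_lt_one_of_one_lt_of_neg h2 (by simpa using hs0)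

/-- the bound for the primes -/
noncomputable def YY (N : ℕ) : ℕ := Nat.nth Nat.Prime (KK N)

/-- the exponent -/
noncomputable def ee (N : ℕ) (a : ℂ) : ℂ := 1 / 2 + a * dl N

lemma ee_re (N : ℕ) (a : ℂ) (ha : 0 ≤ a.re) : 0 < (ee N a).re := by
  unfold ee
  have := dl_nonneg N
  simp only [Complex.add_re, Complex.mul_re, Complex.ofReal_re, Complex.ofReal_im, mul_zero,
    sub_zero]
  norm_num
  have := mul_nonneg ha this
  linarith

lemma ee_ne (N : ℕ) (a : ℂ) (ha : 0 ≤ a.re) : ee N a ≠ 0 := by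
  intro h
  have := ee_re N a ha
  rw [h] at this
  simp at this

open Classical in
/-- the coefficients -/
noncomputable def cf (N : ℕ) (a : ℂ) (n : ℕ) : ℂ :=
  if n ∈ (YY N).smoothNumbers then (n : ℂ) ^ (-(ee N a)) else 0

lemma cf_zero (N : ℕ) (a : ℂ) : cf N a 0 = 0 := by
  unfold cf
  rw [if_neg]
  intro h
  exact (Nat.mem_smoothNumbers.1 h).1 rfl

lemma summable_cf (N : ℕ) (a : ℂ) (ha : 0 ≤ a.re) : Summable fun n => ‖cf N a n‖ := by
  have h := (EulerProduct.summable_and_hasSum_smoothNumbers_prod_primesBelow_geometric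
    (f := mf (ee N a) (ee_ne N a ha) 0) (fun {p} hp => norm_mf _ _ (ee_re N a ha) _ p hp)
    (YY N)).1
  have h2 := (summable_subtype_iff_indicator (f := fun m => ‖mf (ee N a) (ee_ne N a ha) 0 m‖)
    (s := (YY N).smoothNumbers)).1 h
  refine h2.congr fun n => ?_
  unfold cf
  by_cases hn : n ∈ (YY N).smoothNumbers
  · rw [Set.indicator_of_mem hn, if_pos hn, mf_apply, norm_mul, norm_stf, one_mul]
  · rw [Set.indicator_of_notMem hn, if_neg hn, norm_zero]

theorem FF_eq (N : ℕ) (a : ℂ) (ha : 0 ≤ a.re) : FF N a = DSer (cf N a) := by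
  funext z
  have h := (EulerProduct.summable_and_hasSum_smoothNumbers_prod_primesBelow_geometric
    (f := mf (ee N a) (ee_ne N a ha) z) (fun {p} hp => norm_mf _ _ (ee_re N a ha) _ p hp)
    (YY N)).2
  have h2 := (hasSum_subtype_iff_indicator (f := fun m => mf (ee N a) (ee_ne N a ha) z m)
    (s := (YY N).smoothNumbers)).1 h
  have h3 : (Set.indicator ((YY N).smoothNumbers) fun m => mf (ee N a) (ee_ne N a ha) z m) =
      fun n => cf N a n * stf n z := by
    funext n
    unfold cf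
    by_cases hn : n ∈ (YY N).smoothNumbers
    · rw [Set.indicator_of_mem hn, if_pos hn, mf_apply, mul_comm]
    · rw [Set.indicator_of_notMem hn, if_neg hn, zero_mul]
  rw [h3] at h2
  unfold DSer
  rw [h2.tsum_eq]
  rw [← prod_primes_c (fun p => (1 - mf (ee N a) (ee_ne N a ha) z p)⁻¹)]
  unfold YY
  rw [Nat.primeCounting'_nth_eq]
  unfold FF lg
  rw [Complex.exp_sum]
  refine Finset.prod_congr rfl fun j _ => ?_
  rw [mf_apply, stf_prime]
  unfold la xj ee
  have h5 : ‖(Nat.nth Nat.Prime j : ℂ) ^ (-(1 / 2 + a * (dl N : ℂ))) * zet (z j)‖ < 1 := by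
    rw [norm_mul, norm_zet, mul_one]
    exact xj_lt (dl N) (dl_nonneg N) a ha j
  have h6 : (1 - (Nat.nth Nat.Prime j : ℂ) ^ (-(1 / 2 + a * (dl N : ℂ))) * zet (z j)) ≠ 0 :=
    Complex.slitPlane_ne_zero (la_slit _ _ h5)
  rw [Complex.exp_neg, Complex.exp_log h6, mul_comm (zet (z j))]

/-- the variable `n^{-δ}` -/
noncomputable def yn (N n : ℕ) : ℝ := Real.exp (-(dl N * Real.log ((max n 1 : ℕ) : ℝ)))

lemma yn_pos (N n : ℕ) : 0 < yn N n := Real.exp_pos _

lemma log_max_nonneg (n : ℕ) : 0 ≤ Real.log ((max n 1 : ℕ) : ℝ) := Real.log_natCast_nonneg _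

lemma yn_le_one (N n : ℕ) : yn N n ≤ 1 := by
  unfold yn
  rw [Real.exp_le_one_iff]
  have := mul_nonneg (dl_nonneg N) (log_max_nonneg n)
  linarith

lemma yn_anti (N n : ℕ) : yn N (n + 1) ≤ yn N n := by
  unfold yn
  refine Real.exp_le_exp.2 (neg_le_neg (mul_le_mul_of_nonneg_left ?_ (dl_nonneg N)))
  have h1 : (0 : ℝ) < ((max n 1 : ℕ) : ℝ) := by
    exact_mod_cast lt_of_lt_of_le one_pos (le_max_right n 1)
  exact Real.log_le_log h1 (by exact_mod_cast max_le_max (Nat.le_succ n) le_rfl)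

lemma log_dl {N : ℕ} (hN : 2 ≤ N) : dl N * Real.log N = 1 := by
  unfold dl
  have : 0 < Real.log N := Real.log_pos (by exact_mod_cast hN)
  field_simp

lemma yn_ge_iff {N : ℕ} (hN : 2 ≤ N) (n : ℕ) (hn : n ≠ 0) :
    Real.exp (-1) ≤ yn N n ↔ n ≤ N := by
  unfold yn
  rw [Real.exp_le_exp, neg_le_neg_iff]
  have hm : max n 1 = n := max_eq_left (Nat.one_le_iff_ne_zero.2 hn)
  rw [hm]
  have h1 := log_dl hN
  have hd := dl_pos hN
  constructor
  · intro h
    rw [← h1] at h
    have h2 := le_of_mul_le_mul_left h hd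
    have h3 := (Real.log_le_log_iff (by exact_mod_cast Nat.pos_of_ne_zero hn)
      (by exact_mod_cast (by omega : 0 < N))).1 h2
    exact_mod_cast h3
  · intro h
    rw [← h1]
    refine mul_le_mul_of_nonneg_left ?_ hd.le
    exact Real.log_le_log (by exact_mod_cast Nat.pos_of_ne_zero hn) (by exact_mod_cast h)

/-- cpow in terms of the exponential -/
lemma nat_cpow (n : ℕ) (hn : n ≠ 0) (s : ℂ) :
    (n : ℂ) ^ s = Complex.exp ((Real.log n : ℂ) * s) := by
  have hnc : (n : ℂ) ≠ 0 := by exact_mod_cast hn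
  rw [Complex.cpow_def_of_ne_zero hnc]
  have hlog : Complex.log (n : ℂ) = ((Real.log n : ℝ) : ℂ) := by
    rw [← Complex.ofReal_natCast, ← Complex.ofReal_log (Nat.cast_nonneg n)]
  rw [hlog]

/-- changing the point -/
lemma cf_shift (N : ℕ) (a b : ℂ) (n : ℕ) :
    cf N (a + b) n = Complex.exp (b * Real.log (yn N n)) * cf N a n := by
  unfold cf
  split_ifs with h
  · have hn : n ≠ 0 := (Nat.mem_smoothNumbers.1 h).1
    have hm : max n 1 = n := max_eq_left (Nat.one_le_iff_ne_zero.2 hn)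
    rw [nat_cpow n hn, nat_cpow n hn, ← Complex.exp_add]
    unfold yn ee
    rw [Real.log_exp, hm]
    congr 1
    push_cast
    ring
  · simp

/-- multipliers given by Lipschitz functions of `n^{-δ}` -/
theorem mult_lip (p : ℝ) (hp : 1 < p) : ∃ C : ℝ, 0 ≤ C ∧ ∀ (g : ℝ → ℂ) (ε : ℝ), 0 ≤ ε →
    (∀ y, 0 ≤ y → y ≤ 1 → ‖g y‖ ≤ ε) →
    (∀ x y, 0 ≤ x → x ≤ y → y ≤ 1 → ‖g y - g x‖ ≤ ε * (y - x)) → ∀ N : ℕ,
    (Summable fun n => ‖g (yn N n) * cf N 1 n‖) ∧
    nrm p (DSer (fun n => g (yn N n) * cf N 1 n)) ≤ C * ε * nrm p (FF N 1) := by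
  obtain ⟨C, hC, h⟩ := mult p hp
  refine ⟨1 + C, by linarith, fun g ε hε hb hl N => ?_⟩
  have h1 := h (cf N 1) (fun n => g (yn N n)) ε ε (cf_zero N 1)
    (summable_cf N 1 one_re)
    (fun n => hb _ (yn_pos N n).le (yn_le_one N n))
    (fun M => by
      have h2 : ∀ n, ‖g (yn N (n + 1)) - g (yn N n)‖ ≤ ε * (yn N n - yn N (n + 1)) := by
        intro n
        rw [norm_sub_rev]
        exact hl _ _ (yn_pos N _).le (yn_anti N n) (yn_le_one N n)
      have h3 : ∀ M, ∑ n ∈ Finset.range M, ε * (yn N n - yn N (n + 1)) =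
          ε * (yn N 0 - yn N M) := by
        intro M
        rw [← Finset.mul_sum, Finset.sum_range_sub']
      refine (Finset.sum_le_sum fun n _ => h2 n).trans ?_
      rw [h3]
      have h4 := yn_le_one N 0
      have h5 := (yn_pos N M).le
      nlinarith)
  refine ⟨h1.1, ?_⟩
  rw [FF_eq N 1 one_re]
  refine h1.2.trans (le_of_eq ?_)
  ring

/-- the projection of an absolutely convergent series -/
theorem proj_ser (p : ℝ) (hp : 1 < p) : ∃ C : ℝ, 0 ≤ C ∧ ∀ (a : ℕ → ℂ), a 0 = 0 →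
    (Summable fun n => ‖a n‖) → ∀ N : ℕ,
    nrm p (DSer (fun n => (if n ≤ N then 1 else 0) * a n)) ≤ C * nrm p (DSer a) := by
  obtain ⟨C, hC, h⟩ := mult p hp
  refine ⟨1 + C, by linarith, fun a ha0 ha N => ?_⟩
  have h1 := h a (fun n => if n ≤ N then 1 else 0) 1 1 ha0 ha
    (fun n => by split_ifs <;> simp)
    (fun M => by
      have h2 : ∀ n, ‖((if n + 1 ≤ N then 1 else 0) - if n ≤ N then 1 else 0 : ℂ)‖ =
          if n = N then 1 else 0 := by
        intro n
        by_cases h3 : n = N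
        · subst h3; simp
        · by_cases h4 : n ≤ N
          · rw [if_pos h4, if_pos (by omega : n + 1 ≤ N), if_neg h3]; simp
          · rw [if_neg h4, if_neg (by omega : ¬ n + 1 ≤ N), if_neg h3]; simp
      simp_rw [h2]
      rw [Finset.sum_ite_eq']
      split_ifs <;> norm_num)
  refine h1.2.trans (le_of_eq ?_)
  ring

end Pool.Agent.H7.PM
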