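import Pool.Agent.H7.PM.E1

set_option autoImplicit false
open MeasureTheory Metric Filter
open scoped ComplexConjugate ENNReal Topology

/-! Decorrelation: averages over well spaced points are small. -/

namespace Pool.Agent.H7.PM

open Pool.Agent.Helper873.OneVar Pool.Agent.Helper873.Product Pool.Agent.Helper873.Embed

lemma fs_rpow {ι : Type*} (s : Finset ι) (X : ι → ℝ) (hX : ∀ i, 0 ≤ X i) {q : ℝ} (hq : 0 < q) :
    (∑ i ∈ s, X i) ^ q ≤ ((s.card : ℝ)) ^ q * ∑ i ∈ s, X i ^ q := by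
  rcases s.eq_empty_or_nonempty with rfl | hs
  · simp [Real.zero_rpow hq.ne']
  have hc : (0 : ℝ) < s.card := by exact_mod_cast hs.card_pos
  have hS : 0 ≤ ∑ i ∈ s, X i := Finset.sum_nonneg fun j _ => hX j
  obtain ⟨j, hjs, hj⟩ := Finset.exists_le_of_sum_le (s := s)
    (f := fun _ => (∑ i ∈ s, X i) / (s.card : ℝ)) (g := X) hs (by
      rw [Finset.sum_const, nsmul_eq_mul, mul_div_cancel₀ _ hc.ne'])
  rw [div_le_iff₀ hc] at hj
  calc (∑ i ∈ s, X i) ^ q ≤ (X j * (s.card : ℝ)) ^ q := Real.rpow_le_rpow hS hj hq.le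
    _ = (s.card : ℝ) ^ q * X j ^ q := by
        rw [Real.mul_rpow (hX j) hc.le, mul_comm]
    _ ≤ _ := by
        refine mul_le_mul_of_nonneg_left ?_ (by positivity)
        exact Finset.single_le_sum (f := fun j => X j ^ q)
          (fun i _ => Real.rpow_nonneg (hX i) q) hjs

lemma two_rpow (x y : ℝ) (hx : 0 ≤ x) (hy : 0 ≤ y) {q : ℝ} (hq : 0 ≤ q) :
    (x + y) ^ q ≤ 2 ^ q * (x ^ q + y ^ q) := by
  have hxq := Real.rpow_nonneg hx q
  have hyq := Real.rpow_nonneg hy q
  rcases le_total x y with h | h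
  · calc (x + y) ^ q ≤ (2 * y) ^ q := Real.rpow_le_rpow (by linarith) (by linarith) hq
      _ = 2 ^ q * y ^ q := Real.mul_rpow (by norm_num) hy
      _ ≤ _ := mul_le_mul_of_nonneg_left (by linarith) (by positivity)
  · calc (x + y) ^ q ≤ (2 * x) ^ q := Real.rpow_le_rpow (by linarith) (by linarith) hq
      _ = 2 ^ q * x ^ q := Real.mul_rpow (by norm_num) hx
      _ ≤ _ := mul_le_mul_of_nonneg_left (by linarith) (by positivity)

lemma pw {J : ℕ} (X : Fin J → ℝ) (hX : ∀ i, 0 ≤ X i) {k : ℝ} (hk : 1 < k) :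
    (∑ m, X m) ^ k ≤ 2 ^ (k - 1) * (∑ m, X m ^ k + (J : ℝ) ^ (k - 1) *
      ∑ m, ∑ l ∈ Finset.univ.erase m, X m * X l ^ (k - 1)) := by
  have hS : 0 ≤ ∑ i, X i := Finset.sum_nonneg fun j _ => hX j
  have hk1 : 0 < k - 1 := by linarith
  have hpow : ∀ x : ℝ, 0 ≤ x → x ^ k = x * x ^ (k - 1) := by
    intro x hx
    have h := Real.rpow_add_one' hx (y := k - 1) (by linarith)
    rw [sub_add_cancel] at h
    rw [h, mul_comm]
  rw [hpow _ hS, Finset.sum_mul]
  have h1 : ∀ m : Fin J, X m * (∑ i, X i) ^ (k - 1) ≤ 2 ^ (k - 1) * (X m ^ k +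
      (J : ℝ) ^ (k - 1) * ∑ l ∈ Finset.univ.erase m, X m * X l ^ (k - 1)) := by
    intro m
    have h2 : ∑ i, X i = X m + ∑ l ∈ Finset.univ.erase m, X l :=
      (Finset.add_sum_erase _ _ (Finset.mem_univ m)).symm
    have hR : 0 ≤ ∑ l ∈ Finset.univ.erase m, X l := Finset.sum_nonneg fun j _ => hX j
    have h3 := two_rpow (X m) (∑ l ∈ Finset.univ.erase m, X l) (hX m) hR hk1.le
    have h4 := fs_rpow (Finset.univ.erase m) X hX hk1
    have h5 : (((Finset.univ.erase m).card : ℕ) : ℝ) ^ (k - 1) ≤ (J : ℝ) ^ (k - 1) := by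
      refine Real.rpow_le_rpow (by positivity) ?_ hk1.le
      have : (Finset.univ.erase m).card ≤ J := by
        refine (Finset.card_le_card (Finset.erase_subset _ _)).trans ?_
        simp
      exact_mod_cast this
    have h6 : 0 ≤ ∑ l ∈ Finset.univ.erase m, X l ^ (k - 1) :=
      Finset.sum_nonneg fun j _ => Real.rpow_nonneg (hX j) _
    rw [h2]
    calc X m * (X m + ∑ l ∈ Finset.univ.erase m, X l) ^ (k - 1)
        ≤ X m * (2 ^ (k - 1) * (X m ^ (k - 1) + (J : ℝ) ^ (k - 1) *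
          ∑ l ∈ Finset.univ.erase m, X l ^ (k - 1))) := by
          refine mul_le_mul_of_nonneg_left ?_ (hX m)
          refine h3.trans (mul_le_mul_of_nonneg_left ?_ (by positivity))
          have := h4.trans (mul_le_mul_of_nonneg_right h5 h6)
          linarith
      _ = _ := by
          rw [hpow _ (hX m), ← Finset.mul_sum]
          ring
  refine (Finset.sum_le_sum fun m _ => h1 m).trans (le_of_eq ?_)
  rw [← Finset.mul_sum, Finset.sum_add_distrib, ← Finset.mul_sum]

/-- the shifted points -/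
noncomputable def bp (c u : ℝ) : ℂ := (c : ℂ) * (1 + (u : ℂ) * Complex.I)

lemma bp_re (c u : ℝ) : (bp c u).re = c := by unfold bp; simp

lemma bp_add (c u v : ℝ) : bp c u + conj (bp c v) = (c : ℂ) * (2 + ((u - v : ℝ) : ℂ) * Complex.I) := by
  unfold bp
  rw [map_mul, map_add, map_one, map_mul, Complex.conj_ofReal, Complex.conj_ofReal,
    Complex.conj_I]
  push_cast
  ring

lemma norm_bp_self (c u : ℝ) (hc : 0 < c) : ‖bp c u + conj (bp c u)‖ = 2 * c := by
  rw [bp_add, sub_self]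
  simp [abs_of_pos hc]
  ring

lemma norm_bp_ge (c u v : ℝ) (hc : 1 ≤ c) : |u - v| ≤ ‖bp c u + conj (bp c v)‖ := by
  rw [bp_add]
  have h := Complex.abs_im_le_norm ((c : ℂ) * (2 + ((u - v : ℝ) : ℂ) * Complex.I))
  refine le_trans ?_ h
  rw [Complex.im_ofReal_mul]
  simp only [Complex.add_im, Complex.im_ofReal_mul, Complex.I_im, mul_one]
  rw [abs_mul, abs_of_pos (by linarith : 0 < c)]
  have e : (2 : ℂ).im = 0 := rfl
  rw [e, zero_add]
  have := abs_nonneg (u - v)
  nlinarith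

lemma diag_ev (k c u : ℝ) (hc : 1 ≤ c) :
    ∀ᶠ N in atTop, ∫ z, ‖FF N (bp c u) z‖ ^ k ∂tor ≤ 2 * ZZ k N := by
  have h := int_prod_ratio (ι := Unit) (k / 2) (fun _ => k / 2) (fun _ => bp c u) (by simp)
    (fun _ => by rw [bp_re]; exact hc)
  have hv : Real.exp (∑ _i : Unit, ∑ _l : Unit, k / 2 * (k / 2) *
      (-Real.log ‖bp c u + conj (bp c u)‖) + (k / 2) ^ 2 * Real.log 2) < 2 := by
    rw [norm_bp_self c u (by linarith)]
    simp only [Finset.univ_unique, Finset.sum_const, Finset.card_singleton, one_smul]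
    have h1 : Real.log 2 ≤ Real.log (2 * c) := Real.log_le_log (by norm_num) (by linarith)
    have h2 : k / 2 * (k / 2) * -Real.log (2 * c) + (k / 2) ^ 2 * Real.log 2 ≤ 0 := by
      nlinarith [sq_nonneg (k / 2)]
    have := Real.exp_le_one_iff.2 h2
    linarith
  filter_upwards [h.eventually (gt_mem_nhds hv)] with N hN
  have e : 2 * (k / 2) = k := by ring
  rw [e, div_lt_iff₀ (ZZ_pos k N)] at hN
  simpa [e] using hN.le

lemma off_ev (k c u v ξ : ℝ) (hk : 1 < k) (hc : 1 ≤ c) (hξ : 0 < ξ)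
    (huv : 2 * Real.exp (-(Real.log ξ) * (2 / (k - 1)) + 1) ≤ |u - v|) :
    ∀ᶠ N in atTop, ∫ z, ‖FF N (bp c u) z‖ * ‖FF N (bp c v) z‖ ^ (k - 1) ∂tor ≤ ξ * ZZ k N := by
  have hk1 : 0 < k - 1 := by linarith
  have h := int_prod_ratio (ι := Fin 2) (k / 2) ![1 / 2, (k - 1) / 2] ![bp c u, bp c v]
    (by simp; ring) (by
      intro i
      fin_cases i
      · simp [bp_re, hc]
      · simp [bp_re, hc])
  have hv : Real.exp (∑ i : Fin 2, ∑ l : Fin 2, (![1 / 2, (k - 1) / 2] : Fin 2 → ℝ) i *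
      (![1 / 2, (k - 1) / 2] : Fin 2 → ℝ) l * (-Real.log ‖(![bp c u, bp c v] : Fin 2 → ℂ) i +
        conj ((![bp c u, bp c v] : Fin 2 → ℂ) l)‖) + (k / 2) ^ 2 * Real.log 2) < ξ := by
    simp only [Fin.sum_univ_two, Matrix.cons_val_zero, Matrix.cons_val_one]
    have hsym : ‖bp c v + conj (bp c u)‖ = ‖bp c u + conj (bp c v)‖ := by
      rw [← Complex.norm_conj, map_add, Complex.conj_conj, add_comm]
    rw [norm_bp_self c u (by linarith), norm_bp_self c v (by linarith), hsym]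
    have h1 : Real.log 2 ≤ Real.log (2 * c) := Real.log_le_log (by norm_num) (by linarith)
    have hw0 : 0 < |u - v| := lt_of_lt_of_le (by positivity) huv
    have h2 : Real.log 2 + (-(Real.log ξ) * (2 / (k - 1)) + 1) ≤
        Real.log ‖bp c u + conj (bp c v)‖ := by
      rw [← Real.log_exp (-(Real.log ξ) * (2 / (k - 1)) + 1),
        ← Real.log_mul (by norm_num) (Real.exp_ne_zero _)]
      exact Real.log_le_log (by positivity) (huv.trans (norm_bp_ge c u v hc))
    set A := Real.log ‖bp c u + conj (bp c v)‖ with hA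
    set B := Real.log (2 * c) with hB
    rw [← Real.lt_log_iff_exp_lt hξ]
    have h3 : 1 / 2 * (1 / 2) * -B + 1 / 2 * ((k - 1) / 2) * -A +
        ((k - 1) / 2 * (1 / 2) * -A + (k - 1) / 2 * ((k - 1) / 2) * -B) +
        (k / 2) ^ 2 * Real.log 2 =
        (1 / 4 + (k - 1) ^ 2 / 4) * (Real.log 2 - B) + (k - 1) / 2 * (Real.log 2 - A) := by
      ring
    rw [h3]
    have h4 : (1 / 4 + (k - 1) ^ 2 / 4) * (Real.log 2 - B) ≤ 0 :=
      mul_nonpos_of_nonneg_of_nonpos (by positivity) (by linarith)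
    have h5 : (k - 1) / 2 * (Real.log 2 - A) ≤
        (k - 1) / 2 * (Real.log ξ * (2 / (k - 1)) - 1) :=
      mul_le_mul_of_nonneg_left (by linarith) (by positivity)
    have h6 : (k - 1) / 2 * (Real.log ξ * (2 / (k - 1)) - 1) = Real.log ξ - (k - 1) / 2 := by
      field_simp
    linarith
  filter_upwards [h.eventually (gt_mem_nhds hv)] with N hN
  have e : 2 * (k / 2) = k := by ring
  rw [e, div_lt_iff₀ (ZZ_pos k N)] at hN
  refine le_of_eq_of_le ?_ hN.le
  refine integral_congr_ae (Eventually.of_forall fun z => ?_)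
  simp only [Fin.prod_univ_two, Matrix.cons_val_zero, Matrix.cons_val_one]
  have e1 : (2 : ℝ) * (1 / 2) = 1 := by norm_num
  have e2 : 2 * ((k - 1) / 2) = k - 1 := by ring
  rw [e1, e2, Real.rpow_one]

/-- the average over the shifted points -/
noncomputable def av (J : ℕ) (c : ℝ) (u : Fin J → ℝ) (N : ℕ) (z : Tor) : ℂ :=
  (1 / (J : ℂ)) * ∑ m, Complex.exp (bp c (u m)) * FF N (bp c (u m)) z

lemma continuous_FFb (N : ℕ) (c u : ℝ) (hc : 1 ≤ c) : Continuous (FF N (bp c u)) :=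
  continuous_FF N _ (by rw [bp_re]; linarith)

lemma continuous_av (J : ℕ) (c : ℝ) (hc : 1 ≤ c) (u : Fin J → ℝ) (N : ℕ) :
    Continuous (av J c u N) :=
  continuous_const.mul (continuous_finsetSum _ fun m _ =>
    continuous_const.mul (continuous_FFb N c (u m) hc))

lemma av_norm (J : ℕ) (c : ℝ) (u : Fin J → ℝ) (N : ℕ) (z : Tor) :
    ‖av J c u N z‖ ≤ Real.exp c / J * ∑ m, ‖FF N (bp c (u m)) z‖ := by
  unfold av
  rw [norm_mul, norm_div, norm_one, Complex.norm_natCast]
  have h1 : ‖∑ m, Complex.exp (bp c (u m)) * FF N (bp c (u m)) z‖ ≤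
      Real.exp c * ∑ m, ‖FF N (bp c (u m)) z‖ := by
    rw [Finset.mul_sum]
    refine (norm_sum_le _ _).trans (le_of_eq (Finset.sum_congr rfl fun m _ => ?_))
    rw [norm_mul, Complex.norm_exp, bp_re]
  calc 1 / (J : ℝ) * ‖∑ m, Complex.exp (bp c (u m)) * FF N (bp c (u m)) z‖ ≤
      1 / (J : ℝ) * (Real.exp c * ∑ m, ‖FF N (bp c (u m)) z‖) := by gcongr
    _ = _ := by ring

theorem av_small (k η : ℝ) (hk : 1 < k) (hη : 0 < η) : ∃ J : ℕ, 1 ≤ J ∧ ∃ u : Fin J → ℝ,
    ∀ c : ℝ, 1 ≤ c → c ≤ 2 → ∀ᶠ N in atTop, ∫ z, ‖av J c u N z‖ ^ k ∂tor ≤ η * ZZ k N := by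
  have hk0 : 0 < k := by linarith
  have hk1 : 0 < k - 1 := by linarith
  -- choice of J
  set A : ℝ := Real.exp 2 ^ k * 2 ^ (k - 1) with hA
  have hA0 : 0 < A := by positivity
  obtain ⟨J, hJ1, hJ⟩ : ∃ J : ℕ, 1 ≤ J ∧ A * (2 * (J : ℝ) ^ (-(k - 1))) ≤ η / 2 := by
    have h1 : Tendsto (fun J : ℕ => A * (2 * (J : ℝ) ^ (-(k - 1)))) atTop (𝓝 (A * (2 * 0))) :=
      (((tendsto_rpow_neg_atTop hk1).comp tendsto_natCast_atTop_atTop).const_mul 2).const_mul A
    rw [mul_zero, mul_zero] at h1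
    obtain ⟨J, hJ, hJ1⟩ := ((h1.eventually (gt_mem_nhds (half_pos hη))).and
      (eventually_ge_atTop 1)).exists
    exact ⟨J, hJ1, hJ.le⟩
  have hJ0 : (0 : ℝ) < J := by exact_mod_cast hJ1
  set ξ : ℝ := η / (2 * A * J) with hξ
  have hξ0 : 0 < ξ := by positivity
  set L : ℝ := 2 * Real.exp (-(Real.log ξ) * (2 / (k - 1)) + 1) with hL
  have hL0 : 0 < L := by positivity
  refine ⟨J, hJ1, fun m => (m : ℕ) * L, fun c hc hc2 => ?_⟩
  have hd : ∀ᶠ N in atTop, ∀ m : Fin J,
      ∫ z, ‖FF N (bp c ((m : ℕ) * L)) z‖ ^ k ∂tor ≤ 2 * ZZ k N :=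
    Filter.eventually_all.2 fun m => diag_ev k c _ hc
  have ho : ∀ᶠ N in atTop, ∀ m : Fin J, ∀ l ∈ Finset.univ.erase m,
      ∫ z, ‖FF N (bp c ((m : ℕ) * L)) z‖ * ‖FF N (bp c ((l : ℕ) * L)) z‖ ^ (k - 1) ∂tor ≤
        ξ * ZZ k N := by
    refine Filter.eventually_all.2 fun m => (Filter.eventually_all_finset _).2 fun l hl => ?_
    refine off_ev k c _ _ ξ hk hc hξ0 ?_
    have hne : (l : ℕ) ≠ (m : ℕ) := fun h => (Finset.mem_erase.1 hl).1 (Fin.ext h)
    rw [← sub_mul, abs_mul, abs_of_pos hL0, ← hL]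
    have h1 : (1 : ℝ) ≤ |((m : ℕ) : ℝ) - ((l : ℕ) : ℝ)| := by
      have h2 : (1 : ℤ) ≤ |((m : ℕ) : ℤ) - ((l : ℕ) : ℤ)| := by
        apply Int.one_le_abs
        omega
      exact_mod_cast h2
    nlinarith
  filter_upwards [hd, ho] with N h1 h2
  have hZ := ZZ_pos k N
  set X : Fin J → Tor → ℝ := fun m z => ‖FF N (bp c ((m : ℕ) * L)) z‖ with hX
  have hXc : ∀ m, Continuous (X m) := fun m => (continuous_FFb N c _ hc).norm
  have hX0 : ∀ m z, 0 ≤ X m z := fun m z => norm_nonneg _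
  have hXk : ∀ m, Continuous fun z => X m z ^ k := fun m =>
    (hXc m).rpow_const fun _ => Or.inr hk0.le
  have hXl : ∀ m l, Continuous fun z => X m z * X l z ^ (k - 1) := fun m l =>
    (hXc m).mul ((hXc l).rpow_const fun _ => Or.inr hk1.le)
  have hpt : ∀ z, ‖av J c (fun m => (m : ℕ) * L) N z‖ ^ k ≤
      (Real.exp c / J) ^ k * (2 ^ (k - 1) * (∑ m, X m z ^ k + (J : ℝ) ^ (k - 1) *
      ∑ m, ∑ l ∈ Finset.univ.erase m, X m z * X l z ^ (k - 1))) := by
    intro z
    have h3 := av_norm J c (fun m => (m : ℕ) * L) N z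
    have h4 := pw (fun m => X m z) (fun m => hX0 m z) hk
    calc ‖av J c (fun m => (m : ℕ) * L) N z‖ ^ k ≤ (Real.exp c / J * ∑ m, X m z) ^ k :=
          Real.rpow_le_rpow (norm_nonneg _) h3 hk0.le
      _ = (Real.exp c / J) ^ k * (∑ m, X m z) ^ k :=
          Real.mul_rpow (by positivity) (Finset.sum_nonneg fun m _ => hX0 m z)
      _ ≤ _ := mul_le_mul_of_nonneg_left h4 (by positivity)
  have hint : ∫ z, ‖av J c (fun m => (m : ℕ) * L) N z‖ ^ k ∂tor ≤
      (Real.exp c / J) ^ k * (2 ^ (k - 1) * (∑ m, ∫ z, X m z ^ k ∂tor + (J : ℝ) ^ (k - 1) *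
      ∑ m, ∑ l ∈ Finset.univ.erase m, ∫ z, X m z * X l z ^ (k - 1) ∂tor)) := by
    calc _ ≤ ∫ z, (Real.exp c / J) ^ k * (2 ^ (k - 1) * (∑ m, X m z ^ k + (J : ℝ) ^ (k - 1) *
          ∑ m, ∑ l ∈ Finset.univ.erase m, X m z * X l z ^ (k - 1))) ∂tor := by
          refine integral_mono (integrable_tor' (continuous_norm_rpow (continuous_av J c hc _ N)
            hk0.le)) (integrable_tor' ?_) hpt
          exact continuous_const.mul (continuous_const.mul ((continuous_finsetSum _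
            fun m _ => hXk m).add (continuous_const.mul (continuous_finsetSum _ fun m _ =>
            continuous_finsetSum _ fun l _ => hXl m l))))
      _ = _ := by
          rw [integral_const_mul, integral_const_mul, integral_add, integral_const_mul,
            integral_finsetSum, integral_finsetSum]
          · congr 3
            congr 1
            refine Finset.sum_congr rfl fun m _ => ?_
            rw [integral_finsetSum]
            intro l _
            exact integrable_tor' (hXl m l)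
          · intro m _
            exact integrable_tor' (continuous_finsetSum _ fun l _ => hXl m l)
          · intro m _
            exact integrable_tor' (hXk m)
          · exact integrable_tor' (continuous_finsetSum _ fun m _ => hXk m)
          · exact integrable_tor' (continuous_const.mul (continuous_finsetSum _ fun m _ =>
              continuous_finsetSum _ fun l _ => hXl m l))
  have hs1 : ∑ m, ∫ z, X m z ^ k ∂tor ≤ (J : ℝ) * (2 * ZZ k N) := by
    refine (Finset.sum_le_sum fun m _ => h1 m).trans (le_of_eq ?_)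
    rw [Finset.sum_const, Finset.card_univ, Fintype.card_fin, nsmul_eq_mul]
  have hs2 : ∑ m, ∑ l ∈ Finset.univ.erase m, ∫ z, X m z * X l z ^ (k - 1) ∂tor ≤
      (J : ℝ) * ((J : ℝ) * (ξ * ZZ k N)) := by
    have h5 : ∀ m : Fin J, ∑ l ∈ Finset.univ.erase m, ∫ z, X m z * X l z ^ (k - 1) ∂tor ≤
        (J : ℝ) * (ξ * ZZ k N) := by
      intro m
      refine (Finset.sum_le_sum fun l hl => h2 m l hl).trans ?_
      rw [Finset.sum_const, nsmul_eq_mul]
      refine mul_le_mul_of_nonneg_right ?_ (by positivity)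
      have : (Finset.univ.erase m).card ≤ J := by
        refine (Finset.card_le_card (Finset.erase_subset _ _)).trans ?_
        simp
      exact_mod_cast this
    refine (Finset.sum_le_sum fun m _ => h5 m).trans (le_of_eq ?_)
    rw [Finset.sum_const, Finset.card_univ, Fintype.card_fin, nsmul_eq_mul]
  refine hint.trans ?_
  have hJk : (Real.exp c / J) ^ k ≤ Real.exp 2 ^ k * (J : ℝ) ^ (-k) := by
    rw [Real.div_rpow (by positivity) hJ0.le, Real.rpow_neg hJ0.le, div_eq_mul_inv]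
    refine mul_le_mul_of_nonneg_right ?_ (by positivity)
    exact Real.rpow_le_rpow (by positivity) (Real.exp_le_exp.2 hc2) hk0.le
  calc _ ≤ (Real.exp 2 ^ k * (J : ℝ) ^ (-k)) * (2 ^ (k - 1) * ((J : ℝ) * (2 * ZZ k N) +
        (J : ℝ) ^ (k - 1) * ((J : ℝ) * ((J : ℝ) * (ξ * ZZ k N))))) := by
        have hnn : 0 ≤ ∑ m, ∫ z, X m z ^ k ∂tor + (J : ℝ) ^ (k - 1) *
            ∑ m, ∑ l ∈ Finset.univ.erase m, ∫ z, X m z * X l z ^ (k - 1) ∂tor := by
          refine add_nonneg (Finset.sum_nonneg fun m _ => integral_nonneg fun z => ?_)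
            (mul_nonneg (by positivity) (Finset.sum_nonneg fun m _ =>
              Finset.sum_nonneg fun l _ => integral_nonneg fun z => ?_))
          · exact Real.rpow_nonneg (hX0 m z) _
          · exact mul_nonneg (hX0 m z) (Real.rpow_nonneg (hX0 l z) _)
        refine mul_le_mul hJk ?_ (mul_nonneg (by positivity) hnn) (by positivity)
        refine mul_le_mul_of_nonneg_left ?_ (by positivity)
        exact add_le_add hs1 (mul_le_mul_of_nonneg_left hs2 (by positivity))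
    _ = A * (2 * ((J : ℝ) ^ (-k) * J)) * ZZ k N +
        A * ξ * ((J : ℝ) ^ (-k) * (J : ℝ) ^ (k - 1) * J * J) * ZZ k N := by
        rw [hA]; ring
    _ = A * (2 * (J : ℝ) ^ (-(k - 1))) * ZZ k N + A * ξ * J * ZZ k N := by
        have e1 : (J : ℝ) ^ (-k) * J = (J : ℝ) ^ (-(k - 1)) := by
          rw [← Real.rpow_add_one hJ0.ne']
          congr 1; ring
        have e2 : (J : ℝ) ^ (-k) * (J : ℝ) ^ (k - 1) * J * J = J := by
          rw [← Real.rpow_add hJ0]
          have : -k + (k - 1) = -1 := by ring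
          rw [this, Real.rpow_neg_one]
          field_simp
        rw [e1, e2]
    _ ≤ η / 2 * ZZ k N + η / 2 * ZZ k N := by
        refine add_le_add (mul_le_mul_of_nonneg_right hJ hZ.le)
          (mul_le_mul_of_nonneg_right (le_of_eq ?_) hZ.le)
        rw [hξ]
        field_simp
    _ = η * ZZ k N := by ring

end Pool.Agent.H7.PM
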