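import Mathlib

set_option autoImplicit false
open MeasureTheory Metric Filter
open scoped ComplexConjugate ENNReal Topology Polynomial

/-! Approximation by polynomials with small Lipschitz constant. -/

namespace Pool.Agent.H7.PM

lemma exists_cpoly (D : ℝ → ℂ) (hD : ContinuousOn D (Set.Icc 0 1)) (ε : ℝ) (hε : 0 < ε) :
    ∃ P : ℂ[X], ∀ y ∈ Set.Icc (0 : ℝ) 1, ‖D y - P.eval (y : ℂ)‖ ≤ ε := by
  obtain ⟨p1, h1⟩ := exists_polynomial_near_of_continuousOn 0 1 (fun y => (D y).re)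
    (Complex.continuous_re.comp_continuousOn hD) (ε / 2) (by positivity)
  obtain ⟨p2, h2⟩ := exists_polynomial_near_of_continuousOn 0 1 (fun y => (D y).im)
    (Complex.continuous_im.comp_continuousOn hD) (ε / 2) (by positivity)
  refine ⟨p1.map (algebraMap ℝ ℂ) + Polynomial.C Complex.I * p2.map (algebraMap ℝ ℂ), fun y hy => ?_⟩
  have e : (p1.map (algebraMap ℝ ℂ) + Polynomial.C Complex.I * p2.map (algebraMap ℝ ℂ)).eval (y : ℂ) =
      ((p1.eval y : ℝ) : ℂ) + Complex.I * ((p2.eval y : ℝ) : ℂ) := by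
    rw [Polynomial.eval_add, Polynomial.eval_mul, Polynomial.eval_C]
    have : ∀ p : ℝ[X], (p.map (algebraMap ℝ ℂ)).eval (y : ℂ) = ((p.eval y : ℝ) : ℂ) := by
      intro p
      rw [Polynomial.eval_map]
      exact Polynomial.eval₂_at_apply (algebraMap ℝ ℂ) y
    rw [this, this]
  rw [e]
  have e2 : D y - (((p1.eval y : ℝ) : ℂ) + Complex.I * ((p2.eval y : ℝ) : ℂ)) =
      (((D y).re - p1.eval y : ℝ) : ℂ) + Complex.I * (((D y).im - p2.eval y : ℝ) : ℂ) := by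
    apply Complex.ext <;> simp
  rw [e2]
  refine (norm_add_le _ _).trans ?_
  rw [norm_mul, Complex.norm_I, one_mul, Complex.norm_real, Complex.norm_real,
    Real.norm_eq_abs, Real.norm_eq_abs, abs_sub_comm (D y).re, abs_sub_comm (D y).im]
  have a1 := h1 y hy
  have a2 := h2 y hy
  linarith

/-- antiderivative coefficients -/
noncomputable def adc (P : ℂ[X]) : Fin (P.natDegree + 1 + 1) → ℂ :=
  Fin.cons 0 fun i : Fin (P.natDegree + 1) => P.coeff i / ((i : ℕ) + 1 : ℂ)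

lemma adc_sum (P : ℂ[X]) (y : ℝ) : ∑ j, adc P j * (y : ℂ) ^ (j : ℕ) =
    ∑ i ∈ Finset.range (P.natDegree + 1), P.coeff i / ((i : ℂ) + 1) * (y : ℂ) ^ (i + 1) := by
  rw [Fin.sum_univ_succ, Finset.sum_range]
  simp [adc]

lemma adc_deriv (P : ℂ[X]) (y : ℝ) :
    HasDerivAt (fun y : ℝ => ∑ j, adc P j * (y : ℂ) ^ (j : ℕ)) (P.eval (y : ℂ)) y := by
  simp_rw [adc_sum]
  rw [Polynomial.eval_eq_sum_range]
  refine HasDerivAt.fun_sum fun i _ => ?_
  have h1 : HasDerivAt (fun y : ℝ => (y : ℂ)) 1 y := Complex.ofRealCLM.hasDerivAt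
  have h2 := (h1.pow (i + 1)).const_mul (P.coeff i / ((i : ℂ) + 1))
  refine h2.congr_deriv ?_
  have : ((i : ℂ) + 1) ≠ 0 := by exact_mod_cast Nat.succ_ne_zero i
  push_cast
  field_simp

theorem approx (c : ℝ) (hc0 : 0 < c) (hc1 : c < 1) (f f' : ℝ → ℂ)
    (h1 : ∀ y ∈ Set.Icc c 1, HasDerivAt f (f' y) y) (h2 : ContinuousOn f' (Set.Icc c 1))
    (h3 : f c = 0) (h4 : f' c = 0) (ε : ℝ) (hε : 0 < ε) :
    ∃ (d : ℕ) (h : Fin (d + 1) → ℂ), ∀ x y : ℝ, 0 ≤ x → x ≤ y → y ≤ 1 →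
      ‖(if y ≤ c then 0 else f y) - ∑ j, h j * (y : ℂ) ^ (j : ℕ)‖ ≤ ε ∧
      ‖((if y ≤ c then 0 else f y) - ∑ j, h j * (y : ℂ) ^ (j : ℕ)) -
        ((if x ≤ c then 0 else f x) - ∑ j, h j * (x : ℂ) ^ (j : ℕ))‖ ≤ ε * (y - x) := by
  have hD : ContinuousOn (fun y => f' (max y c)) (Set.Icc 0 1) := by
    refine h2.comp (by fun_prop) fun y hy => ?_
    exact ⟨le_max_right _ _, max_le hy.2 hc1.le⟩
  obtain ⟨P, hP⟩ := exists_cpoly _ hD ε hε
  refine ⟨P.natDegree + 1, adc P, ?_⟩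
  set q : ℝ → ℂ := fun y => ∑ j, adc P j * (y : ℂ) ^ (j : ℕ) with hq
  have hqd : ∀ y : ℝ, HasDerivAt q (P.eval (y : ℂ)) y := adc_deriv P
  have hq0 : q 0 = 0 := by
    simp only [hq]
    rw [adc_sum]
    simp
  set g : ℝ → ℂ := fun y => (if y ≤ c then 0 else f y) - q y with hg
  have hg1 : ∀ y, y ≤ c → g y = -q y := by
    intro y hy
    simp [hg, hy]
  have hg2 : ∀ y, c ≤ y → g y = f y - q y := by
    intro y hy
    rcases hy.lt_or_eq with h | h
    · simp [hg, not_le.2 h]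
    · subst h; simp [hg, h3]
  -- first piece
  have p1 : ∀ x y : ℝ, 0 ≤ x → x ≤ y → y ≤ c → ‖g y - g x‖ ≤ ε * (y - x) := by
    intro x y hx hxy hy
    have h5 := Convex.norm_image_sub_le_of_norm_hasDerivWithin_le (f := q)
      (f' := fun y => P.eval (y : ℂ)) (C := ε) (s := Set.Icc 0 c) (x := x) (y := y)
      (fun t _ => (hqd t).hasDerivWithinAt) (fun t ht => by
        have h6 := hP t ⟨ht.1, ht.2.trans hc1.le⟩
        simp only [max_eq_right ht.2, h4, zero_sub, norm_neg] at h6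
        exact h6) (convex_Icc 0 c) ⟨hx, hxy.trans hy⟩ ⟨hx.trans hxy, hy⟩
    rw [hg1 y hy, hg1 x (hxy.trans hy)]
    have e : -q y - -q x = -(q y - q x) := by ring
    rw [e, norm_neg]
    rwa [Real.norm_eq_abs, abs_of_nonneg (by linarith)] at h5
  have p2 : ∀ x y : ℝ, c ≤ x → x ≤ y → y ≤ 1 → ‖g y - g x‖ ≤ ε * (y - x) := by
    intro x y hx hxy hy
    have h5 := Convex.norm_image_sub_le_of_norm_hasDerivWithin_le (f := fun y => f y - q y)
      (f' := fun y => f' y - P.eval (y : ℂ)) (C := ε) (s := Set.Icc c 1) (x := x) (y := y)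
      (fun t ht => ((h1 t ht).sub (hqd t)).hasDerivWithinAt) (fun t ht => by
        have h6 := hP t ⟨hc0.le.trans ht.1, ht.2⟩
        simp only [max_eq_left ht.1] at h6
        exact h6) (convex_Icc c 1) ⟨hx, hxy.trans hy⟩ ⟨hx.trans hxy, hy⟩
    rw [hg2 y (hx.trans hxy), hg2 x hx]
    rwa [Real.norm_eq_abs, abs_of_nonneg (by linarith)] at h5
  have p3 : ∀ x y : ℝ, 0 ≤ x → x ≤ y → y ≤ 1 → ‖g y - g x‖ ≤ ε * (y - x) := by
    intro x y hx hxy hy
    rcases le_total y c with h | h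
    · exact p1 x y hx hxy h
    rcases le_total c x with h' | h'
    · exact p2 x y h' hxy hy
    have a1 := p1 x c hx h' le_rfl
    have a2 := p2 c y le_rfl h hy
    have e : g y - g x = (g y - g c) + (g c - g x) := by ring
    rw [e]
    refine (norm_add_le _ _).trans ?_
    linarith
  intro x y hx hxy hy
  refine ⟨?_, p3 x y hx hxy hy⟩
  have h7 := p3 0 y le_rfl (hx.trans hxy) hy
  have h8 : g 0 = 0 := by rw [hg1 0 hc0.le, hq0, neg_zero]
  rw [h8, sub_zero, sub_zero] at h7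
  refine h7.trans ?_
  nlinarith

/-- the function `e^{a(1+log y)}` -/
noncomputable def EE (a : ℂ) (y : ℝ) : ℂ := Complex.exp (a * (1 + (Real.log y : ℂ)))

/-- the weight -/
noncomputable def fa (a : ℂ) (y : ℝ) : ℂ := (1 - EE a y) ^ 2 / (y : ℂ)

/-- its derivative -/
noncomputable def fa' (a : ℂ) (y : ℝ) : ℂ :=
  (2 * (1 - EE a y) * (-(EE a y * (a * ((y⁻¹ : ℝ) : ℂ)))) * (y : ℂ) - (1 - EE a y) ^ 2) / (y : ℂ) ^ 2

lemma EE_c (a : ℂ) : EE a (Real.exp (-1)) = 1 := by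
  unfold EE
  rw [Real.log_exp]
  simp

lemma EE_deriv (a : ℂ) (y : ℝ) (hy : 0 < y) :
    HasDerivAt (EE a) (EE a y * (a * ((y⁻¹ : ℝ) : ℂ))) y := by
  unfold EE
  have h1 : HasDerivAt (fun y : ℝ => ((Real.log y : ℝ) : ℂ)) (((y⁻¹ : ℝ)) : ℂ) y :=
    (Real.hasDerivAt_log hy.ne').ofReal_comp
  exact ((h1.const_add 1).const_mul a).cexp

lemma fa_deriv (a : ℂ) (y : ℝ) (hy : 0 < y) : HasDerivAt (fa a) (fa' a y) y := by
  unfold fa fa'
  have h1 : HasDerivAt (fun y : ℝ => (y : ℂ)) 1 y := Complex.ofRealCLM.hasDerivAt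
  have h2 := (((EE_deriv a y hy).const_sub 1).pow 2).div h1 (by exact_mod_cast hy.ne')
  refine h2.congr_deriv ?_
  simp only [Pi.pow_apply]
  push_cast
  ring

lemma fa'_cont (a : ℂ) (y : ℝ) (hy : 0 < y) : ContinuousAt (fa' a) y := by
  unfold fa'
  have h1 : ContinuousAt (EE a) y := (EE_deriv a y hy).continuousAt
  have h2 : ContinuousAt (fun y : ℝ => (y : ℂ)) y := Complex.continuous_ofReal.continuousAt
  have h3 : ContinuousAt (fun y : ℝ => ((y⁻¹ : ℝ) : ℂ)) y :=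
    Complex.continuous_ofReal.continuousAt.comp (continuousAt_inv₀ hy.ne')
  refine ContinuousAt.div ?_ (h2.pow 2) (by
    have : (y : ℂ) ≠ 0 := by exact_mod_cast hy.ne'
    exact pow_ne_zero 2 this)
  exact (((continuousAt_const.mul (continuousAt_const.sub h1)).mul
    (h1.mul (continuousAt_const.mul h3)).neg).mul h2).sub ((continuousAt_const.sub h1).pow 2)

/-- the averaged weight -/
noncomputable def fJ {J : ℕ} (a : Fin J → ℂ) (y : ℝ) : ℂ := 1 / (J : ℂ) * ∑ m, fa (a m) y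

theorem approx_fJ {J : ℕ} (a : Fin J → ℂ) (ε : ℝ) (hε : 0 < ε) :
    ∃ (d : ℕ) (h : Fin (d + 1) → ℂ), ∀ x y : ℝ, 0 ≤ x → x ≤ y → y ≤ 1 →
      ‖(if y ≤ Real.exp (-1) then 0 else fJ a y) - ∑ j, h j * (y : ℂ) ^ (j : ℕ)‖ ≤ ε ∧
      ‖((if y ≤ Real.exp (-1) then 0 else fJ a y) - ∑ j, h j * (y : ℂ) ^ (j : ℕ)) -
        ((if x ≤ Real.exp (-1) then 0 else fJ a x) - ∑ j, h j * (x : ℂ) ^ (j : ℕ))‖ ≤
        ε * (y - x) := by
  have hc0 : 0 < Real.exp (-1) := Real.exp_pos _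
  have hc1 : Real.exp (-1) < 1 := Real.exp_lt_one_iff.2 (by norm_num)
  refine approx (Real.exp (-1)) hc0 hc1 (fJ a) (fun y => 1 / (J : ℂ) * ∑ m, fa' (a m) y)
    ?_ ?_ ?_ ?_ ε hε
  · intro y hy
    unfold fJ
    exact (HasDerivAt.fun_sum fun m _ => fa_deriv (a m) y (hc0.trans_le hy.1)).const_mul _
  · intro y hy
    refine ContinuousAt.continuousWithinAt ?_
    exact continuousAt_const.mul (tendsto_finsetSum _ fun m _ =>
      fa'_cont (a m) y (hc0.trans_le hy.1))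
  · unfold fJ fa
    simp [EE_c]
  · unfold fa'
    simp [EE_c]

end Pool.Agent.H7.PM
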