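import Pool.Agent.H7.PM.E2
import Pool.Agent.H7.PM.E3

set_option autoImplicit false
open MeasureTheory Metric Filter
open scoped ComplexConjugate ENNReal Topology

/-! Comparison of the partial sums with combinations of Euler products. -/

namespace Pool.Agent.H7.PM

open Pool.Agent.Helper873.OneVar Pool.Agent.Helper873.Product Pool.Agent.Helper873.Embed

lemma DSer_add {a b : ℕ → ℂ} (ha : Summable fun n => ‖a n‖) (hb : Summable fun n => ‖b n‖)
    (z : Tor) : DSer (fun n => a n + b n) z = DSer a z + DSer b z := by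
  unfold DSer
  rw [← (summable_term ha z).tsum_add (summable_term hb z)]
  exact tsum_congr fun n => by ring

lemma DSer_sub {a b : ℕ → ℂ} (ha : Summable fun n => ‖a n‖) (hb : Summable fun n => ‖b n‖)
    (z : Tor) : DSer (fun n => a n - b n) z = DSer a z - DSer b z := by
  unfold DSer
  rw [← (summable_term ha z).tsum_sub (summable_term hb z)]
  exact tsum_congr fun n => by ring

lemma DSer_cmul (c : ℂ) (a : ℕ → ℂ) (z : Tor) :
    DSer (fun n => c * a n) z = c * DSer a z := by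
  unfold DSer
  rw [← tsum_mul_left]
  exact tsum_congr fun n => by ring

lemma summable_cmul (c : ℂ) {a : ℕ → ℂ} (ha : Summable fun n => ‖a n‖) :
    Summable fun n => ‖c * a n‖ := by
  simp_rw [norm_mul]
  exact ha.mul_left _

lemma smb_sum {ι : Type*} (s : Finset ι) {a : ι → ℕ → ℂ}
    (ha : ∀ i ∈ s, Summable fun n => ‖a i n‖) : Summable fun n => ‖∑ i ∈ s, a i n‖ := by
  refine Summable.of_nonneg_of_le (fun _ => norm_nonneg _) (fun n => norm_sum_le _ _) ?_
  exact summable_sum ha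

lemma DSer_sum {ι : Type*} (s : Finset ι) {a : ι → ℕ → ℂ}
    (ha : ∀ i ∈ s, Summable fun n => ‖a i n‖) (z : Tor) :
    DSer (fun n => ∑ i ∈ s, a i n) z = ∑ i ∈ s, DSer (a i) z := by
  unfold DSer
  rw [← Summable.tsum_finsetSum fun i hi => summable_term (ha i hi) z]
  refine tsum_congr fun n => ?_
  rw [Finset.sum_mul]

/-- the partial sums -/
noncomputable def SN (N : ℕ) : Tor → ℂ := DPol (Finset.Icc 1 N) fun n => (n : ℂ) ^ (-(1 / 2) : ℂ)

lemma continuous_SN (N : ℕ) : Continuous (SN N) := continuous_DPol _ _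

/-- coefficients of the part close to the cut -/
noncomputable def xc {J : ℕ} (u : Fin J → ℝ) (N n : ℕ) : ℂ :=
  2 * (1 / (J : ℂ) * ∑ m, Complex.exp (bp 1 (u m)) * cf N (bp 1 (u m)) n) -
    1 / (J : ℂ) * ∑ m, Complex.exp (bp 2 (u m)) * cf N (bp 2 (u m)) n

lemma summable_av {J : ℕ} (u : Fin J → ℝ) (N : ℕ) (c : ℝ) (hc : 1 ≤ c) :
    Summable fun n => ‖1 / (J : ℂ) * ∑ m, Complex.exp (bp c (u m)) * cf N (bp c (u m)) n‖ :=
  summable_cmul _ (smb_sum _ fun m _ => summable_cmul _ (summable_cf N _ (by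
    rw [bp_re]; linarith)))

lemma DSer_av {J : ℕ} (u : Fin J → ℝ) (N : ℕ) (c : ℝ) (hc : 1 ≤ c) (z : Tor) :
    DSer (fun n => 1 / (J : ℂ) * ∑ m, Complex.exp (bp c (u m)) * cf N (bp c (u m)) n) z =
      av J c u N z := by
  have hs : ∀ m, Summable fun n => ‖cf N (bp c (u m)) n‖ := fun m =>
    summable_cf N _ (by rw [bp_re]; linarith)
  rw [DSer_cmul, DSer_sum _ fun m _ => summable_cmul _ (hs m)]
  unfold av
  congr 1
  refine Finset.sum_congr rfl fun m _ => ?_
  rw [DSer_cmul, ← FF_eq N _ (by rw [bp_re]; linarith)]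

lemma summable_xc {J : ℕ} (u : Fin J → ℝ) (N : ℕ) : Summable fun n => ‖xc u N n‖ := by
  have h1 := summable_cmul 2 (summable_av u N 1 le_rfl)
  have h2 := summable_av u N 2 one_le_two
  exact Summable.of_nonneg_of_le (fun _ => norm_nonneg _) (fun n => norm_sub_le _ _) (h1.add h2)

lemma DSer_xc {J : ℕ} (u : Fin J → ℝ) (N : ℕ) (z : Tor) :
    DSer (xc u N) z = 2 * av J 1 u N z - av J 2 u N z := by
  have h1 := summable_cmul 2 (summable_av u N 1 le_rfl)
  have h2 := summable_av u N 2 one_le_two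
  have h3 := DSer_sub h1 h2 z
  rw [DSer_cmul, DSer_av u N 1 le_rfl, DSer_av u N 2 one_le_two] at h3
  exact h3

lemma mem_smooth (N n : ℕ) (hn : n ≠ 0) (h : n ≤ N) : n ∈ (YY N).smoothNumbers := by
  rw [Nat.mem_smoothNumbers']
  intro p hp hpn
  have h1 : p ≤ n := Nat.le_of_dvd (Nat.pos_of_ne_zero hn) hpn
  have h2 := Nat.add_two_le_nth_prime (KK N)
  have h3 := KK_ge' N
  unfold YY
  omega

lemma cf_eq (N : ℕ) (a : ℂ) (n : ℕ) :
    cf N a n = Complex.exp (a * Real.log (yn N n)) * cf N 0 n := by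
  have := cf_shift N 0 a n
  rwa [zero_add] at this

lemma key_id {J : ℕ} (hJ : 1 ≤ J) (u : Fin J → ℝ) {N : ℕ} (hN : 2 ≤ N) (n : ℕ) :
    (if n ∈ Finset.Icc 1 N then (n : ℂ) ^ (-(1 / 2) : ℂ) else 0) =
      (if yn N n ≤ Real.exp (-1) then 0 else fJ (fun m => bp 1 (u m)) (yn N n)) * cf N 1 n +
        (if n ≤ N then 1 else 0) * xc u N n := by
  rcases eq_or_ne n 0 with rfl | hn
  · have : xc u N 0 = 0 := by unfold xc; simp [cf_zero]
    rw [this, cf_zero]
    simp
  by_cases h : n ≤ N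
  · rw [if_pos (Finset.mem_Icc.2 ⟨Nat.one_le_iff_ne_zero.2 hn, h⟩), if_pos h]
    have hy := (yn_ge_iff hN n hn).2 h
    have hφ : (if yn N n ≤ Real.exp (-1) then 0 else fJ (fun m => bp 1 (u m)) (yn N n)) =
        fJ (fun m => bp 1 (u m)) (yn N n) := by
      rcases hy.lt_or_eq with h1 | h1
      · rw [if_neg (not_le.2 h1)]
      · rw [← h1, if_pos le_rfl]
        unfold fJ fa
        simp [EE_c]
    rw [hφ]
    have hy0 : (yn N n : ℂ) ≠ 0 := by exact_mod_cast (yn_pos N n).ne'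
    have hB : cf N 0 n = (n : ℂ) ^ (-(1 / 2) : ℂ) := by
      unfold cf ee
      rw [if_pos (mem_smooth N n hn h)]
      simp
    rw [← hB, cf_eq N 1 n]
    set B := cf N 0 n
    have e1 : Complex.exp (1 * (Real.log (yn N n) : ℂ)) = (yn N n : ℂ) := by
      rw [one_mul, ← Complex.ofReal_exp, Real.exp_log (yn_pos N n)]
    rw [e1]
    have e2 : ∀ m, Complex.exp (bp 1 (u m)) * cf N (bp 1 (u m)) n =
        EE (bp 1 (u m)) (yn N n) * B := by
      intro m
      rw [cf_eq]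
      unfold EE
      rw [← mul_assoc, ← Complex.exp_add]
      congr 2
      ring
    have e3 : ∀ m, Complex.exp (bp 2 (u m)) * cf N (bp 2 (u m)) n =
        EE (bp 1 (u m)) (yn N n) ^ 2 * B := by
      intro m
      rw [cf_eq]
      unfold EE
      rw [← mul_assoc, ← Complex.exp_add, ← Complex.exp_nat_mul]
      congr 2
      unfold bp
      push_cast
      ring
    unfold xc fJ fa
    simp_rw [e2, e3]
    have hJ0 : (J : ℂ) ≠ 0 := by exact_mod_cast (by omega : J ≠ 0)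
    rw [← Finset.sum_mul, ← Finset.sum_mul, ← Finset.sum_div]
    have e4 : ∑ m, (1 - EE (bp 1 (u m)) (yn N n)) ^ 2 = (J : ℂ) -
        2 * ∑ m, EE (bp 1 (u m)) (yn N n) + ∑ m, EE (bp 1 (u m)) (yn N n) ^ 2 := by
      have : ∀ m, (1 - EE (bp 1 (u m)) (yn N n)) ^ 2 =
          1 - 2 * EE (bp 1 (u m)) (yn N n) + EE (bp 1 (u m)) (yn N n) ^ 2 := fun m => by ring
      simp_rw [this]
      rw [Finset.sum_add_distrib, Finset.sum_sub_distrib, ← Finset.mul_sum]
      simp
    rw [e4]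
    field_simp
    ring
  · have hni : n ∉ Finset.Icc 1 N := fun h1 => h (Finset.mem_Icc.1 h1).2
    rw [if_neg hni, if_neg h]
    have hy : ¬ Real.exp (-1) ≤ yn N n := fun h1 => h ((yn_ge_iff hN n hn).1 h1)
    rw [if_pos (not_le.1 hy).le]
    simp

lemma SN_eq (N : ℕ) (z : Tor) : SN N z =
    DSer (fun n => if n ∈ Finset.Icc 1 N then (n : ℂ) ^ (-(1 / 2) : ℂ) else 0) z := by
  unfold SN DPol DSer
  rw [tsum_eq_sum (s := Finset.Icc 1 N)]
  · refine Finset.sum_congr rfl fun n hn => ?_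
    simp only
    rw [if_pos hn]
  · intro n hn
    simp only
    rw [if_neg hn, zero_mul]

lemma PQ_DSer (d : ℕ) (h : Fin (d + 1) → ℂ) (N : ℕ) (z : Tor) :
    PQ d h N z = DSer (fun n => (∑ j, h j * (yn N n : ℂ) ^ (j : ℕ)) * cf N 1 n) z := by
  have hs : ∀ j : Fin (d + 1), Summable fun n => ‖cf N (pt d j : ℂ) n‖ := fun j =>
    summable_cf N _ (by rw [Complex.ofReal_re]; linarith [pt_ge d j])
  have e : (fun n => (∑ j, h j * (yn N n : ℂ) ^ (j : ℕ)) * cf N 1 n) =
      fun n => ∑ j, h j * cf N (pt d j : ℂ) n := by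
    funext n
    rw [Finset.sum_mul]
    refine Finset.sum_congr rfl fun j _ => ?_
    have e1 : (pt d j : ℂ) = 1 + ((j : ℕ) : ℂ) := by unfold pt; push_cast; rfl
    rw [e1, cf_shift]
    have e2 : Complex.exp (((j : ℕ) : ℂ) * (Real.log (yn N n) : ℂ)) = (yn N n : ℂ) ^ (j : ℕ) := by
      rw [Complex.exp_nat_mul, ← Complex.ofReal_exp, Real.exp_log (yn_pos N n)]
    rw [e2]
    ring
  rw [e, DSer_sum _ fun j _ => summable_cmul _ (hs j)]
  unfold PQ
  refine Finset.sum_congr rfl fun j _ => ?_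
  rw [DSer_cmul, ← FF_eq N _ (by rw [Complex.ofReal_re]; linarith [pt_ge d j])]

/-- norm of the Euler product -/
lemma nrm_FF {k : ℝ} (N : ℕ) : nrm k (FF N 1) = ZZ k N ^ (1 / k) := rfl

lemma nrm_FF_pos {k : ℝ} (N : ℕ) : 0 < nrm k (FF N 1) := by
  rw [nrm_FF]
  exact Real.rpow_pos_of_pos (ZZ_pos k N) _

lemma nrm_av_le {k η : ℝ} (hk : 0 < k) (hη : 0 < η) {J : ℕ} {c : ℝ} {u : Fin J → ℝ} {N : ℕ}
    (h : ∫ z, ‖av J c u N z‖ ^ k ∂tor ≤ η ^ k * ZZ k N) :
    nrm k (av J c u N) ≤ η * nrm k (FF N 1) := by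
  rw [nrm_FF]
  unfold nrm
  calc (∫ z, ‖av J c u N z‖ ^ k ∂tor) ^ (1 / k) ≤ (η ^ k * ZZ k N) ^ (1 / k) :=
        Real.rpow_le_rpow (int_nonneg k _) h (by positivity)
    _ = η * ZZ k N ^ (1 / k) := by
        rw [Real.mul_rpow (by positivity) (ZZ_pos k N).le, ← Real.rpow_mul hη.le,
          mul_one_div_cancel hk.ne', Real.rpow_one]

theorem SN_approx {k : ℝ} (hk : 1 < k) (ε : ℝ) (hε : 0 < ε) :
    ∃ (d : ℕ) (h : Fin (d + 1) → ℂ), ∀ᶠ N in atTop,
      nrm k (fun z => SN N z - PQ d h N z) ≤ ε * nrm k (FF N 1) := by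
  have hk0 : 0 < k := by linarith
  obtain ⟨C1, hC1, H1⟩ := mult_lip k hk
  obtain ⟨C2, hC2, H2⟩ := proj_ser k hk
  set η : ℝ := ε / (6 * (C2 + 1)) with hη
  have hη0 : 0 < η := by positivity
  obtain ⟨J, hJ, u, hu⟩ := av_small k (η ^ k) hk (by positivity)
  set ε1 : ℝ := ε / (2 * (C1 + 1)) with hε1
  have hε10 : 0 < ε1 := by positivity
  obtain ⟨d, h, hd⟩ := approx_fJ (fun m => bp 1 (u m)) ε1 hε10
  refine ⟨d, h, ?_⟩
  filter_upwards [hu 1 le_rfl one_le_two, hu 2 one_le_two le_rfl, eventually_ge_atTop 2]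
    with N h1 h2 hN
  set g : ℝ → ℂ := fun y => (if y ≤ Real.exp (-1) then 0 else fJ (fun m => bp 1 (u m)) y) -
    ∑ j, h j * (y : ℂ) ^ (j : ℕ) with hg
  obtain ⟨hs1, hb1⟩ := H1 g ε1 hε10.le
    (fun y hy0 hy1 => (hd 0 y le_rfl hy0 hy1).1)
    (fun x y hx hxy hy => (hd x y hx hxy hy).2) N
  have hb2 := H2 (xc u N) (by unfold xc; simp [cf_zero]) (summable_xc u N) N
  have hs2 : Summable fun n => ‖(if n ≤ N then 1 else 0) * xc u N n‖ := by
    refine Summable.of_nonneg_of_le (fun _ => norm_nonneg _) (fun n => ?_) (summable_xc u N)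
    rw [norm_mul]
    split_ifs
    · simp
    · simp
  have hs3 : Summable fun n => ‖(∑ j, h j * (yn N n : ℂ) ^ (j : ℕ)) * cf N 1 n‖ := by
    have e : ∀ n, ‖(∑ j, h j * (yn N n : ℂ) ^ (j : ℕ)) * cf N 1 n‖ ≤
        (∑ j, ‖h j‖) * ‖cf N 1 n‖ := by
      intro n
      rw [norm_mul]
      refine mul_le_mul_of_nonneg_right ?_ (norm_nonneg _)
      refine (norm_sum_le _ _).trans (Finset.sum_le_sum fun j _ => ?_)
      rw [norm_mul, norm_pow, Complex.norm_real, Real.norm_of_nonneg (yn_pos N n).le]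
      have := pow_le_one₀ (yn_pos N n).le (yn_le_one N n) (n := (j : ℕ))
      have := norm_nonneg (h j)
      nlinarith
    exact Summable.of_nonneg_of_le (fun _ => norm_nonneg _) e ((summable_cf N 1 one_re).mul_left _)
  have hid : (fun z => SN N z - PQ d h N z) = fun z =>
      DSer (fun n => g (yn N n) * cf N 1 n) z +
      DSer (fun n => (if n ≤ N then 1 else 0) * xc u N n) z := by
    funext z
    have e1 : SN N z = DSer (fun n => g (yn N n) * cf N 1 n) z +
        DSer (fun n => (if n ≤ N then 1 else 0) * xc u N n) z + PQ d h N z := by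
      rw [SN_eq, PQ_DSer, ← DSer_add hs1 hs2, ← DSer_add _ hs3]
      · congr 1
        funext n
        rw [key_id hJ u hN n]
        simp only [hg]
        ring
      · exact Summable.of_nonneg_of_le (fun _ => norm_nonneg _) (fun n => norm_add_le _ _)
          (hs1.add hs2)
    rw [e1]; ring
  rw [hid]
  refine (nrm_add_le hk.le (continuous_DSer hs1) (continuous_DSer hs2)).trans ?_
  have hF := (nrm_FF_pos (k := k) N)
  -- the second part
  have hX : nrm k (DSer (xc u N)) ≤ 3 * η * nrm k (FF N 1) := by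
    have e : DSer (xc u N) = fun z => 2 * av J 1 u N z + (-1) * av J 2 u N z := by
      funext z
      rw [DSer_xc]; ring
    rw [e]
    refine (nrm_add_le hk.le (cmul_cont _ (continuous_av J 1 le_rfl u N))
      (cmul_cont _ (continuous_av J 2 one_le_two u N))).trans ?_
    rw [nrm_const_mul hk0, nrm_const_mul hk0]
    have b1 := nrm_av_le hk0 hη0 h1
    have b2 := nrm_av_le hk0 hη0 h2
    have n2 : ‖(2 : ℂ)‖ = 2 := by simp
    have n1 : ‖(-1 : ℂ)‖ = 1 := by simp
    rw [n2, n1]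
    linarith
  have t1 : C1 * ε1 * nrm k (FF N 1) ≤ ε / 2 * nrm k (FF N 1) := by
    refine mul_le_mul_of_nonneg_right ?_ hF.le
    rw [hε1, mul_div_assoc', div_le_iff₀ (by positivity)]
    nlinarith
  have t2 : C2 * (3 * η * nrm k (FF N 1)) ≤ ε / 2 * nrm k (FF N 1) := by
    have : C2 * (3 * η) ≤ ε / 2 := by
      rw [hη]
      have : C2 * (3 * (ε / (6 * (C2 + 1)))) = (C2 * ε) / (2 * (C2 + 1)) := by
        field_simp; ring
      rw [this, div_le_iff₀ (by positivity)]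
      nlinarith
    calc C2 * (3 * η * nrm k (FF N 1)) = (C2 * (3 * η)) * nrm k (FF N 1) := by ring
      _ ≤ _ := mul_le_mul_of_nonneg_right this hF.le
  have t3 := hb2.trans (mul_le_mul_of_nonneg_left hX hC2)
  linarith

lemma PQ_nrm_lim {k : ℝ} (hk : 1 < k) (d : ℕ) (h : Fin (d + 1) → ℂ) :
    ∃ l : ℝ, Tendsto (fun N => nrm k (PQ d h N) / nrm k (FF N 1)) atTop (𝓝 l) := by
  obtain ⟨l, hl⟩ := PQ_lim (by linarith : 0 < k) d h
  refine ⟨l ^ (1 / k), ?_⟩
  have h1 := hl.rpow_const (p := 1 / k) (Or.inr (by positivity))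
  refine h1.congr fun N => ?_
  rw [nrm_FF, Real.div_rpow (int_nonneg k _) (ZZ_pos k N).le]
  rfl

theorem SN_lim {k : ℝ} (hk : 1 < k) :
    ∃ l : ℝ, Tendsto (fun N => nrm k (SN N) / nrm k (FF N 1)) atTop (𝓝 l) := by
  refine conv_of_approx _ fun ε hε => ?_
  obtain ⟨d, h, hd⟩ := SN_approx hk ε hε
  refine ⟨_, PQ_nrm_lim hk d h, ?_⟩
  filter_upwards [hd] with N hN
  have hF := (nrm_FF_pos (k := k) N)
  rw [← sub_div, abs_div, abs_of_pos hF, div_le_iff₀ hF]
  exact (abs_nrm_sub_le hk.le (continuous_SN N) (continuous_PQ d h N)).trans hN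

end Pool.Agent.H7.PM
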