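import Pool.Agent.H7.PM.E4

set_option autoImplicit false
open MeasureTheory Metric Filter
open scoped ComplexConjugate ENNReal Topology

/-! The limit is positive. -/

namespace Pool.Agent.H7.PM

open Pool.Agent.Helper873.OneVar Pool.Agent.Helper873.Product Pool.Agent.Helper873.Embed

lemma DPol_trunc (a : ℕ → ℂ) (M N : ℕ) (h : N ≤ M) (z : Tor) :
    DPol (Finset.Icc 1 M) (fun n => if n ≤ N then a n else 0) z = DPol (Finset.Icc 1 N) a z := by
  unfold DPol
  simp_rw [ite_mul, zero_mul]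
  rw [← Finset.sum_filter]
  refine Finset.sum_congr ?_ fun _ _ => rfl
  ext n
  simp only [Finset.mem_filter, Finset.mem_Icc]
  omega

/-- summation by parts -/
lemma abel_nrm {p : ℝ} (hp : 1 ≤ p) (w : ℕ → ℝ) (hw0 : ∀ n, 0 ≤ w n) (hw : ∀ n, w (n + 1) ≤ w n)
    (a : ℕ → ℂ) (M : ℕ) (R : ℝ) (hR : ∀ n ≤ M, nrm p (DPol (Finset.Icc 1 n) a) ≤ R) :
    nrm p (DPol (Finset.Icc 1 M) (fun n => (w n : ℂ) * a n)) ≤ w 0 * R := by
  have hp0 : 0 < p := by linarith
  have e : DPol (Finset.Icc 1 M) (fun n => (w n : ℂ) * a n) = fun z =>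
      (w M : ℂ) * DPol (Finset.Icc 1 M) a z + ∑ N ∈ Finset.range M,
      (-((w (N + 1) : ℂ) - w N)) *
        DPol (Finset.Icc 1 M) (fun n => if n ≤ N then a n else 0) z := by
    funext z
    unfold DPol
    simp_rw [Finset.mul_sum]
    rw [Finset.sum_comm, ← Finset.sum_add_distrib]
    refine Finset.sum_congr rfl fun n hn => ?_
    have h1 := abel_id (fun n => (w n : ℂ)) M n (Finset.mem_Icc.1 hn).2
    have h2 : ∑ N ∈ Finset.range M, -((w (N + 1) : ℂ) - w N) * ((if n ≤ N then a n else 0) *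
        stf n z) = -(∑ N ∈ Finset.range M, ((w (N + 1) : ℂ) - w N) * if n ≤ N then 1 else 0) *
        (a n * stf n z) := by
      rw [← Finset.sum_neg_distrib, Finset.sum_mul]
      refine Finset.sum_congr rfl fun N _ => ?_
      split_ifs <;> ring
    rw [h2]
    linear_combination (a n * stf n z) * h1
  rw [e]
  refine (nrm_add_le hp (cmul_cont _ (continuous_DPol _ _))
    (sum_cont _ fun N _ => cmul_cont _ (continuous_DPol _ _))).trans ?_
  have h3 := nrm_sum_le hp (Finset.range M) (fun N z => (-((w (N + 1) : ℂ) - w N)) *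
    DPol (Finset.Icc 1 M) (fun n => if n ≤ N then a n else 0) z)
    (fun N _ => cmul_cont _ (continuous_DPol _ _))
  have h4 : ∑ N ∈ Finset.range M, nrm p (fun z => (-((w (N + 1) : ℂ) - w N)) *
      DPol (Finset.Icc 1 M) (fun n => if n ≤ N then a n else 0) z) ≤
      ∑ N ∈ Finset.range M, (w N - w (N + 1)) * R := by
    refine Finset.sum_le_sum fun N hN => ?_
    rw [nrm_const_mul hp0, norm_neg]
    have e1 : ‖((w (N + 1) : ℂ) - w N)‖ = w N - w (N + 1) := by
      rw [← Complex.ofReal_sub, Complex.norm_real, Real.norm_eq_abs, abs_sub_comm,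
        abs_of_nonneg (by linarith [hw N])]
    rw [e1]
    refine mul_le_mul_of_nonneg_left ?_ (by linarith [hw N])
    have hNM := (Finset.mem_range.1 hN).le
    have e2 : DPol (Finset.Icc 1 M) (fun n => if n ≤ N then a n else 0) =
        DPol (Finset.Icc 1 N) a := funext fun z => DPol_trunc a M N hNM z
    rw [e2]
    exact hR N hNM
  rw [← Finset.sum_mul, Finset.sum_range_sub'] at h4
  rw [nrm_const_mul hp0, Complex.norm_real, Real.norm_of_nonneg (hw0 M)]
  have h5 : w M * nrm p (DPol (Finset.Icc 1 M) a) ≤ w M * R :=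
    mul_le_mul_of_nonneg_left (hR M le_rfl) (hw0 M)
  calc _ ≤ w M * R + (w 0 - w M) * R := by linarith
    _ = w 0 * R := by ring

lemma mem_smooth' (N n : ℕ) (hn : n ≠ 0) (h : n ≤ KK N) : n ∈ (YY N).smoothNumbers := by
  rw [Nat.mem_smoothNumbers']
  intro p hp hpn
  have h1 : p ≤ n := Nat.le_of_dvd (Nat.pos_of_ne_zero hn) hpn
  have h2 := Nat.add_two_le_nth_prime (KK N)
  unfold YY
  omega

lemma yn_pow_iff {N : ℕ} (hN : 2 ≤ N) (B n : ℕ) (h : N ^ B ≤ n) : yn N n ≤ Real.exp (-(B : ℝ)) := by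
  unfold yn
  refine Real.exp_le_exp.2 (neg_le_neg ?_)
  have hpos : 0 < N ^ B := Nat.pow_pos (by omega)
  have hm : max n 1 = n := max_eq_left (by omega)
  rw [hm]
  have h1 := log_dl hN
  have hd := dl_pos hN
  have h2 : (B : ℝ) * Real.log N ≤ Real.log n := by
    rw [← Real.log_pow]
    refine Real.log_le_log (by exact_mod_cast hpos) ?_
    exact_mod_cast h
  calc (B : ℝ) = dl N * (B * Real.log N) := by
        rw [mul_left_comm, h1, mul_one]
    _ ≤ _ := mul_le_mul_of_nonneg_left h2 hd.le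

/-- comparison of the norm of the Euler product with the partial sums -/
theorem FF2_le {k : ℝ} (hk : 1 < k) : ∃ C : ℝ, 0 ≤ C ∧ ∀ (B N : ℕ), 2 ≤ N → B ≤ N → ∀ R : ℝ,
    (∀ M ≤ N ^ B, nrm k (SN M) ≤ R) →
    nrm k (FF N 2) ≤ R + C * Real.exp (-(B : ℝ)) * nrm k (FF N 1) := by
  obtain ⟨C, hC, H⟩ := mult k hk
  refine ⟨1 + C, by linarith, fun B N hN hBN R hR => ?_⟩
  set t : ℝ := Real.exp (-(B : ℝ)) with ht
  have ht0 : 0 < t := Real.exp_pos _
  -- the second part
  have h1 := H (cf N 1) (fun n => ((min (yn N n) t : ℝ) : ℂ)) t t (cf_zero N 1)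
    (summable_cf N 1 one_re)
    (fun n => by
      rw [Complex.norm_real, Real.norm_of_nonneg (le_min (yn_pos N n).le ht0.le)]
      exact min_le_right _ _)
    (fun M => by
      have h2 : ∀ n, ‖((min (yn N (n + 1)) t : ℝ) : ℂ) - ((min (yn N n) t : ℝ) : ℂ)‖ =
          min (yn N n) t - min (yn N (n + 1)) t := by
        intro n
        rw [← Complex.ofReal_sub, Complex.norm_real, Real.norm_eq_abs, abs_sub_comm,
          abs_of_nonneg]
        rw [sub_nonneg]
        exact min_le_min_right t (yn_anti N n)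
      simp_rw [h2]
      rw [Finset.sum_range_sub' (fun n => min (yn N n) t)]
      have h3 : min (yn N 0) t ≤ t := min_le_right _ _
      have h4 : 0 ≤ min (yn N M) t := le_min (yn_pos N M).le ht0.le
      linarith)
  -- the first part
  set w : ℕ → ℝ := fun n => max (yn N n - t) 0 * yn N n with hw
  have hw0 : ∀ n, 0 ≤ w n := fun n => mul_nonneg (le_max_right _ _) (yn_pos N n).le
  have hwa : ∀ n, w (n + 1) ≤ w n := by
    intro n
    have h5 := yn_anti N n
    exact mul_le_mul (max_le_max (by linarith) le_rfl) h5 (yn_pos N _).le (le_max_right _ _)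
  have hw1 : w 0 ≤ 1 := by
    have h5 := yn_le_one N 0
    have h6 := yn_pos N 0
    have h7 : max (yn N 0 - t) 0 ≤ 1 := max_le (by linarith) zero_le_one
    calc w 0 ≤ 1 * 1 := mul_le_mul h7 h5 h6.le zero_le_one
      _ = 1 := one_mul 1
  have hR0 : 0 ≤ R := (nrm_nonneg _ _).trans (hR 0 (Nat.zero_le _))
  have h8 := abel_nrm hk.le w hw0 hwa (fun n => (n : ℂ) ^ (-(1 / 2) : ℂ)) (N ^ B) R hR
  have hKK : N ^ B ≤ KK N := (Nat.pow_le_pow_right (by omega) hBN).trans (KK_ge N)
  have e1 : DSer (fun n => ((max (yn N n - t) 0 : ℝ) : ℂ) * cf N 1 n) =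
      DPol (Finset.Icc 1 (N ^ B)) (fun n => (w n : ℂ) * (n : ℂ) ^ (-(1 / 2) : ℂ)) := by
    funext z
    unfold DSer DPol
    rw [tsum_eq_sum (s := Finset.Icc 1 (N ^ B))]
    · refine Finset.sum_congr rfl fun n hn => ?_
      beta_reduce
      obtain ⟨hn1, hn2⟩ := Finset.mem_Icc.1 hn
      have hn0 : n ≠ 0 := by omega
      have hB : cf N 0 n = (n : ℂ) ^ (-(1 / 2) : ℂ) := by
        unfold cf ee
        rw [if_pos (mem_smooth' N n hn0 (hn2.trans hKK))]
        simp
      have e2 : Complex.exp (1 * (Real.log (yn N n) : ℂ)) = (yn N n : ℂ) := by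
        rw [one_mul, ← Complex.ofReal_exp, Real.exp_log (yn_pos N n)]
      rw [cf_eq N 1 n, hB, e2]
      simp only [hw]
      push_cast
      ring
    · intro n hn
      beta_reduce
      rcases eq_or_ne n 0 with rfl | hn0
      · rw [cf_zero]; simp
      have hn2 : N ^ B ≤ n := by
        by_contra h9
        exact hn (Finset.mem_Icc.2 ⟨by omega, by omega⟩)
      have h10 := yn_pow_iff hN B n hn2
      rw [max_eq_right (by linarith)]
      simp
  have hs1 : Summable fun n => ‖((max (yn N n - t) 0 : ℝ) : ℂ) * cf N 1 n‖ := by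
    refine Summable.of_nonneg_of_le (fun _ => norm_nonneg _) (fun n => ?_)
      (summable_cf N 1 one_re)
    rw [norm_mul, Complex.norm_real, Real.norm_of_nonneg (le_max_right _ _)]
    have h5 := yn_le_one N n
    have h7 : max (yn N n - t) 0 ≤ 1 := max_le (by linarith) zero_le_one
    have := norm_nonneg (cf N 1 n)
    nlinarith
  have e3 : FF N 2 = fun z => DSer (fun n => ((max (yn N n - t) 0 : ℝ) : ℂ) * cf N 1 n) z +
      DSer (fun n => ((min (yn N n) t : ℝ) : ℂ) * cf N 1 n) z := by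
    funext z
    rw [FF_eq N 2 (by norm_num), ← DSer_add hs1 h1.1]
    congr 1
    funext n
    have e4 : (2 : ℂ) = 1 + 1 := by norm_num
    have e2 : Complex.exp (1 * (Real.log (yn N n) : ℂ)) = (yn N n : ℂ) := by
      rw [one_mul, ← Complex.ofReal_exp, Real.exp_log (yn_pos N n)]
    rw [e4, cf_shift, e2, ← add_mul, ← Complex.ofReal_add]
    congr 2
    rcases le_total (yn N n) t with h | h
    · rw [max_eq_right (by linarith), min_eq_left h, zero_add]
    · rw [max_eq_left (by linarith), min_eq_right h]; ring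
  rw [e3]
  refine (nrm_add_le hk.le (continuous_DSer hs1) (continuous_DSer h1.1)).trans ?_
  rw [← FF_eq N 1 one_re] at h1
  rw [e1]
  have h11 : w 0 * R ≤ R := by nlinarith
  have h12 := h1.2
  calc _ ≤ R + (t + C * t) * nrm k (FF N 1) := add_le_add (h8.trans h11) h12
    _ = _ := by ring

lemma nrm_FF_lim {k : ℝ} (hk : 1 < k) : ∃ c : ℝ, 0 < c ∧
    Tendsto (fun N => nrm k (FF N 1) * dl N ^ (k / 4)) atTop (𝓝 c) := by
  have hk0 : 0 < k := by linarith
  have h1 := ZZ_lim k
  set A := Gk (k / 2) * Real.exp ((k / 2) ^ 2 * -Real.log 2) with hA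
  have hA0 : 0 < A := mul_pos (Gk_pos _) (Real.exp_pos _)
  refine ⟨A ^ (1 / k), Real.rpow_pos_of_pos hA0 _, ?_⟩
  have h2 := h1.rpow_const (p := 1 / k) (Or.inr (by positivity))
  refine h2.congr fun N => ?_
  rw [Real.mul_rpow (ZZ_pos k N).le (Real.rpow_nonneg (dl_nonneg N) _), nrm_FF,
    ← Real.rpow_mul (dl_nonneg N)]
  congr 2
  field_simp
  ring

lemma nrm_FF2 {k : ℝ} (hk : 1 < k) : ∃ c : ℝ, 0 < c ∧
    ∀ᶠ N in atTop, c * nrm k (FF N 1) ≤ nrm k (FF N 2) := by
  have hk0 : 0 < k := by linarith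
  have h := int_prod_ratio (ι := Unit) (k / 2) (fun _ => k / 2) (fun _ => 2) (by simp)
    (fun _ => by norm_num)
  set A := Real.exp (∑ _i : Unit, ∑ _l : Unit, k / 2 * (k / 2) *
      (-Real.log ‖(2 : ℂ) + conj (2 : ℂ)‖) + (k / 2) ^ 2 * Real.log 2) with hA
  have hA0 : 0 < A := Real.exp_pos _
  refine ⟨(A / 2) ^ (1 / k), by positivity, ?_⟩
  filter_upwards [h.eventually (lt_mem_nhds (half_lt_self hA0))] with N hN
  have e : 2 * (k / 2) = k := by ring
  simp only [Finset.univ_unique, Finset.prod_singleton, e] at hN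
  rw [lt_div_iff₀ (ZZ_pos k N)] at hN
  rw [nrm_FF, ← Real.mul_rpow (by positivity) (ZZ_pos k N).le]
  unfold nrm
  exact Real.rpow_le_rpow (mul_nonneg (by positivity) (ZZ_pos k N).le) hN.le (by positivity)

theorem SN_pos {k : ℝ} (hk : 1 < k) {l : ℝ}
    (hl : Tendsto (fun N => nrm k (SN N) / nrm k (FF N 1)) atTop (𝓝 l)) : 0 < l := by
  have hk0 : 0 < k := by linarith
  have hl0 : 0 ≤ l := ge_of_tendsto' hl fun N =>
    div_nonneg (nrm_nonneg _ _) (nrm_nonneg _ _)
  rcases hl0.lt_or_eq with h | h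
  · exact h
  exfalso
  subst h
  obtain ⟨c0, hc0, hlim⟩ := nrm_FF_lim hk
  obtain ⟨c1, hc1, hF2⟩ := nrm_FF2 hk
  obtain ⟨C, hC, H⟩ := FF2_le hk
  -- choice of B
  obtain ⟨B, hB1, hB⟩ : ∃ B : ℕ, 1 ≤ B ∧ C * Real.exp (-(B : ℝ)) ≤ c1 / 2 := by
    have h1 : Tendsto (fun B : ℕ => C * Real.exp (-(B : ℝ))) atTop (𝓝 (C * 0)) :=
      (Real.tendsto_exp_neg_atTop_nhds_zero.comp tendsto_natCast_atTop_atTop).const_mul C
    rw [mul_zero] at h1
    obtain ⟨B, hB, hB1⟩ := ((h1.eventually (gt_mem_nhds (half_pos hc1))).and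
      (eventually_ge_atTop 1)).exists
    exact ⟨B, hB1, hB.le⟩
  have hB0 : (0 : ℝ) < B := by exact_mod_cast hB1
  -- the partial sums are small
  have hs : Tendsto (fun N => nrm k (SN N) * dl N ^ (k / 4)) atTop (𝓝 0) := by
    have h2 := hl.mul hlim
    rw [zero_mul] at h2
    refine h2.congr fun N => ?_
    have := (nrm_FF_pos (k := k) N).ne'
    field_simp
  set ε : ℝ := c1 * c0 / (8 * (B : ℝ) ^ (k / 4)) with hε
  have hBk : 0 < (B : ℝ) ^ (k / 4) := Real.rpow_pos_of_pos hB0 _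
  have hε0 : 0 < ε := by positivity
  obtain ⟨M1, hM1⟩ := eventually_atTop.1 ((hs.eventually (gt_mem_nhds hε0)).and
    (eventually_ge_atTop 2))
  have hsmall : ∀ M, M1 ≤ M → nrm k (SN M) ≤ ε * Real.log M ^ (k / 4) := by
    intro M hM
    obtain ⟨h3, h4⟩ := hM1 M hM
    have hlog : 0 < Real.log M := Real.log_pos (by exact_mod_cast h4)
    have h5 : dl M ^ (k / 4) = (Real.log M ^ (k / 4))⁻¹ := by
      unfold dl
      rw [one_div, Real.inv_rpow hlog.le]
    rw [h5, ← div_eq_mul_inv, div_lt_iff₀ (Real.rpow_pos_of_pos hlog _)] at h3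
    exact h3.le
  -- a constant bound for the first ones
  set T : ℝ := ∑ M ∈ Finset.range M1, nrm k (SN M) with hT
  have hT0 : 0 ≤ T := Finset.sum_nonneg fun M _ => nrm_nonneg _ _
  -- contradiction for large N
  have hev1 : ∀ᶠ N : ℕ in atTop, c0 / 2 < nrm k (FF N 1) * dl N ^ (k / 4) :=
    hlim.eventually (lt_mem_nhds (half_lt_self hc0))
  have hev2 : ∀ᶠ N : ℕ in atTop, T < c1 * c0 / 8 * Real.log N ^ (k / 4) := by
    have h6 : Tendsto (fun N : ℕ => c1 * c0 / 8 * Real.log N ^ (k / 4)) atTop atTop :=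
      Tendsto.const_mul_atTop (by positivity) ((tendsto_rpow_atTop (by positivity)).comp
        (Real.tendsto_log_atTop.comp tendsto_natCast_atTop_atTop))
    exact h6.eventually_gt_atTop T
  obtain ⟨N, h7, h8, h9, h10, h11⟩ := (hev1.and (hev2.and (hF2.and
    ((eventually_ge_atTop 2).and (eventually_ge_atTop B))))).exists
  have hlog : 0 < Real.log N := Real.log_pos (by exact_mod_cast h10)
  set Lk := Real.log N ^ (k / 4) with hLk
  have hLk0 : 0 < Lk := Real.rpow_pos_of_pos hlog _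
  have h12 := H B N h10 h11 (T + ε * ((B : ℝ) ^ (k / 4) * Lk)) (by
    intro M hM
    rcases Nat.lt_or_ge M M1 with h13 | h13
    · have h14 : nrm k (SN M) ≤ T := Finset.single_le_sum (f := fun M => nrm k (SN M))
        (fun M _ => nrm_nonneg _ _) (Finset.mem_range.2 h13)
      have : 0 ≤ ε * ((B : ℝ) ^ (k / 4) * Lk) := by positivity
      linarith
    · have h14 := hsmall M h13
      have hM2 : 2 ≤ M := (hM1 M h13).2
      have h15 : Real.log M ^ (k / 4) ≤ (B : ℝ) ^ (k / 4) * Lk := by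
        rw [hLk, ← Real.mul_rpow hB0.le hlog.le]
        refine Real.rpow_le_rpow (Real.log_natCast_nonneg M) ?_ (by positivity)
        rw [← Real.log_pow]
        refine Real.log_le_log (by exact_mod_cast (by omega : 0 < M)) ?_
        exact_mod_cast hM
      have := mul_le_mul_of_nonneg_left h15 hε0.le
      linarith)
  have h5 : dl N ^ (k / 4) = Lk⁻¹ := by
    unfold dl
    rw [one_div, Real.inv_rpow hlog.le]
  rw [h5, ← div_eq_mul_inv, lt_div_iff₀ hLk0] at h7
  have hf := nrm_FF_pos (k := k) N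
  have h16 : C * Real.exp (-(B : ℝ)) * nrm k (FF N 1) ≤ c1 / 2 * nrm k (FF N 1) :=
    mul_le_mul_of_nonneg_right hB hf.le
  have h17 : ε * ((B : ℝ) ^ (k / 4) * Lk) = c1 * c0 / 8 * Lk := by
    rw [hε]; field_simp
  rw [h17] at h12
  have h18 : c1 / 2 * (c0 / 2 * Lk) < c1 / 2 * nrm k (FF N 1) :=
    mul_lt_mul_of_pos_left h7 (by positivity)
  have h19 : c1 / 2 * (c0 / 2 * Lk) = c1 * c0 / 4 * Lk := by ring
  have h20 : c1 * c0 / 4 * Lk = c1 * c0 / 8 * Lk + c1 * c0 / 8 * Lk := by ring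
  linarith

end Pool.Agent.H7.PM
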