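import Pool.Agent.H7.PM.F1

set_option autoImplicit false
open MeasureTheory Metric Filter
open scoped ComplexConjugate ENNReal Topology

/-! The mean values over `[0, T]`. -/

namespace Pool.Agent.H7.PM

open Pool.Agent.Helper873.OneVar Pool.Agent.Helper873.Product Pool.Agent.Helper873.Embed
  Pool.Agent.Helper873.Mean Pool.Agent.Helper873.Alg

/-- the partial sums of zeta on the critical line -/
noncomputable def DN (N : ℕ) (t : ℝ) : ℂ :=
  ∑ n ∈ Finset.Icc 1 N, (n : ℂ) ^ (-(1 / 2 + t * Complex.I) : ℂ)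

lemma SN_zt (N : ℕ) (t : ℝ) : SN N (zt t) = DN N t := by
  unfold SN DPol DN
  refine Finset.sum_congr rfl fun n hn => ?_
  have hn0 : n ≠ 0 := by have := (Finset.mem_Icc.1 hn).1; omega
  have hnc : (n : ℂ) ≠ 0 := by exact_mod_cast hn0
  have h1 : stf n (zt t) = (n : ℂ) ^ (-(t * Complex.I)) := by
    unfold stf
    have h2 : (fun j => zet (zt t j)) = vs (t * Complex.I) := funext fun k => zet_zt t k
    rw [h2, mon_vs n hn0]
  rw [h1, ← Complex.cpow_add _ _ hnc]
  congr 1
  ring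

lemma DN_neg (N : ℕ) (t : ℝ) : ‖DN N (-t)‖ = ‖DN N t‖ := by
  rw [← Complex.norm_conj]
  congr 1
  unfold DN
  rw [map_sum]
  refine Finset.sum_congr rfl fun n hn => ?_
  have hn0 : n ≠ 0 := by have := (Finset.mem_Icc.1 hn).1; omega
  rw [nat_cpow n hn0, nat_cpow n hn0, ← Complex.exp_conj]
  congr 1
  rw [map_mul, Complex.conj_ofReal, map_neg, map_add, map_mul, map_div₀, map_one,
    Complex.conj_ofReal, Complex.conj_I, Complex.conj_ofNat]
  push_cast
  ring

lemma continuous_DN (N : ℕ) : Continuous (DN N) := by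
  have : DN N = fun t => SN N (zt t) := funext fun t => (SN_zt N t).symm
  rw [this]
  exact (continuous_SN N).comp continuous_zt

lemma half_int (g : ℝ → ℝ) (hg : Continuous g) (heven : ∀ t, g (-t) = g t) (T : ℝ) :
    ∫ t in (-T)..T, g t = 2 * ∫ t in (0 : ℝ)..T, g t := by
  have h1 : ∫ t in (-T)..0, g t = ∫ t in (0 : ℝ)..T, g t := by
    have h2 := intervalIntegral.integral_comp_neg (a := 0) (b := T) (f := g)
    simp_rw [heven] at h2
    rw [neg_zero] at h2
    exact h2.symm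
  rw [← intervalIntegral.integral_add_adjacent_intervals (b := 0)
    (hg.intervalIntegrable _ _) (hg.intervalIntegrable _ _), h1]
  ring

theorem mean_DN {k : ℝ} (hk : 0 < k) (N : ℕ) :
    Tendsto (fun T : ℝ => (1 / T) * ∫ t in (0 : ℝ)..T, ‖DN N t‖ ^ k) atTop
      (𝓝 (nrm k (SN N) ^ k)) := by
  have hc : Continuous fun z => ((‖SN N z‖ ^ k : ℝ) : ℂ) :=
    Complex.continuous_ofReal.comp (continuous_norm_rpow (continuous_SN N) hk.le)
  have h1 := kw ⟨_, hc⟩
  unfold EqM at h1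
  simp only [ContinuousMap.coe_mk] at h1
  have h2 : ∫ z, ((‖SN N z‖ ^ k : ℝ) : ℂ) ∂tor = ((nrm k (SN N) ^ k : ℝ) : ℂ) := by
    rw [nrm_rpow hk]
    exact integral_ofReal
  rw [h2] at h1
  have h3 := (Complex.continuous_re.tendsto _).comp h1
  rw [Complex.ofReal_re] at h3
  refine h3.congr' ?_
  filter_upwards [eventually_gt_atTop 0] with T hT
  simp only [Function.comp]
  unfold mT
  simp_rw [SN_zt]
  rw [intervalIntegral.integral_ofReal, ← Complex.ofReal_mul, Complex.ofReal_re,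
    half_int (fun t => ‖DN N t‖ ^ k) ((continuous_DN N).norm.rpow_const fun _ => Or.inr hk.le)
      (fun t => by simp only [DN_neg])]
  field_simp

theorem main {k : ℝ} (hk : 1 < k) : ∃ c : ℝ, 0 < c ∧
    Tendsto (fun N : ℕ => nrm k (SN N) ^ k / Real.log N ^ (k ^ 2 / 4)) atTop (𝓝 c) := by
  have hk0 : 0 < k := by linarith
  obtain ⟨l, hl⟩ := SN_lim hk
  have hl0 := SN_pos hk hl
  obtain ⟨c0, hc0, hlim⟩ := nrm_FF_lim hk
  refine ⟨(l * c0) ^ k, by positivity, ?_⟩
  have h1 := (hl.mul hlim).rpow_const (p := k) (Or.inr hk0.le)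
  refine h1.congr' ?_
  filter_upwards [eventually_ge_atTop 2] with N hN
  have hf := (nrm_FF_pos (k := k) N)
  have hlog : 0 < Real.log N := Real.log_pos (by exact_mod_cast hN)
  have e1 : nrm k (SN N) / nrm k (FF N 1) * (nrm k (FF N 1) * dl N ^ (k / 4)) =
      nrm k (SN N) * dl N ^ (k / 4) := by field_simp
  rw [e1, Real.mul_rpow (nrm_nonneg _ _) (Real.rpow_nonneg (dl_nonneg N) _),
    ← Real.rpow_mul (dl_nonneg N)]
  unfold dl
  rw [one_div, Real.inv_rpow hlog.le, div_eq_mul_inv]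
  congr 3
  ring

end Pool.Agent.H7.PM
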